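import Mathlib
import Pool.Agent.H64.CC.Core

/-!
# The sign conjecture for a generic complete intersection (after H37/CB/SEC)
-/

set_option autoImplicit false

open Matrix

namespace Pool.Agent.H64.CC

variable {K : Type} [Field K] [CharZero K] {W : Theory K}

/-- degrees of the values -/
theorem deg_mulVec {m n : ℕ} {X : W.Var n} {Y : W.Var m} {r : ℤ}
    {f : Matrix (Fin (W.rk Y)) (Fin (W.rk X)) K}
    (hf : ∀ b a, f b a ≠ 0 → (W.deg Y b : ℤ) = W.deg X a + 2 * r) {i : ℤ}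
    {v : Fin (W.rk X) → K} (hv : ∀ a, v a ≠ 0 → (W.deg X a : ℤ) = i) :
    ∀ b, (f *ᵥ v) b ≠ 0 → (W.deg Y b : ℤ) = i + 2 * r := by
  intro b hb
  have : ∃ a, f b a * v a ≠ 0 := by
    by_contra hcon
    push Not at hcon
    exact hb (show ∑ a, f b a * v a = 0 from Finset.sum_eq_zero fun a _ => hcon a)
  obtain ⟨a, ha⟩ := this
  rw [hf b a (left_ne_zero_of_mul ha), hv a (right_ne_zero_of_mul ha)]

theorem sec {V : W.Var 0} {L : Matrix (Fin (W.rk V)) (Fin (W.rk V)) K} {r m : ℕ} {T : W.Var m}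
    (hS : Nonempty (W.GenericSection V L r T)) (hodd : Odd (W.dim T)) (hC : W.Cplus T) :
    ∃ c ∈ W.cyc V V (-(r : ℤ)), ∀ i, Even i → i ≤ W.dim T → ∀ v, W.InH V i v →
      c *ᵥ (L ^ r *ᵥ v) = v := by
  obtain ⟨S⟩ := hS
  obtain ⟨q, c, hc, he⟩ := S.cycles (W.even T) hC (fun g hg => by
    obtain ⟨-, hdeg⟩ := S.Gal_deg g hg
    ext b a
    unfold Theory.even
    rw [Matrix.mul_diagonal, Matrix.diagonal_mul]
    by_cases h0 : g b a = 0
    · rw [h0, zero_mul, mul_zero]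
    · have h1 := hdeg b a h0
      have h2 : W.deg T b = W.deg T a := by omega
      rw [h2, mul_comm])
  have hev_vec : ∀ (v : Fin (W.rk T) → K) (b : Fin (W.rk T)), (W.even T *ᵥ v) b =
      (if Even (W.deg T b) then 1 else 0) * v b := by
    intro v b
    unfold Theory.even
    rw [Matrix.mulVec_diagonal]
  have hq : (q : K) = 0 := by
    obtain ⟨v, hv0, hvH, hvd⟩ := S.vanishing
    have h1 : W.even T *ᵥ v = 0 := by
      funext b
      rw [hev_vec]
      by_cases h0 : v b = 0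
      · rw [h0, mul_zero]
        rfl
      · have h2 := hvH b h0
        rw [if_neg, zero_mul]
        · rfl
        · rw [h2, Nat.not_even_iff_odd]
          exact hodd
    rw [he, Matrix.add_mulVec, ← Matrix.mulVec_mulVec, hvd, Matrix.mulVec_zero, add_zero,
      Matrix.smul_mulVec, Matrix.one_mulVec] at h1
    rcases smul_eq_zero.1 h1 with h | h
    · exact h
    · exact absurd h hv0
  rw [hq, zero_smul, zero_add] at he
  refine ⟨((S.N : ℚ)) • c, Submodule.smul_mem _ _ hc, ?_⟩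
  intro i hi hi2 v hv
  have hvz : ∀ a, v a ≠ 0 → (W.deg V a : ℤ) = i := fun a ha => by exact_mod_cast hv a ha
  have hupdeg : ∀ b, (S.up *ᵥ v) b ≠ 0 → (W.deg T b : ℤ) = i + 2 * 0 :=
    deg_mulVec S.up_deg hvz
  have hup : W.even T *ᵥ (S.up *ᵥ v) = S.up *ᵥ v := by
    funext b
    rw [hev_vec]
    by_cases h0 : (S.up *ᵥ v) b = 0
    · rw [h0, mul_zero]
    · have h1 := hupdeg b h0
      have h2 : W.deg T b = i := by omega
      rw [h2, if_pos hi, one_mul]
  have hdown : S.down *ᵥ (S.up *ᵥ v) = ((S.N : K)) • (L ^ r *ᵥ v) := by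
    rw [Matrix.mulVec_mulVec, S.down_up, Matrix.smul_mulVec]
  have hdd : ∀ b, (((S.N : K)) • (L ^ r *ᵥ v)) b ≠ 0 →
      (W.deg V b : ℤ) = (i + 2 * 0) + 2 * r := by
    rw [← hdown]
    exact deg_mulVec S.down_deg hupdeg
  have hcd : ∀ b, (c *ᵥ (((S.N : K)) • (L ^ r *ᵥ v))) b ≠ 0 →
      (W.deg V b : ℤ) = ((i + 2 * 0) + 2 * r) + 2 * (-(r : ℤ)) :=
    deg_mulVec (W.cyc_deg V V (-(r : ℤ)) c hc) hdd
  have hw : S.up *ᵥ (v - c *ᵥ (((S.N : K)) • (L ^ r *ᵥ v))) = 0 := by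
    rw [Matrix.mulVec_sub, ← hdown]
    have h1 : S.up *ᵥ (c *ᵥ (S.down *ᵥ (S.up *ᵥ v))) = W.even T *ᵥ (S.up *ᵥ v) := by
      rw [he, Matrix.mulVec_mulVec, Matrix.mulVec_mulVec]
    rw [h1, hup, sub_self]
  have hwH : W.InH V i (v - c *ᵥ (((S.N : K)) • (L ^ r *ᵥ v))) := by
    intro a ha
    by_cases h0 : v a = 0
    · have h1 : (c *ᵥ (((S.N : K)) • (L ^ r *ᵥ v))) a ≠ 0 := by
        intro h2
        apply ha
        rw [Pi.sub_apply, h0, h2, sub_zero]
      have := hcd a h1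
      omega
    · exact hv a h0
  have hz := S.weak i hi2 _ hwH hw
  have hz' : c *ᵥ (((S.N : K)) • (L ^ r *ᵥ v)) = v := (sub_eq_zero.1 hz).symm
  have hNc : ((S.N : ℚ)) • c = ((S.N : K)) • c := by
    rw [Nat.cast_smul_eq_nsmul, Nat.cast_smul_eq_nsmul]
  rw [hNc, Matrix.smul_mulVec, ← Matrix.mulVec_smul]
  exact hz'

end Pool.Agent.H64.CC
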