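import Mathlib
import Pool.Agent.H64.CC.Core
import Pool.Agent.H42.CB.TRC

/-!
# The trace argument for complete intersections (after H42/CB/TRC)
-/

set_option autoImplicit false

open Matrix
open scoped Kronecker

namespace Pool.Agent.H64.CC

open Pool.Agent.H42.CB (trace_ne trace_kron_right trace_kron_left trace_two mul_diag_right
  mul_diag_left)

variable {K : Type} [Field K] [CharZero K]

theorem pow_mem (W : Theory K) {n : ℕ} (X : W.Var n) {L : Matrix (Fin (W.rk X)) (Fin (W.rk X)) K}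
    (hL : L ∈ W.cyc X X 1) (k : ℕ) : L ^ k ∈ W.cyc X X k := by
  induction k with
  | zero => simpa using W.one_mem X
  | succ k ih =>
    have := W.mul_mem X X X 1 k L hL (L ^ k) ih
    rw [pow_succ]
    have e1 : (1 : ℤ) + (k : ℤ) = ((k + 1 : ℕ) : ℤ) := by push_cast; ring
    rwa [e1] at this

theorem pow_kron_left {m : ℕ} (L : Matrix (Fin m) (Fin m) K) (a : ℕ) :
    (L ⊗ₖ (1 : Matrix (Fin m) (Fin m) K)) ^ a = (L ^ a) ⊗ₖ 1 := by
  induction a with
  | zero => rw [pow_zero, pow_zero, Matrix.one_kronecker_one]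
  | succ a ih => rw [pow_succ, ih, ← Matrix.mul_kronecker_mul, one_mul, pow_succ]

theorem pow_kron_right {m : ℕ} (L : Matrix (Fin m) (Fin m) K) (a : ℕ) :
    ((1 : Matrix (Fin m) (Fin m) K) ⊗ₖ L) ^ a = 1 ⊗ₖ (L ^ a) := by
  induction a with
  | zero => rw [pow_zero, pow_zero, Matrix.one_kronecker_one]
  | succ a ih => rw [pow_succ, ih, ← Matrix.mul_kronecker_mul, one_mul, pow_succ]

theorem trc (W : Theory K) (Z : W.Var 0) (L : Matrix (Fin (W.rk Z)) (Fin (W.rk Z)) K)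
    (hL : L ∈ W.cyc Z Z 1) (i r n' : ℕ) (hr : r + 1 = 2 * n')
    (c : Matrix (Fin (W.rk (W.prod Z Z))) (Fin (W.rk (W.prod Z Z))) K)
    (hc : c ∈ W.cyc (W.prod Z Z) (W.prod Z Z) (-(r : ℤ)))
    (hinv : ∀ v, W.InH (W.prod Z Z) (2 * i) v → c *ᵥ (W.sq Z L ^ r *ᵥ v) = v)
    (e : Matrix (Fin (W.rk Z)) (Fin (W.rk Z)) K) (he : e ∈ W.cyc Z Z 0) (hee : e * e = e)
    (hne : e ≠ 0) (hpe : W.pj Z i * e = e) (hep : e * W.pj Z i = e) :
    ∃ α ∈ W.cyc Z Z (-(n' : ℤ)), (α * L ^ n' * e).trace ≠ 0 := by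
  obtain ⟨P, hP⟩ : ∃ P, P = W.pr Z Z := ⟨_, rfl⟩
  -- external products
  obtain ⟨kr, hkr⟩ : ∃ kr : Matrix (Fin (W.rk Z)) (Fin (W.rk Z)) K →
      Matrix (Fin (W.rk Z)) (Fin (W.rk Z)) K →
      Matrix (Fin (W.rk (W.prod Z Z))) (Fin (W.rk (W.prod Z Z))) K,
      kr = fun f g => (f ⊗ₖ g).submatrix P.symm P.symm := ⟨_, rfl⟩
  have hkr1 : ∀ f g, kr f g = Matrix.of fun b a =>
      f ((W.pr Z Z).symm b).1 ((W.pr Z Z).symm a).1 *
        g ((W.pr Z Z).symm b).2 ((W.pr Z Z).symm a).2 := by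
    intro f g
    rw [hkr, hP]
    rfl
  have hkr2 : ∀ f g, (kr f g).submatrix P P = f ⊗ₖ g := by
    intro f g
    rw [hkr]
    ext a b
    simp
  have hsub : ∀ A B : Matrix (Fin (W.rk (W.prod Z Z))) (Fin (W.rk (W.prod Z Z))) K,
      (A * B).submatrix P P = A.submatrix P P * B.submatrix P P := fun A B => by
    rw [Matrix.submatrix_mul_equiv]
  have hsq : (W.sq Z L).submatrix P P = L ⊗ₖ 1 + 1 ⊗ₖ L := by
    have h1 : W.sq Z L = kr L 1 + kr 1 L := by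
      rw [hkr1, hkr1]
      rfl
    rw [h1, Matrix.submatrix_add, Pi.add_apply, Pi.add_apply, hkr2, hkr2]
  have hsqp : ∀ k : ℕ, (W.sq Z L ^ k).submatrix P P = (L ⊗ₖ 1 + 1 ⊗ₖ L) ^ k := by
    intro k
    induction k with
    | zero => rw [pow_zero, pow_zero, Matrix.submatrix_one_equiv]
    | succ k ih => rw [pow_succ, pow_succ, hsub, ih, hsq]
  have he1 : ∀ b a, e b a ≠ 0 → W.deg Z b = i := by
    intro b a hba
    by_contra hcon
    apply hba
    have h1 := congrFun (congrFun hpe b) a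
    unfold Theory.pj at h1
    rw [Matrix.diagonal_mul, if_neg hcon, zero_mul] at h1
    exact h1.symm
  obtain ⟨N, hN⟩ : ∃ N, N = kr e e := ⟨_, rfl⟩
  have hNdeg : ∀ b a, N b a ≠ 0 → W.deg (W.prod Z Z) b = 2 * i := by
    intro b a hba
    rw [hN, hkr1, Matrix.of_apply] at hba
    obtain ⟨⟨b1, b2⟩, rfl⟩ := (W.pr Z Z).surjective b
    rw [Equiv.symm_apply_apply] at hba
    rw [W.deg_prod, he1 _ _ (left_ne_zero_of_mul hba), he1 _ _ (right_ne_zero_of_mul hba)]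
    ring
  have hcN : c * (W.sq Z L ^ r * N) = N := by
    have h1 : ∀ w, c *ᵥ (W.sq Z L ^ r *ᵥ (N *ᵥ w)) = N *ᵥ w := by
      intro w
      apply hinv
      intro b hb
      by_contra hcon
      apply hb
      change ∑ a, N b a * w a = 0
      refine Finset.sum_eq_zero fun a _ => ?_
      by_cases h0 : N b a = 0
      · rw [h0, zero_mul]
      · exact absurd (hNdeg b a h0) hcon
    ext b a
    have h2 := congrFun (h1 (Pi.single a 1)) b
    rw [Matrix.mulVec_mulVec, Matrix.mulVec_mulVec, Matrix.mulVec_single_one,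
      Matrix.mulVec_single_one, mul_assoc] at h2
    exact h2
  obtain ⟨c', hc'⟩ : ∃ c', c' = c.submatrix P P := ⟨_, rfl⟩
  have hmain : (e ⊗ₖ e) * c' * ((L ⊗ₖ 1 + 1 ⊗ₖ L) ^ r * (e ⊗ₖ e)) = e ⊗ₖ e := by
    have h1 := congrArg (fun M => (N * M).submatrix P P) hcN
    simp only [hsub] at h1
    rw [hsqp, hN, hkr2, ← hc'] at h1
    rw [Matrix.mul_assoc, h1, ← Matrix.mul_kronecker_mul, hee]
  have htr : (e ⊗ₖ e).trace ≠ 0 := by
    rw [Matrix.trace_kronecker]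
    exact mul_ne_zero (trace_ne hee hne) (trace_ne hee hne)
  have hN0 : N ∈ W.cyc (W.prod Z Z) (W.prod Z Z) 0 := by
    have := W.kron_mem Z Z Z Z 0 0 e he e he
    rw [hN, hkr1]
    simpa using this
  have hNc : N * c ∈ W.cyc (W.prod Z Z) (W.prod Z Z) (-(r : ℤ)) := by
    have := W.mul_mem _ _ _ (-(r : ℤ)) 0 c hc N hN0
    simpa using this
  -- the binomial expansion
  have hbin : (L ⊗ₖ (1 : Matrix (Fin (W.rk Z)) (Fin (W.rk Z)) K) + 1 ⊗ₖ L) ^ r =
      ∑ a ∈ Finset.range (r + 1), ((L ^ a) ⊗ₖ (L ^ (r - a))) * (r.choose a : Matrix _ _ K) := by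
    have hcomm : Commute (L ⊗ₖ (1 : Matrix (Fin (W.rk Z)) (Fin (W.rk Z)) K)) (1 ⊗ₖ L) := by
      rw [Commute, SemiconjBy, ← Matrix.mul_kronecker_mul, ← Matrix.mul_kronecker_mul]
      simp
    rw [hcomm.add_pow]
    refine Finset.sum_congr rfl fun a _ => ?_
    rw [pow_kron_left, pow_kron_right, ← Matrix.mul_kronecker_mul, mul_one, one_mul]
  have hex : ∃ a ∈ Finset.range (r + 1),
      ((e ⊗ₖ e) * c' * (((L ^ a) ⊗ₖ (L ^ (r - a))) * (e ⊗ₖ e))).trace ≠ 0 := by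
    by_contra hcon
    push Not at hcon
    apply htr
    rw [← hmain, hbin, Finset.sum_mul, Finset.mul_sum, Matrix.trace_sum]
    refine Finset.sum_eq_zero fun a ha => ?_
    have h1 : (e ⊗ₖ e) * c' * ((((L ^ a) ⊗ₖ (L ^ (r - a))) * (r.choose a : Matrix _ _ K)) *
        (e ⊗ₖ e)) = (r.choose a : K) •
          ((e ⊗ₖ e) * c' * (((L ^ a) ⊗ₖ (L ^ (r - a))) * (e ⊗ₖ e))) := by
      rw [← nsmul_eq_mul', Matrix.smul_mul, Matrix.mul_smul, Nat.cast_smul_eq_nsmul]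
    rw [h1, Matrix.trace_smul, hcon a ha, smul_zero]
  obtain ⟨a, ha, hatr⟩ := hex
  obtain ⟨b, hb⟩ : ∃ b, b = r - a := ⟨_, rfl⟩
  rw [← hb] at hatr
  have hab : a + b = r := by rw [Finset.mem_range] at ha; omega
  have hpj : W.pj Z i = Matrix.diagonal fun a => if W.deg Z a = i then (1 : K) else 0 := rfl
  have hLe : ∀ k : ℕ, L ^ k * e ∈ W.cyc Z Z k := by
    intro k
    have := W.mul_mem Z Z Z 0 k e he (L ^ k) (pow_mem W Z hL k)
    simpa using this
  have hLep : ∀ k : ℕ, L ^ k * e * W.pj Z i = L ^ k * e := by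
    intro k
    rw [mul_assoc, hep]
  rcases Nat.lt_or_ge a n' with hlt | hge
  · -- second factor
    have hbn : n' ≤ b := by omega
    obtain ⟨D, hD⟩ : ∃ D, D = N * c * kr (L ^ a * e) 1 := ⟨_, rfl⟩
    have hDm : D ∈ W.cyc (W.prod Z Z) (W.prod Z Z) (-(b : ℤ)) := by
      have h1 := W.kron_mem Z Z Z Z a 0 _ (hLe a) 1 (W.one_mem Z)
      have h2 := W.mul_mem _ _ _ ((a : ℤ) + 0) (-(r : ℤ)) _ h1 _ hNc
      rw [hD, hkr1]
      have e1 : (a : ℤ) + 0 + -(r : ℤ) = -(b : ℤ) := by omega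
      rwa [e1] at h2
    have hD' : D.submatrix P P = (e ⊗ₖ e) * c' * ((L ^ a * e) ⊗ₖ 1) := by
      rw [hD, hsub, hsub, hN, hkr2, hkr2, hc']
    have hDp : D.submatrix P P * (W.pj Z i ⊗ₖ (1 : Matrix (Fin (W.rk Z)) (Fin (W.rk Z)) K)) =
        D.submatrix P P := by
      rw [hD', Matrix.mul_assoc, ← Matrix.mul_kronecker_mul, hLep, one_mul]
    rw [hpj] at hDp
    have hsplit : (D.submatrix P P * (1 ⊗ₖ (L ^ b * e))).trace ≠ 0 := by
      have h1 : (L ^ a * e) ⊗ₖ (1 : Matrix (Fin (W.rk Z)) (Fin (W.rk Z)) K) *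
          (1 ⊗ₖ (L ^ b * e)) = ((L ^ a) ⊗ₖ (L ^ b)) * (e ⊗ₖ e) := by
        rw [← Matrix.mul_kronecker_mul, ← Matrix.mul_kronecker_mul, one_mul, mul_one]
      rw [hD', Matrix.mul_assoc, h1]
      exact hatr
    rw [trace_kron_left] at hsplit
    have h3 : ∀ b' a', (∑ x, (-1 : K) ^ W.deg Z x * D (W.pr Z Z (x, b')) (W.pr Z Z (x, a'))) =
        (-1) ^ i * ∑ x, D.submatrix P P (x, b') (x, a') := by
      intro b' a'
      rw [Finset.mul_sum]
      refine Finset.sum_congr rfl fun x _ => ?_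
      rw [Matrix.submatrix_apply, hP]
      by_cases hx : W.deg Z x = i
      · rw [hx]
      · have h4 := mul_diag_left hDp (x, b') x a'
        rw [if_neg hx, mul_zero, Matrix.submatrix_apply, hP] at h4
        rw [h4, mul_zero, mul_zero]
    have hR := W.ptr_left Z Z Z (-(b : ℤ)) D hDm
    obtain ⟨R, hRd⟩ : ∃ R : Matrix (Fin (W.rk Z)) (Fin (W.rk Z)) K, R = (Matrix.of fun b a =>
      ∑ x, (-1 : K) ^ W.deg Z x * D (W.pr Z Z (x, b)) (W.pr Z Z (x, a))) := ⟨_, rfl⟩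
    rw [← hRd] at hR
    have hRt : (R * (L ^ b * e)).trace ≠ 0 := by
      rw [trace_two, hRd]
      simp only [Matrix.of_apply, h3, mul_assoc]
      simp only [← Finset.mul_sum]
      exact mul_ne_zero (pow_ne_zero _ (neg_ne_zero.2 one_ne_zero)) hsplit
    refine ⟨R * L ^ (b - n'), ?_, ?_⟩
    · have h1 := W.mul_mem Z Z Z _ _ _ (pow_mem W Z hL (b - n')) R hR
      have e1 : ((b - n' : ℕ) : ℤ) + -(b : ℤ) = -(n' : ℤ) := by omega
      rwa [e1] at h1
    · have e1 : R * L ^ (b - n') * L ^ n' * e = R * (L ^ b * e) := by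
        rw [mul_assoc R, ← pow_add, Nat.sub_add_cancel hbn, mul_assoc]
      rw [e1]
      exact hRt
  · -- first factor
    obtain ⟨D, hD⟩ : ∃ D, D = N * c * kr 1 (L ^ b * e) := ⟨_, rfl⟩
    have hDm : D ∈ W.cyc (W.prod Z Z) (W.prod Z Z) (-(a : ℤ)) := by
      have h1 := W.kron_mem Z Z Z Z 0 b 1 (W.one_mem Z) _ (hLe b)
      have h2 := W.mul_mem _ _ _ (0 + (b : ℤ)) (-(r : ℤ)) _ h1 _ hNc
      rw [hD, hkr1]
      have e1 : 0 + (b : ℤ) + -(r : ℤ) = -(a : ℤ) := by omega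
      rwa [e1] at h2
    have hD' : D.submatrix P P = (e ⊗ₖ e) * c' * (1 ⊗ₖ (L ^ b * e)) := by
      rw [hD, hsub, hsub, hN, hkr2, hkr2, hc']
    have hDp : D.submatrix P P * ((1 : Matrix (Fin (W.rk Z)) (Fin (W.rk Z)) K) ⊗ₖ W.pj Z i) =
        D.submatrix P P := by
      rw [hD', Matrix.mul_assoc, ← Matrix.mul_kronecker_mul, hLep, one_mul]
    rw [hpj] at hDp
    have hsplit : (D.submatrix P P * ((L ^ a * e) ⊗ₖ 1)).trace ≠ 0 := by
      have h1 : (1 : Matrix (Fin (W.rk Z)) (Fin (W.rk Z)) K) ⊗ₖ (L ^ b * e) *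
          ((L ^ a * e) ⊗ₖ 1) = ((L ^ a) ⊗ₖ (L ^ b)) * (e ⊗ₖ e) := by
        rw [← Matrix.mul_kronecker_mul, ← Matrix.mul_kronecker_mul, one_mul, mul_one]
      rw [hD', Matrix.mul_assoc, h1]
      exact hatr
    rw [trace_kron_right] at hsplit
    have h3 : ∀ b' a', (∑ y, (-1 : K) ^ W.deg Z y * D (W.pr Z Z (b', y)) (W.pr Z Z (a', y))) =
        (-1) ^ i * ∑ y, D.submatrix P P (b', y) (a', y) := by
      intro b' a'
      rw [Finset.mul_sum]
      refine Finset.sum_congr rfl fun y _ => ?_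
      rw [Matrix.submatrix_apply, hP]
      by_cases hx : W.deg Z y = i
      · rw [hx]
      · have h4 := mul_diag_right hDp (b', y) a' y
        rw [if_neg hx, mul_zero, Matrix.submatrix_apply, hP] at h4
        rw [h4, mul_zero, mul_zero]
    have hR := W.ptr_right Z Z Z (-(a : ℤ)) D hDm
    obtain ⟨R, hRd⟩ : ∃ R : Matrix (Fin (W.rk Z)) (Fin (W.rk Z)) K, R = (Matrix.of fun b a =>
      ∑ y, (-1 : K) ^ W.deg Z y * D (W.pr Z Z (b, y)) (W.pr Z Z (a, y))) := ⟨_, rfl⟩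
    rw [← hRd] at hR
    have hRt : (R * (L ^ a * e)).trace ≠ 0 := by
      rw [trace_two, hRd]
      simp only [Matrix.of_apply, h3, mul_assoc]
      simp only [← Finset.mul_sum]
      exact mul_ne_zero (pow_ne_zero _ (neg_ne_zero.2 one_ne_zero)) hsplit
    refine ⟨R * L ^ (a - n'), ?_, ?_⟩
    · have h1 := W.mul_mem Z Z Z _ _ _ (pow_mem W Z hL (a - n')) R hR
      have e1 : ((a - n' : ℕ) : ℤ) + -(a : ℤ) = -(n' : ℤ) := by omega
      rwa [e1] at h1
    · have e1 : R * L ^ (a - n') * L ^ n' * e = R * (L ^ a * e) := by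
        rw [mul_assoc R, ← pow_add, Nat.sub_add_cancel hge, mul_assoc]
      rw [e1]
      exact hRt

end Pool.Agent.H64.CC
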