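import Mathlib
import Pool.Agent.H64.CC.Core

/-!
# Tools (after H64/CB/Asm and H64/CB/Num)
-/

set_option autoImplicit false

open Matrix

namespace Pool.Agent.H64.CC

variable {K : Type} [Field K] [CharZero K]

theorem cplus_of_c (W : Theory K) {n : ℕ} (X : W.Var n) (h : W.C X) : W.Cplus X := by
  have key : W.even X = ∑ i ∈ (Finset.range (2 * W.dim X + 1)).filter (fun i => Even i),
      W.pj X i := by
    ext a b
    rw [Matrix.sum_apply]
    by_cases hab : a = b
    · subst hab
      simp only [Theory.even, Theory.pj, Matrix.diagonal_apply_eq]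
      rw [Finset.sum_ite_eq]
      by_cases he : Even (W.deg X a)
      · rw [if_pos he, if_pos]
        rw [Finset.mem_filter, Finset.mem_range]
        exact ⟨Nat.lt_succ_of_le (W.deg_le X a), he⟩
      · rw [if_neg he, if_neg]
        rw [Finset.mem_filter]
        exact fun h => he h.2
    · simp only [Theory.even, Theory.pj, Matrix.diagonal_apply_ne _ hab]
      simp
  rw [Theory.Cplus, key]
  exact Submodule.sum_mem _ fun i _ => h i

theorem pj_apply (W : Theory K) {n : ℕ} (X : W.Var n) (i : ℕ) (a b : Fin (W.rk X)) :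
    W.pj X i a b = if a = b ∧ W.deg X a = i then 1 else 0 := by
  by_cases hab : a = b
  · subst hab
    simp [Theory.pj, Matrix.diagonal_apply_eq]
  · simp [Theory.pj, hab]

theorem pj_mul (W : Theory K) {n : ℕ} (X : W.Var n) (i : ℕ) :
    W.pj X i * W.pj X i = W.pj X i := by
  rw [Theory.pj, Matrix.diagonal_mul_diagonal]
  congr 1
  ext a
  split_ifs <;> simp

theorem mul_pj_apply (W : Theory K) {n : ℕ} (X : W.Var n) (i : ℕ)
    (x : Matrix (Fin (W.rk X)) (Fin (W.rk X)) K) (a b : Fin (W.rk X)) :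
    (x * W.pj X i) a b = if W.deg X b = i then x a b else 0 := by
  rw [Theory.pj, Matrix.mul_diagonal]
  split_ifs <;> simp

theorem rat_trace (W : Theory K) {n : ℕ} (X : W.Var n) (i : ℕ)
    (x : Matrix (Fin (W.rk X)) (Fin (W.rk X)) K) (hx : x ∈ W.cyc X X 0)
    (h : x * W.pj X i = x) : ∃ q : ℚ, x.trace = (q : K) := by
  obtain ⟨q, hq⟩ := W.trace_formula X x hx
  have key : ∑ a, (-1 : K) ^ W.deg X a * x a a = (-1) ^ i * x.trace := by
    rw [Matrix.trace, Finset.mul_sum]
    refine Finset.sum_congr rfl fun a _ => ?_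
    rw [Matrix.diag_apply]
    by_cases ha : W.deg X a = i
    · rw [ha]
    · have : x a a = 0 := by
        rw [← h, mul_pj_apply, if_neg ha]
      rw [this, mul_zero, mul_zero]
  rw [key] at hq
  refine ⟨(-1) ^ i * q, ?_⟩
  push_cast
  rw [← hq, ← mul_assoc, ← mul_pow]
  norm_num

theorem trace_idem_ne {m : ℕ} (e : Matrix (Fin m) (Fin m) K) (h : e * e = e) (h0 : e ≠ 0) :
    e.trace ≠ 0 := by
  have h1 : IsIdempotentElem (Matrix.toLin' e) := by
    change Matrix.toLin' e * Matrix.toLin' e = _
    rw [Module.End.mul_eq_comp, ← Matrix.toLin'_mul, h]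
  intro h2
  apply h0
  have h3 : Matrix.toLin' e = 0 := by
    apply LinearMap.IsIdempotentElem.eq_zero_of_trace_eq_zero h1
    rw [Matrix.trace_toLin'_eq, h2]
  exact (LinearEquiv.map_eq_zero_iff Matrix.toLin').1 h3

end Pool.Agent.H64.CC
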