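import Mathlib
import Pool.Agent.H64.CC.Tools
import Pool.Agent.H64.CC.LEM
import Pool.Agent.H64.CC.SEC
import Pool.Agent.H64.CC.SPL
import Pool.Agent.H64.CC.TRC
import Pool.Agent.H14.CB.RAT
import Pool.Agent.H56.CB.FIT

/-!
# One variety and one degree
-/

set_option autoImplicit false

open Matrix

namespace Pool.Agent.H64.CC

open Pool.Agent.H64.CB (T_RAT T_FIT)

theorem tRAT : T_RAT := Pool.Agent.H14.CB.pf_RAT

theorem tFIT : T_FIT := Pool.Agent.H56.CB.pf_FIT tRAT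

variable {K : Type} [Field K] [CharZero K]

/-- `L` has the inverse in degree `i` -/
def Inv (W : Theory K) {n : ℕ} (X : W.Var n) (i : ℕ) (L : Matrix (Fin (W.rk X)) (Fin (W.rk X)) K) :
    Prop :=
  ∃ θ ∈ W.cyc X X ((i : ℤ) - W.dim X), θ * L ^ (W.dim X - i) * W.pj X i = W.pj X i

/-- the Lefschetz conjecture in degree `i`, for all ample classes -/
def BDeg (W : Theory K) {n : ℕ} (X : W.Var n) (i : ℕ) : Prop := ∀ L ∈ W.Lef X, Inv W X i L

/-- `C⁺(T)` for one generic complete intersection `T` of dimension `2i + 1` in `Z × Z` -/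
def SignSquare (W : Theory K) (Z : W.Var 0) (i : ℕ) : Prop :=
  ∃ L ∈ W.Lef Z, ∃ (m : ℕ) (T : W.Var m),
    Nonempty (W.GenericSection (W.prod Z Z) (W.sq Z L) (2 * (W.dim Z - i) - 1) T) ∧ W.Cplus T

/-- `L ^ (d - i)` is not numerically trivial on the algebraic idempotents of `Hⁱ(Z)` -/
def Nontriv (W : Theory K) (Z : W.Var 0) (i : ℕ) : Prop :=
  ∃ L ∈ W.Lef Z, ∀ e ∈ W.cyc Z Z 0, e * e = e → e ≠ 0 → W.pj Z i * e = e → e * W.pj Z i = e →
    ∃ α ∈ W.cyc Z Z ((i : ℤ) - W.dim Z), (α * L ^ (W.dim Z - i) * e).trace ≠ 0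

theorem aeval_cyc (W : Theory K) {n : ℕ} (X : W.Var n) {x : Matrix (Fin (W.rk X)) (Fin (W.rk X)) K}
    (hx : x ∈ W.cyc X X 0) (g : Polynomial ℚ) : Polynomial.aeval x g ∈ W.cyc X X 0 := by
  induction g using Polynomial.induction_on' with
  | add p q hp hq =>
    rw [map_add]
    exact Submodule.add_mem _ hp hq
  | monomial k q =>
    rw [Polynomial.aeval_monomial, Algebra.algebraMap_eq_smul_one, smul_mul_assoc, one_mul]
    exact Submodule.smul_mem _ q (LEM.pow_mem0 hx k)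

theorem mul_mem0 (W : Theory K) {n : ℕ} (X : W.Var n) {r : ℤ}
    {x y : Matrix (Fin (W.rk X)) (Fin (W.rk X)) K}
    (hx : x ∈ W.cyc X X r) (hy : y ∈ W.cyc X X 0) : y * x ∈ W.cyc X X r := by
  have := W.mul_mem X X X r 0 x hx y hy
  rwa [add_zero] at this

/-- the inverse does not depend on the ample class -/
theorem inv_change (W : Theory K) (Z : W.Var 0) {i : ℕ} (hi : i ≤ W.dim Z)
    {L L' : Matrix (Fin (W.rk Z)) (Fin (W.rk Z)) K} (hL : L ∈ W.Lef Z) (hL' : L' ∈ W.Lef Z)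
    (h : Inv W Z i L) : Inv W Z i L' := by
  obtain ⟨θ, hθ, hθ1⟩ := h
  obtain ⟨k, hk⟩ : ∃ k, k = W.dim Z - i := ⟨_, rfl⟩
  rw [← hk] at hθ1
  have hpp := pj_mul W Z i
  have hinj' := W.hard_inj Z L' hL' i hi
  have hsurj := W.hard_surj Z L hL i hi
  rw [← hk] at hinj' hsurj
  obtain ⟨x, hx⟩ : ∃ x, x = θ * L' ^ k * W.pj Z i := ⟨_, rfl⟩
  have hxm : x ∈ W.cyc Z Z 0 := by
    have h1 := W.mul_mem Z Z Z _ _ _ (W.kunneth Z i) _ (pow_mem W Z (W.Lef_mem Z L' hL') k)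
    have h2 := W.mul_mem Z Z Z _ _ _ h1 θ hθ
    have e1 : (0 : ℤ) + (k : ℤ) + ((i : ℤ) - W.dim Z) = 0 := by omega
    change θ * (L' ^ k * W.pj Z i) ∈ _ at h2
    rwa [e1, ← mul_assoc, ← hx] at h2
  have hxp : x * W.pj Z i = x := by rw [hx, mul_assoc, hpp]
  have hxd : ∀ v, W.InH Z i v → W.InH Z i (x *ᵥ v) := by
    intro v hv
    have h1 := LEM.HD.act hxm ((LEM.inH_iff i v).1 hv)
    rw [LEM.inH_iff]
    simpa using h1
  have hxi : ∀ v, W.InH Z i v → x *ᵥ v = 0 → v = 0 := by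
    intro v hv h0
    have hpv : W.pj Z i *ᵥ v = v := LEM.pj_of_HD ((LEM.inH_iff i v).1 hv)
    have h1 : x *ᵥ v = θ *ᵥ (L' ^ k *ᵥ v) := by
      rw [hx, ← Matrix.mulVec_mulVec, ← Matrix.mulVec_mulVec, hpv]
    have hw : W.InH Z (2 * W.dim Z - i) (L' ^ k *ᵥ v) := by
      have h2 := LEM.HD.act (pow_mem W Z (W.Lef_mem Z L' hL') k) ((LEM.inH_iff i v).1 hv)
      rw [LEM.inH_iff]
      have e1 : (i : ℤ) + 2 * (k : ℤ) = ((2 * W.dim Z - i : ℕ) : ℤ) := by omega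
      rwa [e1] at h2
    obtain ⟨u, hu1, hu2⟩ := hsurj (L' ^ k *ᵥ v) (by
      intro a ha
      have := hw a ha
      omega)
    have hpu : W.pj Z i *ᵥ u = u := LEM.pj_of_HD ((LEM.inH_iff i u).1 hu1)
    have h3 : θ *ᵥ (L ^ k *ᵥ u) = u := by
      have h4 := congrArg (fun A : Matrix (Fin (W.rk Z)) (Fin (W.rk Z)) K => A *ᵥ u) hθ1
      beta_reduce at h4
      rwa [← Matrix.mulVec_mulVec, ← Matrix.mulVec_mulVec, hpu] at h4
    rw [h1, ← hu2, h3] at h0
    rw [h0, Matrix.mulVec_zero] at hu2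
    exact hinj' v hv hu2.symm
  obtain ⟨g, a, hg⟩ := tRAT K (W.rk Z) x (fun j => by
    refine rat_trace W Z i (x ^ (j + 1)) (LEM.pow_mem0 hxm _) ?_
    rw [pow_succ, mul_assoc, hxp])
  have hpx : W.pj Z i * x = x := by
    ext b c
    by_cases hxbc : x b c = 0
    · rw [Theory.pj, Matrix.diagonal_mul, hxbc, mul_zero]
    · have h1 : W.deg Z c = i := by
        by_contra hne
        apply hxbc
        rw [← hxp, mul_pj_apply, if_neg hne]
      have h2 := W.cyc_deg Z Z 0 x hxm b c hxbc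
      rw [Theory.pj, Matrix.diagonal_mul, if_pos (by omega), one_mul]
  have hpowi : ∀ (j : ℕ) (v), W.InH Z i v → x ^ j *ᵥ v = 0 → v = 0 := by
    intro j
    induction j with
    | zero => intro v _ h0; simpa using h0
    | succ j ih =>
      intro v hv h0
      rw [pow_succ, ← Matrix.mulVec_mulVec] at h0
      exact hxi v hv (ih _ (hxd v hv) h0)
  have hcomm : x * Polynomial.aeval x g = Polynomial.aeval x g * x := by
    have h1 : Polynomial.aeval x (Polynomial.X * g) = x * Polynomial.aeval x g := by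
      rw [map_mul, Polynomial.aeval_X]
    have h2 : Polynomial.aeval x (g * Polynomial.X) = Polynomial.aeval x g * x := by
      rw [map_mul, Polynomial.aeval_X]
    rw [← h1, ← h2, mul_comm]
  have hone : (1 - x * Polynomial.aeval x g) * W.pj Z i = 0 := by
    have h1 : W.pj Z i * ((1 - x * Polynomial.aeval x g) * W.pj Z i) =
        (1 - x * Polynomial.aeval x g) * W.pj Z i := by
      rw [← mul_assoc, mul_sub, mul_one, ← mul_assoc, hpx, sub_mul, hpp, sub_mul, one_mul]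
    have h2 : x ^ a * ((1 - x * Polynomial.aeval x g) * W.pj Z i) = 0 := by
      rw [← mul_assoc, hg, zero_mul]
    obtain ⟨y, hy⟩ : ∃ y, y = (1 - x * Polynomial.aeval x g) * W.pj Z i := ⟨_, rfl⟩
    rw [← hy] at h1 h2 ⊢
    have h3 : ∀ v : Fin (W.rk Z) → K, y *ᵥ v = 0 := by
      intro v
      refine hpowi a (y *ᵥ v) ?_ ?_
      · rw [LEM.inH_iff, ← h1, ← Matrix.mulVec_mulVec]
        exact LEM.HD_pj i _
      · rw [Matrix.mulVec_mulVec, h2, Matrix.zero_mulVec]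
    ext b c
    have h4 := congrFun (h3 (Pi.single c 1)) b
    rwa [Matrix.mulVec_single_one] at h4
  refine ⟨Polynomial.aeval x g * θ, mul_mem0 W Z hθ (aeval_cyc W Z hxm g), ?_⟩
  rw [← hk]
  rw [sub_mul, one_mul, hcomm, mul_assoc, hxp, sub_eq_zero] at hone
  calc Polynomial.aeval x g * θ * L' ^ k * W.pj Z i
      = Polynomial.aeval x g * (θ * L' ^ k * W.pj Z i) := by simp only [mul_assoc]
    _ = Polynomial.aeval x g * x := by rw [← hx]
    _ = W.pj Z i := hone.symm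

/-- the numerical criterion -/
theorem inv_of_num (W : Theory K) (Z : W.Var 0) {i : ℕ} (hi : i ≤ W.dim Z)
    {L : Matrix (Fin (W.rk Z)) (Fin (W.rk Z)) K} (hL : L ∈ W.Lef Z)
    (h : ∀ e ∈ W.cyc Z Z 0, e * e = e → e ≠ 0 → W.pj Z i * e = e → e * W.pj Z i = e →
      ∃ α ∈ W.cyc Z Z ((i : ℤ) - W.dim Z), (α * L ^ (W.dim Z - i) * e).trace ≠ 0) :
    Inv W Z i L := by
  have e1 : (i : ℤ) - W.dim Z = -((W.dim Z - i : ℕ) : ℤ) := by omega
  unfold Inv
  rw [e1] at h ⊢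
  refine spl tFIT K (W.rk Z) _ (W.cyc Z Z) (W.pj Z i) (L ^ (W.dim Z - i))
    (fun r s f hf g hg => W.mul_mem Z Z Z r s f hf g hg)
    (W.kunneth Z i) (pj_mul W Z i) (pow_mem W Z (W.Lef_mem Z L hL) _) ?_ h
  intro x hx _ h2
  exact rat_trace W Z i x hx h2

theorem bdeg_of_nontriv (W : Theory K) (Z : W.Var 0) {i : ℕ} (hi : i ≤ W.dim Z)
    (h : Nontriv W Z i) : BDeg W Z i := by
  obtain ⟨L, hL, hn⟩ := h
  intro L' hL'
  exact inv_change W Z hi hL hL' (inv_of_num W Z hi hL hn)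

theorem nontriv_of_bdeg (W : Theory K) (Z : W.Var 0) {i : ℕ} (h : BDeg W Z i) :
    Nontriv W Z i := by
  obtain ⟨L, hL⟩ := W.Lef_nonempty Z
  obtain ⟨θ, hθ, hθ2⟩ := h L hL
  refine ⟨L, hL, fun e _ h1 h2 h3 _ => ⟨θ, hθ, ?_⟩⟩
  have e2 : θ * L ^ (W.dim Z - i) * e = e := by
    rw [← h3, ← mul_assoc, hθ2]
  rw [e2]
  exact trace_idem_ne e h1 h2

/-- the theorem for one variety and one degree -/
theorem bdeg_of_sign (W : Theory K) (Z : W.Var 0) {i : ℕ} (hi : i < W.dim Z)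
    (h : SignSquare W Z i) : BDeg W Z i := by
  obtain ⟨L, hL, m, T, hT, hC⟩ := h
  have hdim : W.dim T + (2 * (W.dim Z - i) - 1) = W.dim Z + W.dim Z := by
    obtain ⟨S⟩ := hT
    rw [S.dim_eq, W.dim_prod]
  have hdT : W.dim T = 2 * i + 1 := by omega
  obtain ⟨c, hc, hinv⟩ := sec hT (by rw [hdT]; exact ⟨i, rfl⟩) hC
  refine bdeg_of_nontriv W Z hi.le ⟨L, hL, fun e he h1 h2 h3 h4 => ?_⟩
  have h5 := trc W Z L (W.Lef_mem Z L hL) i (2 * (W.dim Z - i) - 1) (W.dim Z - i) (by omega) c hc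
    (fun v hv => hinv (2 * i) (even_two_mul i) (by omega) v hv) e he h1 h2 h3 h4
  have e1 : (i : ℤ) - W.dim Z = -((W.dim Z - i : ℕ) : ℤ) := by omega
  rwa [e1]

/-- middle degree -/
theorem bdeg_mid (W : Theory K) {n : ℕ} (X : W.Var n) : BDeg W X (W.dim X) := by
  intro L hL
  refine ⟨1, by simpa using W.one_mem X, ?_⟩
  simp

theorem b_of_bdeg (W : Theory K) {n : ℕ} (X : W.Var n) (h : ∀ i, i < W.dim X → BDeg W X i) :
    W.B X := by
  intro L hL i hi
  rcases hi.lt_or_eq with h1 | h1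
  · exact h i h1 L hL
  · subst h1
    exact bdeg_mid W X L hL

end Pool.Agent.H64.CC
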