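import Mathlib
import Pool.Agent.H64.CC.Point
import Pool.Agent.H64.CC.STP

/-!
# The sign conjecture and the Lefschetz standard conjecture: the theorem
-/

set_option autoImplicit false

open Matrix

namespace Pool.Agent.H64.CC

variable {K : Type} [Field K] [CharZero K]

theorem tSTP : T_STP := STP.pf_STP (LEM.pf_LEM tRAT)

theorem sign_of_all (W : Theory K) (hS : W.Sections) (Z : W.Var 0) (i : ℕ) (hi : i < W.dim Z)
    (h : ∀ (n : ℕ) (T : W.Var n), W.dim T = 2 * i + 1 → W.Cplus T) : SignSquare W Z i := by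
  obtain ⟨L, hL⟩ := W.Lef_nonempty Z
  obtain ⟨m, T, hT⟩ := hS (W.prod Z Z) (2 * (W.dim Z - i) - 1) (by omega)
    (by rw [W.dim_prod]; omega) (W.sq Z L) (W.Lef_prod Z Z L hL L hL)
  refine ⟨L, hL, m, T, hT, h m T ?_⟩
  obtain ⟨S⟩ := hT
  have := S.dim_eq
  rw [W.dim_prod] at this
  omega

theorem bdeg_of_dim (W : Theory K) (hS : W.Sections) (i : ℕ)
    (h : ∀ (n : ℕ) (T : W.Var n), W.dim T = 2 * i + 1 → W.Cplus T) (Z : W.Var 0)
    (hi : i ≤ W.dim Z) : BDeg W Z i := by
  rcases hi.lt_or_eq with h1 | h1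
  · exact bdeg_of_sign W Z h1 (sign_of_all W hS Z i h1 h)
  · subst h1
    exact bdeg_mid W Z

/-- the sign conjecture in bounded dimension -/
theorem graded (W : Theory K) (hS : W.Sections) (hM : W.Models) : ∀ n d : ℕ,
    (∀ (m : ℕ) (T : W.Var m), Odd (W.dim T) → W.dim T + 3 ≤ 2 ^ (n + 1) * (d + 1) → W.Cplus T) →
    ∀ X : W.Var n, W.dim X = d → W.C X ∧ W.B X := by
  intro n
  induction n with
  | zero =>
    intro d h X hX
    refine ⟨fun i => W.kunneth X i, b_of_bdeg W X fun i hi => ?_⟩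
    refine bdeg_of_dim W hS i (fun m T hT => h m T (by rw [hT]; exact ⟨i, rfl⟩) ?_) X hi.le
    rw [hT]
    omega
  | succ n ih =>
    intro d h X hX
    have hp : 2 ^ (n + 1 + 1) * (d + 1) = 2 ^ (n + 1) * (2 * d + 1 + 1) := by ring
    refine tSTP K W hM n X fun V hV => ?_
    rw [hX] at hV
    rcases hV with hV | hV
    · refine ih d (fun m T hT1 hT2 => h m T hT1 (hT2.trans ?_)) V hV
      exact Nat.mul_le_mul_right _ (Nat.pow_le_pow_right (by norm_num) (by omega))
    · refine ih (2 * d + 1) (fun m T hT1 hT2 => h m T hT1 ?_) V hV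
      rw [hp]
      exact hT2

/-- **The theorem.** -/
theorem main (W : Theory K) (hS : W.Sections) (hM : W.Models) :
    List.TFAE [
      ∀ (n : ℕ) (X : W.Var n), W.Cplus X,
      ∀ (Z : W.Var 0) (i : ℕ), i < W.dim Z → SignSquare W Z i,
      ∀ (Z : W.Var 0) (i : ℕ), i < W.dim Z → Nontriv W Z i,
      ∀ Z : W.Var 0, W.B Z,
      ∀ (n : ℕ) (X : W.Var n), W.C X ∧ W.B X] := by
  tfae_have 1 → 2 := fun h Z i hi => sign_of_all W hS Z i hi fun n T _ => h n T
  tfae_have 2 → 3 := fun h Z i hi => nontriv_of_bdeg W Z (bdeg_of_sign W Z hi (h Z i hi))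
  tfae_have 3 → 4 := fun h Z => b_of_bdeg W Z fun i hi => bdeg_of_nontriv W Z hi.le (h Z i hi)
  tfae_have 4 → 5 := by
    intro h n
    induction n with
    | zero => exact fun X => ⟨fun i => W.kunneth X i, h X⟩
    | succ n ih => exact fun X => tSTP K W hM n X fun V _ => ih V
  tfae_have 5 → 1 := fun h n X => cplus_of_c W X (h n X).1
  tfae_finish

end Pool.Agent.H64.CC
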