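import Mathlib
import Pool.Agent.H64.CC.Point
import Pool.Agent.H64.CC.STP

/-!
# The sign conjecture for one generic complete intersection
-/

set_option autoImplicit false

open Matrix

namespace Pool.Agent.H64.CC

variable {K : Type} [Field K] [CharZero K]

/-- `L ^ r` is regular in degree `j` -/
def Reg (W : Theory K) (V : W.Var 0) (L : Matrix (Fin (W.rk V)) (Fin (W.rk V)) K) (r j : ℕ) :
    Prop :=
  ∃ c ∈ W.cyc V V (-(r : ℤ)), L ^ r * c * L ^ r * W.pj V j = L ^ r * W.pj V j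

/-- `L ^ r` has an algebraic left inverse in degree `j` -/
def LI (W : Theory K) (V : W.Var 0) (L : Matrix (Fin (W.rk V)) (Fin (W.rk V)) K) (r j : ℕ) :
    Prop :=
  ∃ c ∈ W.cyc V V (-(r : ℤ)), c * L ^ r * W.pj V j = W.pj V j

/-- `L ^ r` is not numerically trivial on the algebraic idempotents of degree `j` -/
def Num (W : Theory K) (V : W.Var 0) (L : Matrix (Fin (W.rk V)) (Fin (W.rk V)) K) (r j : ℕ) :
    Prop :=
  ∀ e ∈ W.cyc V V 0, e * e = e → e ≠ 0 → W.pj V j * e = e → e * W.pj V j = e →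
    ∃ α ∈ W.cyc V V (-(r : ℤ)), (α * L ^ r * e).trace ≠ 0

/-- the projector on the sum of the cohomology groups of the degrees in `Φ` -/
noncomputable def pr' (W : Theory K) {n : ℕ} (X : W.Var n) (Φ : ℕ → Prop) :
    Matrix (Fin (W.rk X)) (Fin (W.rk X)) K := by
  classical
  exact Matrix.diagonal fun a => if Φ (W.deg X a) then 1 else 0

section basic

variable (W : Theory K) {n m : ℕ} (X : W.Var n) (Y : W.Var m)

theorem pr'_mulVec (Φ : ℕ → Prop) (v : Fin (W.rk X) → K) (a : Fin (W.rk X)) [Decidable (Φ (W.deg X a))] :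
    (pr' W X Φ *ᵥ v) a = if Φ (W.deg X a) then v a else 0 := by
  unfold pr'
  rw [Matrix.mulVec_diagonal]
  split_ifs <;> simp

theorem pr'_of {Φ : ℕ → Prop} {i : ℕ} (hi : Φ i) {v : Fin (W.rk X) → K} (hv : W.InH X i v) :
    pr' W X Φ *ᵥ v = v := by
  classical
  funext a
  rw [pr'_mulVec]
  by_cases h0 : v a = 0
  · rw [h0, ite_self]
  · rw [if_pos (by rw [hv a h0]; exact hi)]

theorem pr'_not {Φ : ℕ → Prop} {i : ℕ} (hi : ¬ Φ i) {v : Fin (W.rk X) → K} (hv : W.InH X i v) :
    pr' W X Φ *ᵥ v = 0 := by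
  classical
  funext a
  rw [pr'_mulVec]
  by_cases h0 : v a = 0
  · rw [h0, ite_self]
    rfl
  · rw [if_neg (by rw [hv a h0]; exact hi)]
    rfl

/-- the basis vectors are homogeneous -/
theorem inH_single (a : Fin (W.rk X)) : W.InH X (W.deg X a) (Pi.single a (1 : K)) := by
  intro b hb
  by_cases hab : b = a
  · rw [hab]
  · rw [Pi.single_eq_of_ne hab] at hb
    exact absurd rfl hb

/-- a matrix is determined by its values on homogeneous vectors -/
theorem mat_ext {f g : Matrix (Fin (W.rk Y)) (Fin (W.rk X)) K}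
    (h : ∀ i v, W.InH X i v → f *ᵥ v = g *ᵥ v) : f = g := by
  refine Matrix.ext_of_mulVec_single fun a => ?_
  exact h _ _ (inH_single W X a)

theorem inH_mulVec {r : ℤ} {f : Matrix (Fin (W.rk Y)) (Fin (W.rk X)) K} (hf : W.HasDeg X Y r f)
    {i j : ℕ} (hij : (j : ℤ) = i + 2 * r) {v : Fin (W.rk X) → K} (hv : W.InH X i v) :
    W.InH Y j (f *ᵥ v) := by
  intro b hb
  have := deg_mulVec (W := W) (X := X) (Y := Y) hf (i := i) (fun a ha => by exact_mod_cast hv a ha) b hb
  omega

theorem zero_mulVec {r : ℤ} {f : Matrix (Fin (W.rk Y)) (Fin (W.rk X)) K} (hf : W.HasDeg X Y r f)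
    {i : ℕ} (hij : (i : ℤ) + 2 * r < 0 ∨ 2 * (W.dim Y : ℤ) < (i : ℤ) + 2 * r)
    {v : Fin (W.rk X) → K} (hv : W.InH X i v) : f *ᵥ v = 0 := by
  funext b
  by_contra hb
  have h1 := deg_mulVec (W := W) (X := X) (Y := Y) hf (i := i)
    (fun a ha => by exact_mod_cast hv a ha) b hb
  have h2 := W.deg_le Y b
  omega

theorem pj_of {i : ℕ} {v : Fin (W.rk X) → K} (hv : W.InH X i v) : W.pj X i *ᵥ v = v :=
  STP.pj_mulVec W hv

theorem pj_not {i j : ℕ} (hij : i ≠ j) {v : Fin (W.rk X) → K} (hv : W.InH X i v) :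
    W.pj X j *ᵥ v = 0 := by
  funext a
  unfold Theory.pj
  rw [Matrix.mulVec_diagonal]
  by_cases h0 : v a = 0
  · rw [h0, mul_zero]
    rfl
  · rw [if_neg (by rw [hv a h0]; exact hij), zero_mul]
    rfl

theorem pj_inH (i : ℕ) (v : Fin (W.rk X) → K) : W.InH X i (W.pj X i *ᵥ v) := STP.inH_pj W X i v

end basic

section GI

variable {W : Theory K} {V : W.Var 0} {L : Matrix (Fin (W.rk V)) (Fin (W.rk V)) K} {r m : ℕ}
  {T : W.Var m} (S : W.GenericSection V L r T)

theorem pow_deg {n : ℕ} (X : W.Var n) {M : Matrix (Fin (W.rk X)) (Fin (W.rk X)) K}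
    (hM : M ∈ W.cyc X X 1) (k : ℕ) : W.HasDeg X X k (M ^ k) := by
  exact W.cyc_deg X X k _ (pow_mem W X hM k)

/-- hard Lefschetz, consequence: `L ^ r` is injective on `H^j`, `j + r ≤ d` -/
theorem inj_pow {n : ℕ} (X : W.Var n) {M : Matrix (Fin (W.rk X)) (Fin (W.rk X)) K}
    (hM : M ∈ W.Lef X) {j k : ℕ} (hj : j + k ≤ W.dim X) {v : Fin (W.rk X) → K}
    (hv : W.InH X j v) (h0 : M ^ k *ᵥ v = 0) : v = 0 := by
  refine W.hard_inj X M hM j (by omega) v hv ?_
  obtain ⟨l, hl⟩ : ∃ l, W.dim X - j = l + k := ⟨W.dim X - j - k, by omega⟩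
  rw [hl, pow_add, ← Matrix.mulVec_mulVec, h0, Matrix.mulVec_zero]

/-- hard Lefschetz, consequence: `L ^ r` maps `H^j` onto `H^(j + 2r)`, `j + r ≥ d` -/
theorem surj_pow {n : ℕ} (X : W.Var n) {M : Matrix (Fin (W.rk X)) (Fin (W.rk X)) K}
    (hM : M ∈ W.Lef X) {j k : ℕ} (hj : W.dim X ≤ j + k) {v : Fin (W.rk X) → K}
    (hv : W.InH X (j + 2 * k) v) : ∃ u, W.InH X j u ∧ M ^ k *ᵥ u = v := by
  by_cases hbig : 2 * W.dim X < j + 2 * k
  · refine ⟨0, fun a ha => absurd rfl ha, ?_⟩
    rw [Matrix.mulVec_zero]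
    funext a
    by_contra h0
    have h1 := hv a (Ne.symm h0)
    have h2 := W.deg_le X a
    omega
  · obtain ⟨a, ha⟩ : ∃ a, a + (j + 2 * k) = 2 * W.dim X := ⟨2 * W.dim X - (j + 2 * k), by omega⟩
    obtain ⟨u, hu1, hu2⟩ := W.hard_surj X M hM a (by omega) v (by
      intro b hb
      have := hv b hb
      omega)
    obtain ⟨l, hl⟩ : ∃ l, W.dim X - a = k + l := ⟨W.dim X - a - k, by omega⟩
    refine ⟨M ^ l *ᵥ u, inH_mulVec W X X (pow_deg X (W.Lef_mem X M hM) l) (by omega) hu1, ?_⟩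
    rw [Matrix.mulVec_mulVec, ← pow_add, ← hl]
    exact hu2

include S in
/-- the computation of `Φ`-projectors, first half -/
theorem reg_of_alg {Φ : ℕ → Prop} (hΦ : ¬ Φ (W.dim T)) (h : pr' W T Φ ∈ W.cyc T T 0) {j : ℕ}
    (hj : Φ j) : Reg W V L r j := by
  classical
  have hN : ((S.N : K)) ≠ 0 := Nat.cast_ne_zero.2 S.N_pos.ne'
  obtain ⟨q, c, hc, he⟩ := S.cycles _ h (fun g hg => by
    obtain ⟨-, hdeg⟩ := S.Gal_deg g hg
    refine mat_ext W T T fun i v hv => ?_
    rw [← Matrix.mulVec_mulVec, ← Matrix.mulVec_mulVec]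
    have h1 : W.InH T i (g *ᵥ v) := inH_mulVec W T T hdeg (by simp) hv
    by_cases hi : Φ i
    · rw [pr'_of W T hi hv, pr'_of W T hi h1]
    · rw [pr'_not W T hi hv, pr'_not W T hi h1, Matrix.mulVec_zero])
  have hq : (q : K) = 0 := by
    obtain ⟨v, hv0, hv1, hv2⟩ := S.vanishing
    have h1 := pr'_not W T hΦ hv1
    rw [he, Matrix.add_mulVec, Matrix.smul_mulVec, Matrix.one_mulVec, ← Matrix.mulVec_mulVec, hv2,
      Matrix.mulVec_zero, add_zero] at h1
    by_contra hq
    exact hv0 ((smul_eq_zero.1 h1).resolve_left hq)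
  rw [hq, zero_smul, zero_add] at he
  refine ⟨(S.N : ℚ) • c, Submodule.smul_mem _ _ hc, ?_⟩
  refine mat_ext W V V fun i v hv => ?_
  simp only [← Matrix.mulVec_mulVec]
  by_cases hi : i = j
  · subst hi
    rw [pj_of W V hv]
    have h1 : S.down *ᵥ (pr' W T Φ *ᵥ (S.up *ᵥ v)) = S.down *ᵥ (S.up *ᵥ v) := by
      rw [pr'_of W T hj (inH_mulVec W V T S.up_deg (by simp) hv)]
    have hdu : ∀ w, S.down *ᵥ (S.up *ᵥ w) = ((S.N : K)) • (L ^ r *ᵥ w) := by
      intro w
      rw [Matrix.mulVec_mulVec, S.down_up, Matrix.smul_mulVec]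
    rw [he, ← Matrix.mulVec_mulVec, ← Matrix.mulVec_mulVec, hdu, hdu, Matrix.mulVec_smul] at h1
    have hNr : ((S.N : K)) ≠ 0 := hN
    have h2 := smul_right_injective _ hNr h1
    have h3 : ((S.N : ℚ)) • c = ((S.N : K)) • c := by
      ext a b
      rw [Matrix.smul_apply, Matrix.smul_apply, Rat.smul_def]
      push_cast
      rfl
    rw [h3, Matrix.smul_mulVec]
    exact h2
  · rw [pj_not W V hi hv, Matrix.mulVec_zero, Matrix.mulVec_zero, Matrix.mulVec_zero]

/-- the computation of `Φ`-projectors, second half -/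
theorem alg_of_reg (S : W.Inter V L r T) (hL : L ∈ W.Lef V) {Φ : ℕ → Prop} (hΦ : ¬ Φ (W.dim T))
    (h : ∀ j, Φ j → Reg W V L r j) : pr' W T Φ ∈ W.cyc T T 0 := by
  classical
  have hN : ((S.N : K)) ≠ 0 := Nat.cast_ne_zero.2 S.N_pos.ne'
  have hNr : ((S.N : K)) ≠ 0 := hN
  have hdim := S.dim_eq
  have hLc := W.Lef_mem V L hL
  choose! c hc1 hc2 using h
  obtain ⟨C, hC⟩ : ∃ C, C = ∑ j ∈ (Finset.range (2 * W.dim V + 1)).filter Φ,
      W.pj V j * c j * W.pj V (j + 2 * r) := ⟨_, rfl⟩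
  have hCm : C ∈ W.cyc V V (-(r : ℤ)) := by
    rw [hC]
    refine Submodule.sum_mem _ fun j hj => ?_
    have h1 := W.mul_mem V V V 0 _ _ (W.kunneth V (j + 2 * r)) _ (hc1 j (Finset.mem_filter.1 hj).2)
    have h2 := W.mul_mem V V V _ 0 _ h1 _ (W.kunneth V j)
    rw [← mul_assoc, add_zero, zero_add] at h2
    exact h2
  have hCv : ∀ k w, W.InH V (k + 2 * r) w → k ≤ 2 * W.dim V →
      C *ᵥ w = if Φ k then W.pj V k *ᵥ (c k *ᵥ w) else 0 := by
    intro k w hw hk
    rw [hC, Matrix.sum_mulVec]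
    have h1 : ∀ j, (W.pj V j * c j * W.pj V (j + 2 * r)) *ᵥ w =
        if j = k then W.pj V k *ᵥ (c k *ᵥ w) else 0 := by
      intro j
      rw [← Matrix.mulVec_mulVec, ← Matrix.mulVec_mulVec]
      split_ifs with hjk
      · subst hjk
        rw [pj_of W V hw]
      · rw [pj_not W V (by omega) hw, Matrix.mulVec_zero, Matrix.mulVec_zero]
    simp only [h1]
    rw [Finset.sum_ite_eq']
    by_cases hk2 : Φ k
    · rw [if_pos hk2, if_pos]
      rw [Finset.mem_filter, Finset.mem_range]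
      exact ⟨by omega, hk2⟩
    · rw [if_neg hk2, if_neg]
      rw [Finset.mem_filter]
      exact fun h => hk2 h.2
  have hdu : ∀ w, S.down *ᵥ (S.up *ᵥ w) = ((S.N : K)) • (L ^ r *ᵥ w) := by
    intro w
    rw [Matrix.mulVec_mulVec, S.down_up, Matrix.smul_mulVec]
  -- the operator `c L^r` on `H^k`
  have hreg : ∀ k, Φ k → ∀ v, W.InH V k v → L ^ r *ᵥ (C *ᵥ (L ^ r *ᵥ v)) = L ^ r *ᵥ v := by
    intro k hk v hv
    by_cases hk2 : k ≤ 2 * W.dim V
    · have hLv : W.InH V (k + 2 * r) (L ^ r *ᵥ v) :=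
        inH_mulVec W V V (pow_deg V hLc r) (by push_cast; ring) hv
      rw [hCv k _ hLv hk2, if_pos hk]
      have h1 := congrArg (fun A : Matrix (Fin (W.rk V)) (Fin (W.rk V)) K => A *ᵥ v) (hc2 k hk)
      beta_reduce at h1
      simp only [← Matrix.mulVec_mulVec] at h1
      rw [pj_of W V hv] at h1
      have h3 : W.InH V k (c k *ᵥ (L ^ r *ᵥ v)) :=
        inH_mulVec W V V (W.cyc_deg V V _ _ (hc1 k hk)) (by push_cast; ring) hLv
      rw [pj_of W V h3]
      exact h1
    · have : v = 0 := by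
        funext a
        by_contra h0
        have h1 := hv a h0
        have h2 := W.deg_le V a
        omega
      rw [this, Matrix.mulVec_zero, Matrix.mulVec_zero, Matrix.mulVec_zero]
  have hup0 : ∀ k w, W.InH V k w → W.InH T k (S.up *ᵥ w) := fun k w hw =>
    inH_mulVec W V T S.up_deg (by simp) hw
  have hdown0 : ∀ k w, W.InH T k w → W.InH V (k + 2 * r) (S.down *ᵥ w) := fun k w hw =>
    inH_mulVec W T V S.down_deg (by push_cast; ring) hw
  have key : pr' W T Φ = S.up * (((S.N : ℚ)⁻¹) • C) * S.down := by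
    refine mat_ext W T T fun k x hx => ?_
    have e1 : ((S.N : ℚ)⁻¹) • C = ((S.N : K))⁻¹ • C := by
      ext a b
      rw [Matrix.smul_apply, Matrix.smul_apply, Rat.smul_def]
      push_cast
      rfl
    rw [e1]
    simp only [← Matrix.mulVec_mulVec]
    rw [Matrix.smul_mulVec, Matrix.mulVec_smul]
    have hk2 : k ≤ 2 * W.dim V ∨ x = 0 := by
      by_cases hx0 : x = 0
      · exact Or.inr hx0
      · left
        obtain ⟨a, ha⟩ : ∃ a, x a ≠ 0 := by
          by_contra hcon
          push Not at hcon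
          exact hx0 (funext hcon)
        have h1 := hx a ha
        have h2 := W.deg_le T a
        omega
    rcases hk2 with hk2 | hx0
    swap
    · rw [hx0]
      simp only [Matrix.mulVec_zero, smul_zero]
    have hCdown : W.InH V k (C *ᵥ (S.down *ᵥ x)) :=
      inH_mulVec W V V (W.cyc_deg V V _ _ hCm) (by push_cast; ring) (hdown0 k x hx)
    by_cases hk : Φ k
    · rw [pr'_of W T hk hx]
      have hkD : k ≠ W.dim T := fun h => hΦ (h ▸ hk)
      rcases lt_or_gt_of_ne hkD with hlt | hgt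
      · obtain ⟨u, hu, rfl⟩ := S.surj k hlt x hx
        have h1 := hreg k hk u hu
        have hLu : W.InH V (k + 2 * r) (L ^ r *ᵥ u) :=
          inH_mulVec W V V (pow_deg V hLc r) (by push_cast; ring) hu
        have h2 : C *ᵥ (L ^ r *ᵥ u) = u := by
          have h3 : W.InH V k (C *ᵥ (L ^ r *ᵥ u) - u) := by
            have h4 : W.InH V k (C *ᵥ (L ^ r *ᵥ u)) :=
              inH_mulVec W V V (W.cyc_deg V V _ _ hCm) (by push_cast; ring) hLu
            intro a ha
            by_cases h5 : (C *ᵥ (L ^ r *ᵥ u)) a = 0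
            · refine hu a fun h6 => ha ?_
              rw [Pi.sub_apply, h5, h6, sub_zero]
            · exact h4 a h5
          have h4 := inj_pow V hL (j := k) (k := r) (by omega) h3
            (by rw [Matrix.mulVec_sub, h1, sub_self])
          exact sub_eq_zero.1 h4
        rw [hdu, Matrix.mulVec_smul, h2, Matrix.mulVec_smul, smul_smul, inv_mul_cancel₀ hNr,
          one_smul]
      · obtain ⟨y, hy, hy2⟩ := surj_pow V hL (j := k) (k := r) (by omega) (hdown0 k x hx)
        have h1 := hreg k hk y hy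
        have h3 : W.InH T k (((S.N : K))⁻¹ • S.up *ᵥ (C *ᵥ (S.down *ᵥ x)) - x) := by
          have h4 := hup0 k _ hCdown
          intro a ha
          by_cases h5 : (S.up *ᵥ (C *ᵥ (S.down *ᵥ x))) a = 0
          · refine hx a fun h6 => ha ?_
            rw [Pi.sub_apply, Pi.smul_apply, h5, h6, smul_zero, sub_zero]
          · exact h4 a h5
        have h4 := S.inj_down k hgt _ h3 (by
          rw [Matrix.mulVec_sub, Matrix.mulVec_smul, hdu, smul_smul, inv_mul_cancel₀ hNr, one_smul,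
            ← hy2, h1, sub_self])
        exact (sub_eq_zero.1 h4).symm
    · rw [pr'_not W T hk hx, hCv k _ (hdown0 k x hx) hk2, if_neg hk, Matrix.mulVec_zero, smul_zero]
  rw [key]
  exact S.restrict _ (Submodule.smul_mem _ _ hCm)

include S in
theorem alg_iff_reg (hL : L ∈ W.Lef V) {Φ : ℕ → Prop} (hΦ : ¬ Φ (W.dim T)) :
    pr' W T Φ ∈ W.cyc T T 0 ↔ ∀ j, Φ j → Reg W V L r j :=
  ⟨fun h _ hj => reg_of_alg S hΦ h hj, fun h => alg_of_reg S.toInter hL hΦ h⟩

theorem pr'_eq {n : ℕ} (X : W.Var n) (j : ℕ) : pr' W X (fun i => i = j) = W.pj X j := by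
  refine mat_ext W X X fun i v hv => ?_
  by_cases hi : i = j
  · subst hi
    rw [pr'_of W X (Φ := fun k => k = i) rfl hv, pj_of W X hv]
  · rw [pr'_not W X (Φ := fun k => k = j) hi hv, pj_not W X hi hv]

theorem pr'_even {n : ℕ} (X : W.Var n) : pr' W X Even = W.even X := by
  unfold pr' Theory.even
  congr 1
  funext a
  by_cases h : Even (W.deg X a)
  · rw [if_pos h, if_pos h]
  · rw [if_neg h, if_neg h]

theorem pr'_odd {n : ℕ} (X : W.Var n) : pr' W X (fun i => ¬ Even i) = 1 - W.even X := by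
  refine mat_ext W X X fun i v hv => ?_
  rw [← pr'_even, Matrix.sub_mulVec, Matrix.one_mulVec]
  by_cases hi : Even i
  · rw [pr'_not W X (not_not.2 hi) hv, pr'_of W X hi hv, sub_self]
  · rw [pr'_of W X hi hv, pr'_not W X hi hv, sub_zero]

/-- `C⁺(T)` in terms of the projectors of one parity -/
theorem cplus_iff_pr' {n : ℕ} (T : W.Var n) : W.Cplus T ↔ pr' W T (fun j => ¬ (Even j ↔ Even (W.dim T))) ∈
    W.cyc T T 0 := by
  by_cases hD : Even (W.dim T)
  · have h1 : (fun j : ℕ => ¬ (Even j ↔ Even (W.dim T))) = fun j : ℕ => ¬ Even j := by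
      funext j
      simp [hD]
    rw [h1, pr'_odd]
    constructor
    · intro h
      exact Submodule.sub_mem _ (W.one_mem T) h
    · intro h
      have := Submodule.sub_mem _ (W.one_mem T) h
      rwa [sub_sub_cancel] at this
  · have h1 : (fun j : ℕ => ¬ (Even j ↔ Even (W.dim T))) = Even := by
      funext j
      simp [hD]
    rw [h1, pr'_even]
    exact Iff.rfl

include S in
/-- `C⁺(T)` for a generic complete intersection -/
theorem cplus_iff_reg (hL : L ∈ W.Lef V) :
    W.Cplus T ↔ ∀ j, ¬ (Even j ↔ Even (W.dim T)) → Reg W V L r j := by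
  rw [cplus_iff_pr' T, alg_iff_reg S hL (by simp)]

include S in
theorem pj_iff_reg (hL : L ∈ W.Lef V) {j : ℕ} (hj : j ≠ W.dim T) :
    W.pj T j ∈ W.cyc T T 0 ↔ Reg W V L r j := by
  rw [← pr'_eq, alg_iff_reg S hL (Φ := fun i => i = j) (fun h => hj h.symm)]
  exact ⟨fun h => h j rfl, fun h i hi => hi ▸ h⟩

theorem c_of_reg (S : W.Inter V L r T) (hL : L ∈ W.Lef V)
    (h : ∀ j, j ≠ W.dim T → Reg W V L r j) : W.C T := by
  intro j
  by_cases hj : j = W.dim T
  · have h1 : pr' W T (fun i => i ≠ W.dim T) ∈ W.cyc T T 0 :=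
      alg_of_reg S hL (Φ := fun i => i ≠ W.dim T) (fun h => h rfl) fun i hi => h i hi
    have h2 : W.pj T j = 1 - pr' W T (fun i => i ≠ W.dim T) := by
      refine mat_ext W T T fun i v hv => ?_
      rw [Matrix.sub_mulVec, Matrix.one_mulVec, hj]
      by_cases hi : i = W.dim T
      · subst hi
        rw [pj_of W T hv, pr'_not W T (Φ := fun i => i ≠ W.dim T) (fun h => h rfl) hv, sub_zero]
      · rw [pj_not W T hi hv, pr'_of W T (Φ := fun i => i ≠ W.dim T) hi hv, sub_self]
    rw [h2]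
    exact Submodule.sub_mem _ (W.one_mem T) h1
  · rw [← pr'_eq]
    exact alg_of_reg S hL (Φ := fun i => i = j) (fun h => hj h.symm) fun i hi => hi ▸ h j hj

include S in
theorem c_iff_reg (hL : L ∈ W.Lef V) : W.C T ↔ ∀ j, j ≠ W.dim T → Reg W V L r j :=
  ⟨fun h j hj => (pj_iff_reg S hL hj).1 (h j), fun h => c_of_reg S.toInter hL h⟩

end GI

section dual

variable {W : Theory K} {V : W.Var 0} {L : Matrix (Fin (W.rk V)) (Fin (W.rk V)) K}

/-- the transposition of the correspondences of `V` -/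
structure Dual (W : Theory K) (V : W.Var 0) where
  tp : Matrix (Fin (W.rk V)) (Fin (W.rk V)) K → Matrix (Fin (W.rk V)) (Fin (W.rk V)) K
  anti : ∀ f g, tp (g * f) = tp f * tp g
  mem : ∀ (s : ℤ), ∀ f ∈ W.cyc V V s, tp f ∈ W.cyc V V s
  lef : ∀ L ∈ W.Lef V, tp L = L
  pj : ∀ i, i ≤ 2 * W.dim V → tp (W.pj V i) = W.pj V (2 * W.dim V - i)

theorem Dual.pow (D : Dual W V) (hL : L ∈ W.Lef V) : ∀ r : ℕ, 1 ≤ r → D.tp (L ^ r) = L ^ r := by
  intro r hr
  induction r, hr using Nat.le_induction with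
  | base => rw [pow_one, D.lef L hL]
  | succ r _ ih =>
    rw [pow_succ, D.anti, ih, D.lef L hL, ← pow_succ, ← pow_succ']

theorem reg_dual (D : Dual W V) (hL : L ∈ W.Lef V) {r j k : ℕ} (hr : 1 ≤ r)
    (hk : j + k + 2 * r = 2 * W.dim V) (h : Reg W V L r j) : Reg W V L r k := by
  obtain ⟨c, hc, h1⟩ := h
  have hLc := W.Lef_mem V L hL
  have hc' := D.mem _ c hc
  refine ⟨D.tp c, hc', ?_⟩
  have h2 := congrArg D.tp h1
  rw [D.anti, D.anti, D.anti, D.anti, D.pow hL r hr, D.pj j (by omega)] at h2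
  refine mat_ext W V V fun i v hv => ?_
  simp only [← Matrix.mulVec_mulVec]
  by_cases hi : i = k
  · subst hi
    rw [pj_of W V hv]
    have h3 := congrArg (fun A : Matrix (Fin (W.rk V)) (Fin (W.rk V)) K => A *ᵥ v) h2
    beta_reduce at h3
    simp only [← Matrix.mulVec_mulVec] at h3
    have h4 : W.InH V (2 * W.dim V - j) (L ^ r *ᵥ v) :=
      inH_mulVec W V V (pow_deg V hLc r) (by omega) hv
    have h5 : W.InH V i (D.tp c *ᵥ (L ^ r *ᵥ v)) :=
      inH_mulVec W V V (W.cyc_deg V V _ _ hc') (by omega) h4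
    have h6 : W.InH V (2 * W.dim V - j) (L ^ r *ᵥ (D.tp c *ᵥ (L ^ r *ᵥ v))) :=
      inH_mulVec W V V (pow_deg V hLc r) (by omega) h5
    rw [pj_of W V h4, pj_of W V h6] at h3
    exact h3
  · rw [pj_not W V hi hv, Matrix.mulVec_zero, Matrix.mulVec_zero, Matrix.mulVec_zero]

theorem li_iff_reg (hL : L ∈ W.Lef V) {r j : ℕ} (hj : j + r ≤ W.dim V) :
    LI W V L r j ↔ Reg W V L r j := by
  have hLc := W.Lef_mem V L hL
  constructor
  · rintro ⟨c, hc, h1⟩
    refine ⟨c, hc, ?_⟩
    rw [mul_assoc (L ^ r * c), mul_assoc (L ^ r) c, ← mul_assoc c, h1]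
  · rintro ⟨c, hc, h1⟩
    refine ⟨c, hc, ?_⟩
    refine mat_ext W V V fun i v hv => ?_
    simp only [← Matrix.mulVec_mulVec]
    by_cases hi : i = j
    · subst hi
      rw [pj_of W V hv]
      have h2 := congrArg (fun A : Matrix (Fin (W.rk V)) (Fin (W.rk V)) K => A *ᵥ v) h1
      beta_reduce at h2
      simp only [← Matrix.mulVec_mulVec] at h2
      rw [pj_of W V hv] at h2
      have h3 : W.InH V i (c *ᵥ (L ^ r *ᵥ v) - v) := by
        have h4 : W.InH V i (c *ᵥ (L ^ r *ᵥ v)) :=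
          inH_mulVec W V V (W.cyc_deg V V _ _ hc) (by push_cast; ring)
            (inH_mulVec W V V (j := i + 2 * r) (pow_deg V hLc r) (by push_cast; ring) hv)
        intro a ha
        by_cases h5 : (c *ᵥ (L ^ r *ᵥ v)) a = 0
        · refine hv a fun h6 => ha ?_
          rw [Pi.sub_apply, h5, h6, sub_zero]
        · exact h4 a h5
      exact sub_eq_zero.1 (inj_pow V hL (j := i) (k := r) hj h3
        (by rw [Matrix.mulVec_sub, h2, sub_self]))
    · rw [pj_not W V hi hv, Matrix.mulVec_zero, Matrix.mulVec_zero]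

theorem li_iff_num (hL : L ∈ W.Lef V) (r j : ℕ) : LI W V L r j ↔ Num W V L r j := by
  constructor
  · rintro ⟨c, hc, h1⟩ e he h2 h3 h4 _
    refine ⟨c, hc, ?_⟩
    have e2 : c * L ^ r * e = e := by
      rw [← h4, ← mul_assoc, h1]
    rw [e2]
    exact trace_idem_ne e h2 h3
  · intro h
    refine spl tFIT K (W.rk V) _ (W.cyc V V) (W.pj V j) (L ^ r)
      (fun r s f hf g hg => W.mul_mem V V V r s f hf g hg)
      (W.kunneth V j) (pj_mul W V j) (pow_mem W V (W.Lef_mem V L hL) _) ?_ h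
    intro x hx _ h2
    exact rat_trace W V j x hx h2

variable {r m : ℕ} {T : W.Var m}

theorem reg_big (hL : L ∈ W.Lef V) {j : ℕ} (hj : 2 * W.dim V < j + 2 * r) : Reg W V L r j := by
  refine ⟨0, Submodule.zero_mem _, ?_⟩
  refine mat_ext W V V fun i v hv => ?_
  simp only [← Matrix.mulVec_mulVec]
  by_cases hi : i = j
  · subst hi
    rw [pj_of W V hv, Matrix.zero_mulVec, Matrix.mulVec_zero]
    refine (zero_mulVec W V V (pow_deg V (W.Lef_mem V L hL) r) (i := i) (Or.inr ?_) hv).symm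
    push_cast
    omega
  · rw [pj_not W V hi hv, Matrix.mulVec_zero, Matrix.mulVec_zero, Matrix.mulVec_zero]

/-- **`C⁺(T)` for a generic complete intersection.** -/
theorem cplus_tfae (D : Dual W V) (hL : L ∈ W.Lef V) (hr : 1 ≤ r)
    (S : W.GenericSection V L r T) :
    List.TFAE [
      W.Cplus T,
      ∀ j, ¬ (Even j ↔ Even (W.dim T)) → W.pj T j ∈ W.cyc T T 0,
      ∀ j < W.dim T, ¬ (Even j ↔ Even (W.dim T)) → LI W V L r j,
      ∀ j < W.dim T, ¬ (Even j ↔ Even (W.dim T)) → Num W V L r j] := by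
  have hdim := S.dim_eq
  tfae_have 1 ↔ 2 := by
    rw [cplus_iff_reg S hL]
    refine forall_congr' fun j => forall_congr' fun hj => ?_
    rw [pj_iff_reg S hL fun h => hj (by rw [h])]
  tfae_have 1 → 3 := by
    intro h j hj hp
    exact (li_iff_reg hL (by omega)).2 ((cplus_iff_reg S hL).1 h j hp)
  tfae_have 3 → 1 := by
    intro h
    refine (cplus_iff_reg S hL).2 fun j hp => ?_
    rcases lt_trichotomy j (W.dim T) with hlt | heq | hgt
    · exact (li_iff_reg hL (by omega)).1 (h j hlt hp)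
    · exact absurd (by rw [heq]) hp
    · by_cases hbig : 2 * W.dim T < j
      · exact reg_big hL (by omega)
      · obtain ⟨k, hk⟩ : ∃ k, j + k = 2 * W.dim T := ⟨2 * W.dim T - j, by omega⟩
        refine reg_dual D hL hr (j := k) (k := j) (by omega)
          ((li_iff_reg hL (by omega)).1 (h k (by omega) fun h1 => hp ?_))
        rw [← h1]
        constructor
        · intro h2
          have h3 : Even (j + k) := by rw [hk]; exact even_two_mul _
          exact (Nat.even_add.1 h3).1 h2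
        · intro h2
          have h3 : Even (j + k) := by rw [hk]; exact even_two_mul _
          exact (Nat.even_add.1 h3).2 h2
  tfae_have 3 ↔ 4 := forall_congr' fun j => forall_congr' fun _ => forall_congr' fun _ =>
    li_iff_num hL r j
  tfae_finish

/-- left inverses give the Künneth conjecture -/
theorem c_of_li (D : Dual W V) (hL : L ∈ W.Lef V) (hr : 1 ≤ r) (S : W.Inter V L r T)
    (h : ∀ j < W.dim T, LI W V L r j) : W.C T := by
  have hdim := S.dim_eq
  refine c_of_reg S hL fun j hp => ?_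
  rcases lt_or_gt_of_ne hp with hlt | hgt
  · exact (li_iff_reg hL (by omega)).1 (h j hlt)
  · by_cases hbig : 2 * W.dim T < j
    · exact reg_big hL (by omega)
    · obtain ⟨k, hk⟩ : ∃ k, j + k = 2 * W.dim T := ⟨2 * W.dim T - j, by omega⟩
      exact reg_dual D hL hr (j := k) (k := j) (by omega)
        ((li_iff_reg hL (by omega)).1 (h k (by omega)))

/-- **`C(T)` for a generic complete intersection.** -/
theorem c_tfae (D : Dual W V) (hL : L ∈ W.Lef V) (hr : 1 ≤ r)
    (S : W.GenericSection V L r T) :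
    List.TFAE [
      W.C T,
      ∀ j < W.dim T, LI W V L r j,
      ∀ j < W.dim T, Num W V L r j] := by
  have hdim := S.dim_eq
  tfae_have 1 → 2 := by
    intro h j hj
    exact (li_iff_reg hL (by omega)).2 ((c_iff_reg S hL).1 h j hj.ne)
  tfae_have 2 → 1 := fun h => c_of_li D hL hr S.toInter h
  tfae_have 2 ↔ 3 := forall_congr' fun j => forall_congr' fun _ => li_iff_num hL r j
  tfae_finish

theorem li_mono (hL : L ∈ W.Lef V) {j : ℕ} (h : LI W V L (r + 1) j) : LI W V L r j := by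
  obtain ⟨c, hc, h1⟩ := h
  refine ⟨c * L, ?_, ?_⟩
  · have h2 := W.mul_mem V V V 1 (-((r + 1 : ℕ) : ℤ)) L (W.Lef_mem V L hL) c hc
    have e : (1 : ℤ) + -((r + 1 : ℕ) : ℤ) = -(r : ℤ) := by
      push_cast
      ring
    rwa [e] at h2
  · rw [mul_assoc c L, ← pow_succ', h1]

theorem li_mono' (hL : L ∈ W.Lef V) {r s j : ℕ} (hrs : r ≤ s) (h : LI W V L s j) :
    LI W V L r j := by
  induction s, hrs using Nat.le_induction with
  | base => exact h
  | succ s _ ih => exact ih (li_mono hL h)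

/-- **the sign conjecture for `T` and for its generic hyperplane section `T'` implies the Künneth
conjecture for `T`** -/
theorem c_of_pair (D : Dual W V) (hL : L ∈ W.Lef V) (hr : 1 ≤ r) {m' : ℕ} {T' : W.Var m'}
    (S : W.GenericSection V L r T) (S' : W.GenericSection V L (r + 1) T') (h : W.Cplus T)
    (h' : W.Cplus T') : W.C T := by
  have hdim := S.dim_eq
  have hdim' := S'.dim_eq
  have k1 : ∀ j < W.dim T, ¬ (Even j ↔ Even (W.dim T)) → LI W V L r j :=
    ((cplus_tfae D hL hr S).out 0 2).1 h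
  have k2 : ∀ j < W.dim T', ¬ (Even j ↔ Even (W.dim T')) → LI W V L (r + 1) j :=
    ((cplus_tfae D hL (by omega) S').out 0 2).1 h'
  refine ((c_tfae D hL hr S).out 1 0).1 fun j hj => ?_
  by_cases hp : Even j ↔ Even (W.dim T)
  · have hdd : W.dim T = W.dim T' + 1 := by omega
    have hj2 : j ≠ W.dim T' := by
      intro h1
      rw [h1, hdd, Nat.even_add_one] at hp
      exact iff_not_self hp
    refine li_mono hL (k2 j (by omega) fun h1 => ?_)
    rw [h1, hdd, Nat.even_add_one] at hp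
    exact iff_not_self hp
  · exact k1 j hj hp

/-- **the sign conjecture and the Künneth conjecture for all generic complete intersections in
`V`** -/
theorem all_tfae (D : Dual W V) (hL : L ∈ W.Lef V)
    (hE : ∀ r, 1 ≤ r → r < W.dim V → ∃ (m : ℕ) (T : W.Var m),
      Nonempty (W.GenericSection V L r T)) :
    List.TFAE [
      ∀ (r m : ℕ) (T : W.Var m), 1 ≤ r → Nonempty (W.GenericSection V L r T) → W.Cplus T,
      ∀ (r m : ℕ) (T : W.Var m), 1 ≤ r → Nonempty (W.GenericSection V L r T) → W.C T,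
      ∀ j, j + 1 < W.dim V → LI W V L (W.dim V - 1 - j) j,
      ∀ j, j + 1 < W.dim V → Num W V L (W.dim V - 1 - j) j] := by
  tfae_have 1 → 3 := by
    intro H j hj
    obtain ⟨m, T, ⟨S⟩⟩ := hE (W.dim V - 1 - j) (by omega) (by omega)
    have hdim := S.dim_eq
    have h1 := H _ m T (by omega) ⟨S⟩
    have k1 : ∀ j' < W.dim T, ¬ (Even j' ↔ Even (W.dim T)) → LI W V L (W.dim V - 1 - j) j' :=
      ((cplus_tfae D hL (by omega) S).out 0 2).1 h1
    refine k1 j (by omega) fun h2 => ?_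
    have h3 : W.dim T = j + 1 := by omega
    rw [h3, Nat.even_add_one] at h2
    exact iff_not_self h2
  tfae_have 3 → 2 := by
    rintro H r m T hr ⟨S⟩
    have hdim := S.dim_eq
    refine ((c_tfae D hL hr S).out 1 0).1 fun j hj => ?_
    exact li_mono' hL (by omega) (H j (by omega))
  tfae_have 2 → 1 := fun H r m T hr S => cplus_of_c W T (H r m T hr S)
  tfae_have 3 ↔ 4 := forall_congr' fun j => forall_congr' fun _ => li_iff_num hL _ j
  tfae_finish

end dual

end Pool.Agent.H64.CC
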