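import Mathlib
import Pool.Agent.H64.CC.Loc

/-!
# Products
-/

set_option autoImplicit false

open Matrix
open scoped Kronecker

namespace Pool.Agent.H64.CC

open Pool.Agent.H64.CB (T_RAT T_FIT)

variable {K : Type} [Field K] [CharZero K]

/-- an algebraic map `H^(2d - i) → H^i` which is injective gives the inverse -/
theorem inv_of_inj (W : Theory K) (Z : W.Var 0) {i : ℕ} (hi : i ≤ W.dim Z)
    {L' : Matrix (Fin (W.rk Z)) (Fin (W.rk Z)) K} (hL' : L' ∈ W.Lef Z)
    {θ : Matrix (Fin (W.rk Z)) (Fin (W.rk Z)) K} (hθ : θ ∈ W.cyc Z Z ((i : ℤ) - W.dim Z))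
    (hinj : ∀ w, W.InH Z (2 * W.dim Z - i) w → θ *ᵥ w = 0 → w = 0) : Inv W Z i L' := by
  obtain ⟨k, hk⟩ : ∃ k, k = W.dim Z - i := ⟨_, rfl⟩
  have hpp := pj_mul W Z i
  have hinj' := W.hard_inj Z L' hL' i hi
  rw [← hk] at hinj'
  obtain ⟨x, hx⟩ : ∃ x, x = θ * L' ^ k * W.pj Z i := ⟨_, rfl⟩
  have hxm : x ∈ W.cyc Z Z 0 := by
    have h1 := W.mul_mem Z Z Z _ _ _ (W.kunneth Z i) _ (pow_mem W Z (W.Lef_mem Z L' hL') k)
    have h2 := W.mul_mem Z Z Z _ _ _ h1 θ hθ
    have e1 : (0 : ℤ) + (k : ℤ) + ((i : ℤ) - W.dim Z) = 0 := by omega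
    change θ * (L' ^ k * W.pj Z i) ∈ _ at h2
    rwa [e1, ← mul_assoc, ← hx] at h2
  have hxp : x * W.pj Z i = x := by rw [hx, mul_assoc, hpp]
  have hxd : ∀ v, W.InH Z i v → W.InH Z i (x *ᵥ v) := by
    intro v hv
    have h1 := LEM.HD.act hxm ((LEM.inH_iff i v).1 hv)
    rw [LEM.inH_iff]
    simpa using h1
  have hxi : ∀ v, W.InH Z i v → x *ᵥ v = 0 → v = 0 := by
    intro v hv h0
    have hpv : W.pj Z i *ᵥ v = v := LEM.pj_of_HD ((LEM.inH_iff i v).1 hv)
    have h1 : x *ᵥ v = θ *ᵥ (L' ^ k *ᵥ v) := by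
      rw [hx, ← Matrix.mulVec_mulVec, ← Matrix.mulVec_mulVec, hpv]
    have hw : W.InH Z (2 * W.dim Z - i) (L' ^ k *ᵥ v) := by
      have h2 := LEM.HD.act (pow_mem W Z (W.Lef_mem Z L' hL') k) ((LEM.inH_iff i v).1 hv)
      rw [LEM.inH_iff]
      have e1 : (i : ℤ) + 2 * (k : ℤ) = ((2 * W.dim Z - i : ℕ) : ℤ) := by omega
      rwa [e1] at h2
    rw [h1] at h0
    exact hinj' v hv (hinj _ hw h0)
  obtain ⟨g, a, hg⟩ := tRAT K (W.rk Z) x (fun j => by
    refine rat_trace W Z i (x ^ (j + 1)) (LEM.pow_mem0 hxm _) ?_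
    rw [pow_succ, mul_assoc, hxp])
  have hpx : W.pj Z i * x = x := by
    ext b c
    by_cases hxbc : x b c = 0
    · rw [Theory.pj, Matrix.diagonal_mul, hxbc, mul_zero]
    · have h1 : W.deg Z c = i := by
        by_contra hne
        apply hxbc
        rw [← hxp, mul_pj_apply, if_neg hne]
      have h2 := W.cyc_deg Z Z 0 x hxm b c hxbc
      rw [Theory.pj, Matrix.diagonal_mul, if_pos (by omega), one_mul]
  have hpowi : ∀ (j : ℕ) (v), W.InH Z i v → x ^ j *ᵥ v = 0 → v = 0 := by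
    intro j
    induction j with
    | zero => intro v _ h0; simpa using h0
    | succ j ih =>
      intro v hv h0
      rw [pow_succ, ← Matrix.mulVec_mulVec] at h0
      exact hxi v hv (ih _ (hxd v hv) h0)
  have hcomm : x * Polynomial.aeval x g = Polynomial.aeval x g * x := by
    have h1 : Polynomial.aeval x (Polynomial.X * g) = x * Polynomial.aeval x g := by
      rw [map_mul, Polynomial.aeval_X]
    have h2 : Polynomial.aeval x (g * Polynomial.X) = Polynomial.aeval x g * x := by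
      rw [map_mul, Polynomial.aeval_X]
    rw [← h1, ← h2, mul_comm]
  have hone : (1 - x * Polynomial.aeval x g) * W.pj Z i = 0 := by
    have h1 : W.pj Z i * ((1 - x * Polynomial.aeval x g) * W.pj Z i) =
        (1 - x * Polynomial.aeval x g) * W.pj Z i := by
      rw [← mul_assoc, mul_sub, mul_one, ← mul_assoc, hpx, sub_mul, hpp, sub_mul, one_mul]
    have h2 : x ^ a * ((1 - x * Polynomial.aeval x g) * W.pj Z i) = 0 := by
      rw [← mul_assoc, hg, zero_mul]
    obtain ⟨y, hy⟩ : ∃ y, y = (1 - x * Polynomial.aeval x g) * W.pj Z i := ⟨_, rfl⟩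
    rw [← hy] at h1 h2 ⊢
    have h3 : ∀ v : Fin (W.rk Z) → K, y *ᵥ v = 0 := by
      intro v
      refine hpowi a (y *ᵥ v) ?_ ?_
      · rw [LEM.inH_iff, ← h1, ← Matrix.mulVec_mulVec]
        exact LEM.HD_pj i _
      · rw [Matrix.mulVec_mulVec, h2, Matrix.zero_mulVec]
    ext b c
    have h4 := congrFun (h3 (Pi.single c 1)) b
    rwa [Matrix.mulVec_single_one] at h4
  refine ⟨Polynomial.aeval x g * θ, mul_mem0 W Z hθ (aeval_cyc W Z hxm g), ?_⟩
  rw [← hk]
  rw [sub_mul, one_mul, hcomm, mul_assoc, hxp, sub_eq_zero] at hone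
  calc Polynomial.aeval x g * θ * L' ^ k * W.pj Z i
      = Polynomial.aeval x g * (θ * L' ^ k * W.pj Z i) := by simp only [mul_assoc]
    _ = Polynomial.aeval x g * x := by rw [← hx]
    _ = W.pj Z i := hone.symm

section

variable (W : Theory K) (Z : W.Var 0)

/-- `Inv` as a statement on vectors -/
theorem inv_vec {L : Matrix (Fin (W.rk Z)) (Fin (W.rk Z)) K} {i : ℕ}
    {θ : Matrix (Fin (W.rk Z)) (Fin (W.rk Z)) K}
    (h : θ * L ^ (W.dim Z - i) * W.pj Z i = W.pj Z i) {v : Fin (W.rk Z) → K}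
    (hv : W.InH Z i v) : θ *ᵥ (L ^ (W.dim Z - i) *ᵥ v) = v := by
  have h1 := congrArg (fun A : Matrix (Fin (W.rk Z)) (Fin (W.rk Z)) K => A *ᵥ v) h
  beta_reduce at h1
  simp only [← Matrix.mulVec_mulVec] at h1
  rwa [pj_of W Z hv] at h1

/-- the other composition -/
theorem inv_vec' {L : Matrix (Fin (W.rk Z)) (Fin (W.rk Z)) K} (hL : L ∈ W.Lef Z) {i : ℕ}
    (hi : i ≤ W.dim Z) {θ : Matrix (Fin (W.rk Z)) (Fin (W.rk Z)) K}
    (h : θ * L ^ (W.dim Z - i) * W.pj Z i = W.pj Z i) {v : Fin (W.rk Z) → K}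
    (hv : W.InH Z (2 * W.dim Z - i) v) : L ^ (W.dim Z - i) *ᵥ (θ *ᵥ v) = v := by
  obtain ⟨u, hu, rfl⟩ := W.hard_surj Z L hL i hi v (by
    intro a ha
    have := hv a ha
    omega)
  rw [inv_vec W Z h hu]

theorem mul_mem0' {r : ℤ} {x y : Matrix (Fin (W.rk Z)) (Fin (W.rk Z)) K}
    (hx : x ∈ W.cyc Z Z r) (hy : y ∈ W.cyc Z Z 0) : x * y ∈ W.cyc Z Z r := by
  have := W.mul_mem Z Z Z 0 r y hy x hx
  rwa [zero_add] at this

/-- `B(Z)` gives isomorphisms `H^a → H^(2d - a)` for all `a` -/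
theorem sigma (hB : W.B Z) : ∃ s : ℕ → Matrix (Fin (W.rk Z)) (Fin (W.rk Z)) K,
    ∀ a, a ≤ 2 * W.dim Z → s a ∈ W.cyc Z Z ((W.dim Z : ℤ) - a) ∧
      ∀ v, W.InH Z a v → s a *ᵥ v = 0 → v = 0 := by
  obtain ⟨L, hL⟩ := W.Lef_nonempty Z
  have hB' := hB L hL
  choose! θ hθ1 hθ2 using hB'
  refine ⟨fun a => if a ≤ W.dim Z then L ^ (W.dim Z - a) else θ (2 * W.dim Z - a),
    fun a ha => ?_⟩
  beta_reduce
  split_ifs with h1
  · refine ⟨?_, fun v hv h0 => W.hard_inj Z L hL a h1 v hv h0⟩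
    have := pow_mem W Z (W.Lef_mem Z L hL) (W.dim Z - a)
    have e : ((W.dim Z - a : ℕ) : ℤ) = (W.dim Z : ℤ) - a := by omega
    rwa [e] at this
  · have h2 : 2 * W.dim Z - a ≤ W.dim Z := by omega
    refine ⟨?_, fun v hv h0 => ?_⟩
    · have := hθ1 (2 * W.dim Z - a) h2
      have e : ((2 * W.dim Z - a : ℕ) : ℤ) - W.dim Z = (W.dim Z : ℤ) - a := by omega
      rwa [e] at this
    · have h3 := inv_vec' W Z hL h2 (hθ2 _ h2) (v := v) (by
        have : 2 * W.dim Z - (2 * W.dim Z - a) = a := by omega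
        rwa [this])
      rw [h0, Matrix.mulVec_zero] at h3
      exact h3.symm

/-- `B(Z)` implies `B(Z × Z)` -/
theorem b_prod (hB : W.B Z) : W.B (W.prod Z Z) := by
  obtain ⟨s, hs⟩ := sigma W Z hB
  obtain ⟨σ, hσ⟩ : ∃ σ, σ = ∑ a ∈ Finset.range (2 * W.dim Z + 1), s a * W.pj Z a := ⟨_, rfl⟩
  have hpjd : ∀ a, W.HasDeg Z Z 0 (W.pj Z a) := fun a => W.cyc_deg Z Z 0 _ (W.kunneth Z a)
  -- `σ` is injective
  have hinj : ∀ w, σ *ᵥ w = 0 → w = 0 := by
    intro w hw
    have h1 : ∀ a, a ≤ 2 * W.dim Z → W.pj Z a *ᵥ w = 0 := by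
      intro a ha
      have hsd : ∀ c, c ≤ 2 * W.dim Z → W.InH Z (2 * W.dim Z - c) (s c *ᵥ (W.pj Z c *ᵥ w)) :=
        fun c hc => inH_mulVec W Z Z (W.cyc_deg Z Z _ _ (hs c hc).1) (by omega) (pj_inH W Z c w)
      have h2 := congrArg (fun v => W.pj Z (2 * W.dim Z - a) *ᵥ v) hw
      beta_reduce at h2
      rw [hσ, Matrix.sum_mulVec, Matrix.mulVec_sum, Matrix.mulVec_zero] at h2
      have h3 : ∀ c ∈ Finset.range (2 * W.dim Z + 1),
          W.pj Z (2 * W.dim Z - a) *ᵥ ((s c * W.pj Z c) *ᵥ w) =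
            if c = a then s a *ᵥ (W.pj Z a *ᵥ w) else 0 := by
        intro c hc
        have hc' : c ≤ 2 * W.dim Z := by
          have := Finset.mem_range.1 hc
          omega
        rw [← Matrix.mulVec_mulVec]
        split_ifs with hca
        · rw [hca, pj_of W Z (hsd a ha)]
        · exact pj_not W Z (by omega) (hsd c hc')
      rw [Finset.sum_congr rfl h3, Finset.sum_ite_eq' , if_pos (Finset.mem_range.2 (by omega))] at h2
      exact (hs a ha).2 _ (pj_inH W Z a w) h2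
    funext b
    have h2 := congrFun (h1 (W.deg Z b) (W.deg_le Z b)) b
    rw [Theory.pj, Matrix.mulVec_diagonal, if_pos rfl, one_mul] at h2
    exact h2
  have hunit : IsUnit σ := by
    rw [← Matrix.mulVec_injective_iff_isUnit]
    intro w1 w2 h12
    have h3 : σ *ᵥ (w1 - w2) = 0 := by
      rw [Matrix.mulVec_sub]
      exact sub_eq_zero.2 h12
    exact sub_eq_zero.1 (hinj _ h3)
  obtain ⟨τ, hτ⟩ : ∃ τ, τ * σ = 1 := by
    obtain ⟨u, hu⟩ := hunit
    exact ⟨↑u⁻¹, by rw [← hu, Units.inv_mul]⟩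
  have hentry : ∀ x' x, σ x' x = s (W.deg Z x) x' x := by
    intro x' x
    rw [hσ, Matrix.sum_apply]
    have h1 : ∀ a, (s a * W.pj Z a) x' x = if a = W.deg Z x then s (W.deg Z x) x' x else 0 := by
      intro a
      rw [mul_pj_apply]
      by_cases h : W.deg Z x = a
      · rw [if_pos h, if_pos h.symm, h]
      · rw [if_neg h, if_neg (Ne.symm h)]
    simp only [h1]
    rw [Finset.sum_ite_eq', if_pos]
    exact Finset.mem_range.2 (Nat.lt_succ_of_le (W.deg_le Z x))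
  obtain ⟨P, hP⟩ : ∃ P, P = W.pr Z Z := ⟨_, rfl⟩
  have hdV := W.dim_prod Z Z
  intro M hM j hj
  obtain ⟨n0, hn0⟩ : ∃ n0, n0 = 2 * W.dim (W.prod Z Z) - j := ⟨_, rfl⟩
  obtain ⟨ρ, hρ⟩ : ∃ ρ, ρ = (σ ⊗ₖ σ).submatrix P.symm P.symm * W.pj (W.prod Z Z) n0 := ⟨_, rfl⟩
  have hρm : ρ ∈ W.cyc (W.prod Z Z) (W.prod Z Z) ((j : ℤ) - W.dim (W.prod Z Z)) := by
    have h1 : ρ = ∑ a ∈ Finset.range (n0 + 1), (Matrix.of fun b c =>
        (s a * W.pj Z a) ((W.pr Z Z).symm b).1 ((W.pr Z Z).symm c).1 *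
        (s (n0 - a) * W.pj Z (n0 - a)) ((W.pr Z Z).symm b).2 ((W.pr Z Z).symm c).2) := by
      ext b c
      rw [hρ, mul_pj_apply, Matrix.sum_apply]
      obtain ⟨⟨x, y⟩, rfl⟩ := (W.pr Z Z).surjective c
      obtain ⟨⟨x', y'⟩, rfl⟩ := (W.pr Z Z).surjective b
      rw [W.deg_prod, Matrix.submatrix_apply, hP]
      simp only [Matrix.of_apply, Equiv.symm_apply_apply, Matrix.kronecker_apply, mul_pj_apply]
      have h2 : ∀ a, ((if W.deg Z x = a then s a x' x else 0) *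
          if W.deg Z y = n0 - a then s (n0 - a) y' y else 0) =
          if a = W.deg Z x then (if W.deg Z y = n0 - W.deg Z x then
            s (W.deg Z x) x' x * s (W.deg Z y) y' y else 0) else 0 := by
        intro a
        by_cases h : W.deg Z x = a
        · subst h
          rw [if_pos rfl, if_pos rfl]
          split_ifs with h3
          · rw [h3]
          · rw [mul_zero]
        · rw [if_neg h, if_neg (Ne.symm h), zero_mul]
      simp only [h2]
      rw [Finset.sum_ite_eq', hentry, hentry]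
      by_cases h3 : W.deg Z x + W.deg Z y = n0
      · rw [if_pos h3, if_pos (Finset.mem_range.2 (by omega)), if_pos (by omega)]
      · rw [if_neg h3]
        split_ifs with h4 h5
        · exact absurd (by have := Finset.mem_range.1 h4; omega) h3
        · rfl
        · rfl
    rw [h1]
    refine Submodule.sum_mem _ fun a ha => ?_
    by_cases hbig : 2 * W.dim Z < a ∨ 2 * W.dim Z < n0 - a
    · have hz : ∀ c, 2 * W.dim Z < c → W.pj Z c = 0 := by
        intro c hc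
        ext b b'
        rw [pj_apply, if_neg]
        · rfl
        · rintro ⟨-, h3⟩
          have := W.deg_le Z b
          omega
      have h3 : (Matrix.of fun b c =>
        (s a * W.pj Z a) ((W.pr Z Z).symm b).1 ((W.pr Z Z).symm c).1 *
        (s (n0 - a) * W.pj Z (n0 - a)) ((W.pr Z Z).symm b).2 ((W.pr Z Z).symm c).2) = 0 := by
        ext b c
        rw [Matrix.of_apply, Matrix.zero_apply]
        rcases hbig with h4 | h4
        · rw [hz a h4, mul_zero, Matrix.zero_apply, zero_mul]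
        · rw [hz _ h4, mul_zero, Matrix.zero_apply, mul_zero]
      rw [h3]
      exact Submodule.zero_mem _
    · push Not at hbig
      have ha' := Finset.mem_range.1 ha
      have k1 := mul_mem0' W Z (hs a hbig.1).1 (W.kunneth Z a)
      have k2 := mul_mem0' W Z (hs (n0 - a) hbig.2).1 (W.kunneth Z (n0 - a))
      have k3 := W.kron_mem Z Z Z Z _ _ _ k1 _ k2
      have e : (W.dim Z : ℤ) - a + ((W.dim Z : ℤ) - ((n0 - a : ℕ) : ℤ)) =
          (j : ℤ) - W.dim (W.prod Z Z) := by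
        rw [hdV] at hn0 hj ⊢
        push_cast
        omega
      rw [e] at k3
      exact k3
  refine inv_of_inj W (W.prod Z Z) hj hM hρm fun w hw h0 => ?_
  rw [← hn0] at hw
  rw [hρ, ← Matrix.mulVec_mulVec, pj_of W _ hw] at h0
  have h1 : (τ ⊗ₖ τ).submatrix P.symm P.symm * (σ ⊗ₖ σ).submatrix P.symm P.symm = 1 := by
    rw [Matrix.submatrix_mul_equiv, ← Matrix.mul_kronecker_mul, hτ, Matrix.one_kronecker_one,
      Matrix.submatrix_one_equiv]
  have h2 := congrArg (fun v => (τ ⊗ₖ τ).submatrix P.symm P.symm *ᵥ v) h0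
  beta_reduce at h2
  rw [Matrix.mulVec_mulVec, h1, Matrix.one_mulVec, Matrix.mulVec_zero] at h2
  exact h2

/-- `B(V)` implies that the powers of the ample classes are regular -/
theorem reg_of_b (V : W.Var 0) (hB : W.B V) {L : Matrix (Fin (W.rk V)) (Fin (W.rk V)) K}
    (hL : L ∈ W.Lef V) (r j : ℕ) : Reg W V L r j := by
  by_cases hbig : 2 * W.dim V < j + 2 * r
  · exact reg_big hL hbig
  have hLc := W.Lef_mem V L hL
  by_cases hj : j + r ≤ W.dim V
  · obtain ⟨θ, hθ1, hθ2⟩ := hB L hL j (by omega)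
    refine ⟨θ * L ^ (W.dim V - j - r), ?_, ?_⟩
    · have h1 := W.mul_mem V V V _ _ _ (pow_mem W V hLc (W.dim V - j - r)) _ hθ1
      have e : ((W.dim V - j - r : ℕ) : ℤ) + ((j : ℤ) - W.dim V) = -(r : ℤ) := by omega
      rwa [e] at h1
    · have e : W.dim V - j - r + r = W.dim V - j := by omega
      rw [← mul_assoc (L ^ r) θ, mul_assoc _ _ (L ^ r), ← pow_add, e, mul_assoc, mul_assoc,
        ← mul_assoc θ, hθ2]
  · obtain ⟨a, ha⟩ : ∃ a, a + (j + 2 * r) = 2 * W.dim V := ⟨2 * W.dim V - (j + 2 * r), by omega⟩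
    obtain ⟨θ, hθ1, hθ2⟩ := hB L hL a (by omega)
    refine ⟨L ^ (W.dim V - a - r) * θ, ?_, ?_⟩
    · have h1 := W.mul_mem V V V _ _ _ hθ1 _ (pow_mem W V hLc (W.dim V - a - r))
      have e : ((a : ℤ) - W.dim V) + ((W.dim V - a - r : ℕ) : ℤ) = -(r : ℤ) := by omega
      rwa [e] at h1
    · refine mat_ext W V V fun i v hv => ?_
      simp only [← Matrix.mulVec_mulVec]
      by_cases hi : i = j
      · subst hi
        rw [pj_of W V hv]
        have h4 : W.InH V (2 * W.dim V - a) (L ^ r *ᵥ v) :=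
          inH_mulVec W V V (pow_deg V hLc r) (by omega) hv
        have h5 := inv_vec' W V hL (by omega) hθ2 h4
        rw [Matrix.mulVec_mulVec _ (L ^ r) (L ^ (W.dim V - a - r)), ← pow_add]
        have e : r + (W.dim V - a - r) = W.dim V - a := by omega
        rw [e, h5]
      · rw [pj_not W V hi hv]
        simp only [Matrix.mulVec_zero]

/-- `B(Z)` implies the Künneth conjecture for the generic complete intersections in `Z × Z` -/
theorem c_of_b (hB : W.B Z) {M : Matrix (Fin (W.rk (W.prod Z Z))) (Fin (W.rk (W.prod Z Z))) K}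
    (hM : M ∈ W.Lef (W.prod Z Z)) {r m : ℕ} {T : W.Var m}
    (S : W.Inter (W.prod Z Z) M r T) : W.C T :=
  c_of_reg S hM fun j _ => reg_of_b W (W.prod Z Z) (b_prod W Z hB) hM r j

end

end Pool.Agent.H64.CC
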