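import Mathlib
import Pool.Agent.H64.CC.Weil
import Pool.Agent.H64.CC.Main
import Pool.Agent.H64.CC.Prod

/-!
# The theorem for `Weil`
-/

set_option autoImplicit false

open Matrix

namespace Pool.Agent.H64.CC

variable {K : Type} [Field K] [CharZero K]

section

variable (W : Weil K) (h : W.Theory)

/-- the theory in the first form -/
def toTheory : Theory K where
  Var := W.Var
  dim := W.dim
  rk := W.rk
  deg := W.deg
  alg := W.alg
  cyc := W.cyc
  Lef := W.Lef
  prod := W.prod
  pr := W.pr
  deg_le := h.calculus.deg_le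
  alg_deg := h.calculus.alg_deg
  cyc_deg := h.calculus.cyc_deg
  one_mem := h.calculus.one_mem
  mul_mem := h.calculus.comp_mem
  act_mem := h.calculus.ap_mem
  trace_formula := h.calculus.trace_formula
  dim_prod := h.products.dim_prod
  deg_prod := h.products.deg_prod
  kron_mem := h.products.ext_mem
  ptr_right := h.products.ptrRight_mem
  ptr_left := h.products.ptrLeft_mem
  Lef_nonempty := h.lefschetz.nonempty
  Lef_mem := h.lefschetz.mem
  hard_inj := h.lefschetz.inj
  hard_surj := fun X L hL i hi v hv => h.lefschetz.surj X L hL i hi v (fun a ha => by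
    have := hv a ha
    omega)
  Lef_prod := h.lefschetz.box_mem
  kunneth := h.katzMessing

/-- the complete intersection in the first form -/
def int {m : ℕ} {V : W.Var 0} {L : W.Hom V V} {r : ℕ} {T : W.Var m}
    (S : W.Intersection V L r T) : (toTheory W h).Inter V L r T where
  N := S.N
  up := S.up
  down := S.down
  N_pos := S.N_pos
  dim_eq := S.dim_eq
  up_deg := S.up_deg
  down_deg := S.down_deg
  down_up := by
    have := S.down_up
    rw [Weil.rat, Rat.cast_natCast] at this
    exact this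
  weak := S.inj_up
  surj := S.surj_up
  inj_down := S.inj_down
  restrict := S.restrict

/-- the generic complete intersection in the first form -/
def gs {m : ℕ} {V : W.Var 0} {L : W.Hom V V} {r : ℕ} {T : W.Var m}
    (S : W.GenericIntersection V L r T) : (toTheory W h).GenericSection V L r T where
  toInter := int W h S.toIntersection
  Gal := S.Gal
  vanishing := S.vanishing
  Gal_deg := S.Gal_deg
  cycles := S.cycles

theorem gs_to {m : ℕ} (V : W.Var 0) (L : W.Hom V V) (r : ℕ) (T : W.Var m)
    (S : Nonempty (W.GenericIntersection V L r T)) :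
    Nonempty ((toTheory W h).GenericSection V L r T) := by
  obtain ⟨S⟩ := S
  exact ⟨gs W h S⟩

/-- the transposition in the first form -/
def dual {V : W.Var 0} (D : W.Transposition V) : Dual (toTheory W h) V where
  tp := D.t
  anti := D.anti
  mem := D.mem
  lef := D.lef
  pj := D.pj

theorem models_to (hM : W.Models) : (toTheory W h).Models := by
  intro n X L hL
  obtain ⟨D, V, ⟨S⟩⟩ := hM n X L hL
  exact ⟨{ X₀ := D.X₀
           V := V
           s := D.s
           s' := D.s'
           mon := D.mon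
           M := S.M
           h := S.h
           j := S.j_lin.mk' S.j
           k := S.k_lin.mk' S.k
           dim_X₀ := D.dim_eq
           dim_V := S.dim_eq
           left_inv := D.left_inv
           right_inv := D.right_inv
           s_deg := D.s_deg
           s_Lef := D.s_Lef
           mon_prop := D.mon_prop
           M_mem := S.fib.ample
           h_mem := S.fib.mem
           comm := S.fib.comm
           h_sq := S.fib.sq_eq
           rel := ⟨S.fib.rel.inj, S.fib.rel.surj, S.fib.rel.mid⟩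
           j_alg := S.j_alg
           k_alg := S.k_alg
           j_zero := S.j_zero
           fixed := S.fixed }⟩

theorem sections_to (hS : W.Sections) : (toTheory W h).Sections := by
  intro V r hr hr2 L hL
  obtain ⟨m, T, hT⟩ := hS V L hL r hr hr2
  exact ⟨m, T, gs_to W h V L r T hT⟩

theorem bdeg_iff {n : ℕ} (X : W.Var n) (i : ℕ) : BDeg (toTheory W h) X i ↔ W.BDeg X i := Iff.rfl

theorem b_iff {n : ℕ} (X : W.Var n) : (toTheory W h).B X ↔ W.B X :=
  ⟨fun H i hi L hL => H L hL i hi, fun H L hL i hi => H i hi L hL⟩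

theorem nontriv_iff (Z : W.Var 0) (i : ℕ) : Nontriv (toTheory W h) Z i ↔ W.Nontriv Z i := by
  constructor
  · rintro ⟨L, hL, H⟩
    exact ⟨L, hL, fun e he => H e he.1 he.2.1 he.2.2.1 he.2.2.2.1 he.2.2.2.2⟩
  · rintro ⟨L, hL, H⟩
    exact ⟨L, hL, fun e he h1 h2 h3 h4 => H e ⟨he, h1, h2, h3, h4⟩⟩

theorem sign_to (Z : W.Var 0) (i : ℕ) (H : W.SignSquare Z i) : SignSquare (toTheory W h) Z i := by
  obtain ⟨L, hL, m, T, hT, hC⟩ := H
  exact ⟨L, hL, m, T, gs_to W h _ _ _ T hT, hC⟩

include h in
/-- one variety and one degree -/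
theorem point (Z : W.Var 0) (i : ℕ) (hi : i < W.dim Z) :
    (W.SignSquare Z i → W.BDeg Z i) ∧ (W.BDeg Z i ↔ W.Nontriv Z i) := by
  refine ⟨fun H => bdeg_of_sign (toTheory W h) Z hi (sign_to W h Z i H), ?_⟩
  rw [← nontriv_iff W h Z i]
  exact ⟨fun H => nontriv_of_bdeg (toTheory W h) Z H,
    fun H => bdeg_of_nontriv (toTheory W h) Z hi.le H⟩

include h in
theorem b_of_sign (Z : W.Var 0) (H : ∀ i < W.dim Z, W.SignSquare Z i) : W.B Z :=
  (b_iff W h Z).1 (b_of_bdeg (toTheory W h) Z fun i hi =>
    bdeg_of_sign (toTheory W h) Z hi (sign_to W h Z i (H i hi)))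

include h in
theorem sign_exists (hS : W.Sections) (Z : W.Var 0) (i : ℕ) (hi : i < W.dim Z) :
    ∃ L ∈ W.Lef Z, ∃ (m : ℕ) (T : W.Var m),
      Nonempty (W.GenericIntersection (W.prod Z Z) (W.box L L) (2 * (W.dim Z - i) - 1) T) := by
  obtain ⟨L, hL⟩ := h.lefschetz.nonempty Z
  obtain ⟨m, T, hT⟩ := hS (W.prod Z Z) (W.box L L) (h.lefschetz.box_mem Z Z L hL L hL)
    (2 * (W.dim Z - i) - 1) (by omega) (by rw [h.products.dim_prod]; omega)
  exact ⟨L, hL, m, T, hT⟩

include h in
/-- one variety -/
theorem local' (hS : W.Sections) (Z : W.Var 0) :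
    List.TFAE [
      W.B Z,
      ∀ (m : ℕ) (T : W.Var m), W.IsIntersection (W.prod Z Z) T → W.C T,
      ∀ (m : ℕ) (T : W.Var m), W.IsGeneric (W.prod Z Z) T → W.Cplus T,
      ∀ i < W.dim Z, W.SignSquare Z i,
      ∀ i < W.dim Z, W.Nontriv Z i] := by
  tfae_have 1 → 2 := by
    rintro H m T ⟨L, hL, r, -, ⟨S⟩⟩
    exact c_of_b (toTheory W h) Z ((b_iff W h Z).2 H) hL (int W h S)
  tfae_have 2 → 3 := by
    rintro H m T ⟨L, hL, r, hr, ⟨S⟩⟩
    exact cplus_of_c (toTheory W h) T (H m T ⟨L, hL, r, hr, ⟨S.toIntersection⟩⟩)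
  tfae_have 3 → 4 := by
    intro H i hi
    obtain ⟨L, hL, m, T, hT⟩ := sign_exists W h hS Z i hi
    exact ⟨L, hL, m, T, hT, H m T ⟨_, h.lefschetz.box_mem Z Z L hL L hL, _, by omega, hT⟩⟩
  tfae_have 4 → 1 := b_of_sign W h Z
  tfae_have 5 ↔ 1 := by
    constructor
    · intro H
      exact (b_iff W h Z).1 (b_of_bdeg (toTheory W h) Z fun i hi =>
        (point W h Z i hi).2.2 (H i hi))
    · exact fun H i hi => (point W h Z i hi).2.1 (H i hi.le)
  tfae_finish

include h in
/-- bounded dimension -/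
theorem bounded (hS : W.Sections) (i : ℕ)
    (H : ∀ (n : ℕ) (T : W.Var n), W.dim T = 2 * i + 1 → W.Cplus T) (Z : W.Var 0)
    (hi : i ≤ W.dim Z) : W.BDeg Z i :=
  bdeg_of_dim (toTheory W h) (sections_to W h hS) i H Z hi

include h in
/-- the sign conjecture in bounded dimension -/
theorem graded' (hS : W.Sections) (hM : W.Models) (n d : ℕ)
    (H : ∀ (m : ℕ) (T : W.Var m), Odd (W.dim T) → W.dim T + 3 ≤ 2 ^ (n + 1) * (d + 1) →
      W.Cplus T) (X : W.Var n) (hX : W.dim X = d) : W.C X ∧ W.B X := by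
  have h0 := graded (toTheory W h) (sections_to W h hS) (models_to W h hM) n d H X hX
  exact ⟨h0.1, (b_iff W h X).1 h0.2⟩

include h in
/-- the global form -/
theorem main' (hS : W.Sections) (hM : W.Models) :
    List.TFAE [
      ∀ (n : ℕ) (X : W.Var n), W.Cplus X,
      ∀ Z : W.Var 0, W.B Z,
      ∀ (n : ℕ) (X : W.Var n), W.C X ∧ W.B X] := by
  have h0 := main (toTheory W h) (sections_to W h hS) (models_to W h hM)
  have e1 : (∀ (n : ℕ) (X : (toTheory W h).Var n), (toTheory W h).Cplus X) ↔
      ∀ (n : ℕ) (X : W.Var n), W.Cplus X := Iff.rfl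
  tfae_have 2 ↔ 1 :=
    (forall_congr' fun Z => (b_iff W h Z).symm).trans ((h0.out 3 0).trans e1)
  tfae_have 3 ↔ 1 :=
    (forall_congr' fun n => forall_congr' fun X => and_congr_right fun _ =>
      (b_iff W h X).symm).trans ((h0.out 4 0).trans e1)
  tfae_finish

section intersections

variable {V : W.Var 0} (D : W.Transposition V) {L : W.Hom V V} (hL : L ∈ W.Lef V) {r m : ℕ}
  {T : W.Var m} (S : W.GenericIntersection V L r T)

include h D hL S in
theorem cplus_crit (hr : 1 ≤ r) :
    List.TFAE [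
      W.Cplus T,
      ∀ j, ¬ (Even j ↔ Even (W.dim T)) → W.pj T j ∈ W.cyc T T 0,
      ∀ j < W.dim T, ¬ (Even j ↔ Even (W.dim T)) → W.LeftInverse V L r j,
      ∀ j < W.dim T, ¬ (Even j ↔ Even (W.dim T)) → W.NumInjective V L r j] := by
  have h0 := cplus_tfae (dual W h D) hL hr (gs W h S)
  tfae_have 1 ↔ 2 := h0.out 0 1
  tfae_have 1 ↔ 3 := h0.out 0 2
  tfae_have 3 ↔ 4 := by
    refine Iff.trans (h0.out 2 3) ?_
    refine forall_congr' fun j => forall_congr' fun _ => forall_congr' fun _ => ?_
    exact ⟨fun H e he => H e he.1 he.2.1 he.2.2.1 he.2.2.2.1 he.2.2.2.2,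
      fun H e he h1 h2 h3 h4 => H e ⟨he, h1, h2, h3, h4⟩⟩
  tfae_finish

include h D hL S in
theorem c_crit (hr : 1 ≤ r) :
    List.TFAE [
      W.C T,
      ∀ j < W.dim T, W.LeftInverse V L r j,
      ∀ j < W.dim T, W.NumInjective V L r j] := by
  have h0 := c_tfae (dual W h D) hL hr (gs W h S)
  tfae_have 1 ↔ 2 := h0.out 0 1
  tfae_have 2 ↔ 3 := by
    refine Iff.trans (h0.out 1 2) ?_
    refine forall_congr' fun j => forall_congr' fun _ => ?_
    exact ⟨fun H e he => H e he.1 he.2.1 he.2.2.1 he.2.2.2.1 he.2.2.2.2,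
      fun H e he h1 h2 h3 h4 => H e ⟨he, h1, h2, h3, h4⟩⟩
  tfae_finish

include h D hL S in
theorem pair_crit (hr : 1 ≤ r) {m' : ℕ} {T' : W.Var m'}
    (S' : W.GenericIntersection V L (r + 1) T') (h1 : W.Cplus T) (h2 : W.Cplus T') : W.C T :=
  c_of_pair (dual W h D) hL hr (gs W h S) (gs W h S') h1 h2

theorem of_gs {m : ℕ} {V : W.Var 0} {L : W.Hom V V} {r : ℕ} {T : W.Var m}
    (S : Nonempty ((toTheory W h).GenericSection V L r T)) :
    Nonempty (W.GenericIntersection V L r T) := by
  obtain ⟨S⟩ := S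
  exact ⟨{ N := S.N
           up := S.up
           down := S.down
           N_pos := S.N_pos
           dim_eq := S.dim_eq
           up_deg := S.up_deg
           down_deg := S.down_deg
           down_up := by
            have := S.down_up
            rw [Weil.rat, Rat.cast_natCast]
            exact this
           inj_up := S.weak
           surj_up := S.surj
           inj_down := S.inj_down
           restrict := S.restrict
           Gal := S.Gal
           vanishing := S.vanishing
           Gal_deg := S.Gal_deg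
           cycles := S.cycles }⟩

include h D hL in
theorem all_crit (hE : ∀ r, 1 ≤ r → r < W.dim V → ∃ (m : ℕ) (T : W.Var m),
      Nonempty (W.GenericIntersection V L r T)) :
    List.TFAE [
      ∀ (r m : ℕ) (T : W.Var m), 1 ≤ r → Nonempty (W.GenericIntersection V L r T) → W.Cplus T,
      ∀ (r m : ℕ) (T : W.Var m), 1 ≤ r → Nonempty (W.GenericIntersection V L r T) → W.C T,
      ∀ j, j + 1 < W.dim V → W.LeftInverse V L (W.dim V - 1 - j) j,
      ∀ j, j + 1 < W.dim V → W.NumInjective V L (W.dim V - 1 - j) j] := by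
  have h0 := all_tfae (dual W h D) hL (fun r hr hr2 => by
    obtain ⟨m, T, hT⟩ := hE r hr hr2
    exact ⟨m, T, gs_to W h V L r T hT⟩)
  tfae_have 1 → 3 := fun H => (h0.out 0 2).1 fun r m T hr S => H r m T hr (of_gs W h S)
  tfae_have 3 → 2 := by
    intro H r m T hr S
    have k1 : ∀ (r m : ℕ) (T : (toTheory W h).Var m), 1 ≤ r →
        Nonempty ((toTheory W h).GenericSection V L r T) → (toTheory W h).C T :=
      (h0.out 2 1).1 H
    exact k1 r m T hr (gs_to W h V L r T S)
  tfae_have 2 → 1 := fun H r m T hr S => cplus_of_c (toTheory W h) T (H r m T hr S)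
  tfae_have 3 ↔ 4 := by
    refine Iff.trans (h0.out 2 3) ?_
    refine forall_congr' fun j => forall_congr' fun _ => ?_
    exact ⟨fun H e he => H e he.1 he.2.1 he.2.2.1 he.2.2.2.1 he.2.2.2.2,
      fun H e he h1 h2 h3 h4 => H e ⟨he, h1, h2, h3, h4⟩⟩
  tfae_finish

end intersections

end

end Pool.Agent.H64.CC
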