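import Pool.Agent.H64.CC.Weil

/-!
# Comparison of two Weil cohomologies
-/

set_option autoImplicit false

namespace Pool.Agent.H64.CC

/-- The comparison of two Weil cohomologies `W` and `W'` of the same varieties, for instance `ℓ`-adic
and crystalline cohomology:

* `Same X X'`: `X` and `X'` are the same variety;
* `Cyc X X' r f f'`: the maps `f` of `H(X)` and `f'` of `H'(X)` are induced by the same cycle with
  rational coefficients on `X × X`, of codimension `dim X + r`;
* `total_left`, `total_right`: both cohomologies are defined for all varieties;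
* `cyc_left`, `cyc_right`, `sub`, `comp`, `id`, `lef_left`, `lef_right`: the maps of `cyc` and `Lef`
  are the maps which are induced by the cycles and by the ample line bundles, and the difference
  and the composition of correspondences are defined by operations on cycles;
* `trace`: the alternating trace is the intersection number of the cycle with the diagonal;
* `kunneth`: over `F 0` the Künneth projectors of both cohomologies are induced by the same cycle, a
  polynomial in the Frobenius endomorphism (Katz and Messing). -/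
structure Comparison {K K' : Type} [Field K] [CharZero K] [Field K'] [CharZero K']
    (W : Weil K) (W' : Weil K') where
  Same : ∀ {n : ℕ}, W.Var n → W'.Var n → Prop
  Cyc : ∀ {n : ℕ} (X : W.Var n) (X' : W'.Var n), ℤ → W.Hom X X → W'.Hom X' X' → Prop
  total_left : ∀ {n : ℕ} (X : W.Var n), ∃ X' : W'.Var n, Same X X'
  total_right : ∀ {n : ℕ} (X' : W'.Var n), ∃ X : W.Var n, Same X X'
  dim_eq : ∀ {n : ℕ} {X : W.Var n} {X' : W'.Var n}, Same X X' → W.dim X = W'.dim X'
  cyc_left : ∀ {n : ℕ} {X : W.Var n} {X' : W'.Var n}, Same X X' → ∀ (r : ℤ),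
    ∀ f ∈ W.cyc X X r, ∃ f' ∈ W'.cyc X' X' r, Cyc X X' r f f'
  cyc_right : ∀ {n : ℕ} {X : W.Var n} {X' : W'.Var n}, Same X X' → ∀ (r : ℤ),
    ∀ f' ∈ W'.cyc X' X' r, ∃ f ∈ W.cyc X X r, Cyc X X' r f f'
  sub : ∀ {n : ℕ} {X : W.Var n} {X' : W'.Var n}, Same X X' → ∀ {r : ℤ} {f g : W.Hom X X}
    {f' g' : W'.Hom X' X'}, Cyc X X' r f f' → Cyc X X' r g g' → Cyc X X' r (f - g) (f' - g')
  comp : ∀ {n : ℕ} {X : W.Var n} {X' : W'.Var n}, Same X X' → ∀ {r s : ℤ} {f g : W.Hom X X}
    {f' g' : W'.Hom X' X'}, Cyc X X' r f f' → Cyc X X' s g g' →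
    Cyc X X' (r + s) (W.comp g f) (W'.comp g' f')
  id : ∀ {n : ℕ} {X : W.Var n} {X' : W'.Var n}, Same X X' → Cyc X X' 0 (W.id X) (W'.id X')
  lef_left : ∀ {n : ℕ} {X : W.Var n} {X' : W'.Var n}, Same X X' →
    ∀ L ∈ W.Lef X, ∃ L' ∈ W'.Lef X', Cyc X X' 1 L L'
  lef_right : ∀ {n : ℕ} {X : W.Var n} {X' : W'.Var n}, Same X X' →
    ∀ L' ∈ W'.Lef X', ∃ L ∈ W.Lef X, Cyc X X' 1 L L'
  trace : ∀ {n : ℕ} {X : W.Var n} {X' : W'.Var n}, Same X X' → ∀ (f : W.Hom X X)
    (f' : W'.Hom X' X'), Cyc X X' 0 f f' → ∃ q : ℚ, W.str f = (q : K) ∧ W'.str f' = (q : K')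
  kunneth : ∀ {Z : W.Var 0} {Z' : W'.Var 0}, Same Z Z' → ∀ i : ℕ,
    Cyc Z Z' 0 (W.pj Z i) (W'.pj Z' i)

end Pool.Agent.H64.CC
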