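import Mathlib
import Pool.Agent.H64.CC.Prod

/-!
# Varieties for which the Lefschetz conjecture holds up to one degree
-/

set_option autoImplicit false

open Matrix
open scoped Kronecker

namespace Pool.Agent.H64.CC

variable {K : Type} [Field K] [CharZero K]

/-- relative left inverses -/
theorem li_rel (W : Theory K) (X : W.Var 0) {p : Matrix (Fin (W.rk X)) (Fin (W.rk X)) K} {i : ℕ}
    (hp : p ∈ W.cyc X X 0) (hpp : p * p = p) (hpi : p * W.pj X i = p) {s t : ℤ} (hst : t + s = 0)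
    {G A : Matrix (Fin (W.rk X)) (Fin (W.rk X)) K} (hG : G ∈ W.cyc X X s)
    (hA : A ∈ W.cyc X X t) (hpG : p * G = G)
    (hinj : ∀ v, p *ᵥ v = v → G *ᵥ (A *ᵥ v) = 0 → v = 0) :
    ∃ c ∈ W.cyc X X s, c * A * p = p ∧ p * c = c := by
  obtain ⟨x, hx⟩ : ∃ x, x = G * A * p := ⟨_, rfl⟩
  have hxm : x ∈ W.cyc X X 0 := by
    have h1 := W.mul_mem X X X _ _ _ hp _ hA
    have h2 := W.mul_mem X X X _ _ _ h1 _ hG
    have e1 : (0 : ℤ) + t + s = 0 := by omega
    rwa [e1, ← mul_assoc, ← hx] at h2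
  have hxp : x * p = x := by rw [hx, mul_assoc, hpp]
  have hpx : p * x = x := by rw [hx, ← mul_assoc, ← mul_assoc, hpG]
  obtain ⟨g, a, hg⟩ := tRAT K (W.rk X) x (fun j => by
    refine rat_trace W X i (x ^ (j + 1)) (LEM.pow_mem0 hxm _) ?_
    rw [pow_succ, mul_assoc, ← hxp, mul_assoc x p, hpi])
  have hxi : ∀ v, p *ᵥ v = v → x *ᵥ v = 0 → v = 0 := by
    intro v hv h0
    refine hinj v hv ?_
    rw [hx, ← Matrix.mulVec_mulVec, ← Matrix.mulVec_mulVec, hv] at h0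
    exact h0
  have hpowi : ∀ (j : ℕ) (v), p *ᵥ v = v → x ^ j *ᵥ v = 0 → v = 0 := by
    intro j
    induction j with
    | zero => intro v _ h0; simpa using h0
    | succ j ih =>
      intro v hv h0
      rw [pow_succ, ← Matrix.mulVec_mulVec] at h0
      refine hxi v hv (ih _ ?_ h0)
      rw [Matrix.mulVec_mulVec, hpx]
  have hcomm : x * Polynomial.aeval x g = Polynomial.aeval x g * x := by
    have h1 : Polynomial.aeval x (Polynomial.X * g) = x * Polynomial.aeval x g := by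
      rw [map_mul, Polynomial.aeval_X]
    have h2 : Polynomial.aeval x (g * Polynomial.X) = Polynomial.aeval x g * x := by
      rw [map_mul, Polynomial.aeval_X]
    rw [← h1, ← h2, mul_comm]
  have hone : (1 - x * Polynomial.aeval x g) * p = 0 := by
    have h1 : p * ((1 - x * Polynomial.aeval x g) * p) =
        (1 - x * Polynomial.aeval x g) * p := by
      rw [← mul_assoc, mul_sub, mul_one, ← mul_assoc, hpx, sub_mul, hpp, sub_mul, one_mul]
    have h2 : x ^ a * ((1 - x * Polynomial.aeval x g) * p) = 0 := by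
      rw [← mul_assoc, hg, zero_mul]
    obtain ⟨y, hy⟩ : ∃ y, y = (1 - x * Polynomial.aeval x g) * p := ⟨_, rfl⟩
    rw [← hy] at h1 h2 ⊢
    refine Matrix.ext_of_mulVec_single fun c => ?_
    rw [Matrix.zero_mulVec]
    refine hpowi a _ ?_ ?_
    · rw [Matrix.mulVec_mulVec, h1]
    · rw [Matrix.mulVec_mulVec, h2, Matrix.zero_mulVec]
  refine ⟨p * (Polynomial.aeval x g * G), ?_, ?_, ?_⟩
  · exact mul_mem0 W X (mul_mem0 W X hG (aeval_cyc W X hxm g)) hp
  · have h3 : Polynomial.aeval x g * x = p := by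
      rw [sub_mul, one_mul, hcomm, mul_assoc, hxp, sub_eq_zero] at hone
      exact hone.symm
    calc p * (Polynomial.aeval x g * G) * A * p
        = p * (Polynomial.aeval x g * (G * A * p)) := by simp only [mul_assoc]
      _ = p := by rw [← hx, h3, hpp]
  · rw [← mul_assoc p p, hpp]

/-- correspondences and Künneth projectors -/
theorem pj_comm (W : Theory K) {n : ℕ} (X : W.Var n) {f : Matrix (Fin (W.rk X)) (Fin (W.rk X)) K}
    {r : ℤ} (hf : f ∈ W.cyc X X r) {a b : ℕ} (hab : (b : ℤ) = a + 2 * r) :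
    f * W.pj X a = W.pj X b * f := by
  ext c d
  rw [mul_pj_apply, Theory.pj, Matrix.diagonal_mul]
  by_cases h : f c d = 0
  · rw [h, ite_self, mul_zero]
  · have h1 := W.cyc_deg X X r f hf c d h
    by_cases h2 : W.deg X d = a
    · rw [if_pos h2, if_pos (by omega), one_mul]
    · rw [if_neg h2, if_neg (by omega), zero_mul]

theorem pj_mul_ne (W : Theory K) {n : ℕ} (X : W.Var n) {a b : ℕ} (hab : a ≠ b) :
    W.pj X a * W.pj X b = 0 := by
  ext c d
  rw [mul_pj_apply, pj_apply, Matrix.zero_apply]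
  split_ifs with h1 h2
  · exact absurd (by rw [← h2.2, h2.1, h1]) hab
  · rfl
  · rfl

theorem pj_big (W : Theory K) {n : ℕ} (X : W.Var n) {a : ℕ} (ha : 2 * W.dim X < a) :
    W.pj X a = 0 := by
  ext b b'
  rw [pj_apply, if_neg, Matrix.zero_apply]
  rintro ⟨-, h3⟩
  have := W.deg_le X b
  omega

/-- the Lefschetz conjecture holds for the complement of the summand `q`, which lies in the
degrees `≥ e` -/
structure Part (W : Theory K) (Y : W.Var 0) (L q : Matrix (Fin (W.rk Y)) (Fin (W.rk Y)) K)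
    (e : ℕ) : Prop where
  mem : q ∈ W.cyc Y Y 0
  idem : q * q = q
  comm : q * L = L * q
  deg : ∀ b a, q b a ≠ 0 → e ≤ W.deg Y a
  inv : ∀ a, a ≤ 2 * W.dim Y → ∃ s ∈ W.cyc Y Y ((W.dim Y : ℤ) - a), q * s = 0 ∧
    ∀ v, W.InH Y a v → q *ᵥ v = 0 → s *ᵥ v = 0 → v = 0

theorem part_of_b (W : Theory K) (Y : W.Var 0) (hB : W.B Y)
    (L : Matrix (Fin (W.rk Y)) (Fin (W.rk Y)) K) (e : ℕ) : Part W Y L 0 e where
  mem := Submodule.zero_mem _
  idem := mul_zero _
  comm := by rw [zero_mul, mul_zero]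
  deg := fun b a h => absurd rfl h
  inv := by
    obtain ⟨s, hs⟩ := sigma W Y hB
    intro a ha
    exact ⟨s a, (hs a ha).1, zero_mul _, fun v hv _ => (hs a ha).2 v hv⟩

theorem InH.sub {W : Theory K} {n : ℕ} {X : W.Var n} {i : ℕ} {v w : Fin (W.rk X) → K}
    (hv : W.InH X i v) (hw : W.InH X i w) : W.InH X i (v - w) := by
  rw [LEM.inH_iff] at hv hw ⊢
  exact hv.sub hw

theorem inH_big {W : Theory K} {n : ℕ} {X : W.Var n} {i : ℕ} (hi : 2 * W.dim X < i)
    {v : Fin (W.rk X) → K} (hv : W.InH X i v) : v = 0 := by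
  funext a
  by_contra h0
  have h1 := hv a h0
  have h2 := W.deg_le X a
  omega

theorem part_of_inv (W : Theory K) (Y : W.Var 0) {L : Matrix (Fin (W.rk Y)) (Fin (W.rk Y)) K}
    (hL : L ∈ W.Lef Y) (e : ℕ) (he : e + 2 ≤ W.dim Y)
    (hI : ∀ i, i < e + 2 → Inv W Y i L) : ∃ q, Part W Y L q (e + 2) := by
  obtain ⟨y, hy⟩ : ∃ y, y = W.dim Y := ⟨_, rfl⟩
  rw [← hy] at he
  have hLc := W.Lef_mem Y L hL
  choose! θ hθ1 hθ2 using hI
  rw [← hy] at hθ1 hθ2
  have hLp : ∀ (k : ℕ) {i j : ℕ}, j = i + 2 * k → ∀ {v}, W.InH Y i v → W.InH Y j (L ^ k *ᵥ v) :=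
    fun k i j hij v hv => inH_mulVec W Y Y (pow_deg Y hLc k) (by omega) hv
  have hθH : ∀ {i j : ℕ}, i < e + 2 → i + j = 2 * y → ∀ {v}, W.InH Y j v →
      W.InH Y i (θ i *ᵥ v) :=
    fun {i j} hi hij {v} hv => inH_mulVec W Y Y (W.cyc_deg Y Y _ _ (hθ1 i hi)) (by omega) hv
  have V1 : ∀ {i : ℕ}, i < e + 2 → ∀ {v}, W.InH Y i v → θ i *ᵥ (L ^ (y - i) *ᵥ v) = v := by
    intro i hi v hv
    have := inv_vec W Y (L := L) (i := i) (θ := θ i) (by rw [← hy]; exact hθ2 i hi) hv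
    rwa [← hy] at this
  have V2 : ∀ {i : ℕ}, i < e + 2 → ∀ {v}, W.InH Y (2 * y - i) v →
      L ^ (y - i) *ᵥ (θ i *ᵥ v) = v := by
    intro i hi v hv
    have := inv_vec' W Y hL (i := i) (θ := θ i) (by omega) (by rw [← hy]; exact hθ2 i hi)
      (v := v) (by rw [← hy]; exact hv)
    rwa [← hy] at this
  have hpow : ∀ (k l : ℕ) (v : Fin (W.rk Y) → K), L ^ k *ᵥ (L ^ l *ᵥ v) = L ^ (k + l) *ᵥ v := by
    intro k l v
    rw [Matrix.mulVec_mulVec, ← pow_add]
  -- the projector in degree `i + 2 s`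
  obtain ⟨u, hu⟩ : ∃ u : ℕ → ℕ → Matrix (Fin (W.rk Y)) (Fin (W.rk Y)) K,
      ∀ i s, u i s = L ^ s * (θ i * L ^ (y - i - s)) := ⟨_, fun _ _ => rfl⟩
  have hum : ∀ i s, i < e + 2 → i + s ≤ y → u i s ∈ W.cyc Y Y 0 := by
    intro i s hi hs
    rw [hu]
    have m := W.mul_mem Y Y Y _ _ _ (W.mul_mem Y Y Y _ _ _ (pow_mem W Y hLc (y - i - s)) _
      (hθ1 i hi)) _ (pow_mem W Y hLc s)
    have e1 : ((y - i - s : ℕ) : ℤ) + ((i : ℤ) - y) + (s : ℤ) = 0 := by omega
    rwa [e1] at m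
  have huv : ∀ i s v, u i s *ᵥ v = L ^ s *ᵥ (θ i *ᵥ (L ^ (y - i - s) *ᵥ v)) := by
    intro i s v
    rw [hu]
    simp only [Matrix.mulVec_mulVec]
  obtain ⟨i1, hi1⟩ : ∃ i1 : ℕ → ℕ, ∀ a, i1 a = e + (a - e) % 2 := ⟨_, fun _ => rfl⟩
  obtain ⟨s1, hs1⟩ : ∃ s1 : ℕ → ℕ, ∀ a, s1 a = (a - e) / 2 := ⟨_, fun _ => rfl⟩
  have his : ∀ a, e ≤ a → a = i1 a + 2 * s1 a ∧ i1 a < e + 2 ∧ e ≤ i1 a := by
    intro a ha
    rw [hi1, hs1]
    omega
  obtain ⟨q, hq⟩ : ∃ q, q = ∑ a ∈ (Finset.range (2 * y + 1)).filter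
      (fun a => e + 2 ≤ a ∧ a + (e + 2) ≤ 2 * y), (1 - u (i1 a) (s1 a)) * W.pj Y a := ⟨_, rfl⟩
  have hqm : q ∈ W.cyc Y Y 0 := by
    rw [hq]
    refine Submodule.sum_mem _ fun a ha => ?_
    obtain ⟨-, h2, h3⟩ := Finset.mem_filter.1 ha
    obtain ⟨k1, k2, k3⟩ := his a (by omega)
    exact mul_mem0' W Y (Submodule.sub_mem _ (W.one_mem Y) (hum _ _ k2 (by omega)))
      (W.kunneth Y a)
  have hqv : ∀ {a v}, W.InH Y a v → q *ᵥ v = if e + 2 ≤ a ∧ a + (e + 2) ≤ 2 * y then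
      v - L ^ (s1 a) *ᵥ (θ (i1 a) *ᵥ (L ^ (y - i1 a - s1 a) *ᵥ v)) else 0 := by
    intro a v hv
    have h1 : ∀ c, ((1 - u (i1 c) (s1 c)) * W.pj Y c) *ᵥ v = if c = a then
        v - L ^ (s1 a) *ᵥ (θ (i1 a) *ᵥ (L ^ (y - i1 a - s1 a) *ᵥ v)) else 0 := by
      intro c
      rw [← Matrix.mulVec_mulVec]
      split_ifs with hca
      · subst hca
        rw [pj_of W Y hv, Matrix.sub_mulVec, Matrix.one_mulVec, huv]
      · rw [pj_not W Y (Ne.symm hca) hv, Matrix.mulVec_zero]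
    rw [hq, Matrix.sum_mulVec]
    simp only [h1]
    rw [Finset.sum_ite_eq']
    by_cases h2 : e + 2 ≤ a ∧ a + (e + 2) ≤ 2 * y
    · rw [if_pos h2, if_pos]
      rw [Finset.mem_filter, Finset.mem_range]
      exact ⟨by omega, h2⟩
    · rw [if_neg h2, if_neg]
      rw [Finset.mem_filter]
      exact fun h => h2 h.2
  have hqHv : ∀ {a v}, W.InH Y a v → W.InH Y a (q *ᵥ v) := fun hv =>
    inH_mulVec W Y Y (W.cyc_deg Y Y _ _ hqm) (by simp) hv
  -- `q` vanishes on the images of `L ^ s`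
  have hq0 : ∀ {i s : ℕ} {v}, i < e + 2 → e ≤ i → i + s ≤ y → W.InH Y i v →
      q *ᵥ (L ^ s *ᵥ v) = 0 := by
    intro i s v hi hi2 hs hv
    have h1 := hLp s rfl hv
    rw [hqv h1]
    split_ifs with h2
    · obtain ⟨k1, k2, k3⟩ := his (i + 2 * s) (by omega)
      have e1 : i1 (i + 2 * s) = i := by omega
      have e2 : s1 (i + 2 * s) = s := by omega
      rw [e1, e2, hpow]
      have e3 : y - i - s + s = y - i := by omega
      rw [e3, V1 hi hv, sub_self]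
    · rfl
  have hidem : q * q = q := by
    refine mat_ext W Y Y fun a v hv => ?_
    rw [← Matrix.mulVec_mulVec]
    have h1 := hqv hv
    split_ifs at h1 with h2
    · obtain ⟨k1, k2, k3⟩ := his a (by omega)
      have h3 : q *ᵥ (L ^ (s1 a) *ᵥ (θ (i1 a) *ᵥ (L ^ (y - i1 a - s1 a) *ᵥ v))) = 0 :=
        hq0 k2 k3 (by omega) (hθH (j := 2 * y - i1 a) k2 (by omega) (hLp _ (by omega) hv))
      have h4 := congrArg (fun w => q *ᵥ w) h1
      beta_reduce at h4
      rw [h4, Matrix.mulVec_sub, h3, sub_zero]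
    · rw [h1, Matrix.mulVec_zero]
  have hcomm : q * L = L * q := by
    refine mat_ext W Y Y fun a v hv => ?_
    rw [← Matrix.mulVec_mulVec, ← Matrix.mulVec_mulVec]
    have hLv : W.InH Y (a + 2) (L *ᵥ v) := by
      have := hLp 1 (j := a + 2) (by omega) hv
      rwa [pow_one] at this
    by_cases h1 : e + 2 ≤ a ∧ a + (e + 2) ≤ 2 * y
    · obtain ⟨k1, k2, k3⟩ := his a (by omega)
      have h2 := hqv hv
      rw [if_pos h1] at h2
      rw [h2, Matrix.mulVec_sub, hqv hLv]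
      have e0 : L *ᵥ (L ^ (s1 a) *ᵥ (θ (i1 a) *ᵥ (L ^ (y - i1 a - s1 a) *ᵥ v))) =
          L ^ (s1 a + 1) *ᵥ (θ (i1 a) *ᵥ (L ^ (y - i1 a - s1 a) *ᵥ v)) := by
        rw [Matrix.mulVec_mulVec, ← pow_succ']
      have e4 : L ^ (y - i1 a - s1 a - 1) *ᵥ (L *ᵥ v) = L ^ (y - i1 a - s1 a) *ᵥ v := by
        rw [Matrix.mulVec_mulVec, ← pow_succ]
        congr 2
        omega
      rw [e0]
      obtain ⟨m1, m2, m3⟩ := his (a + 2) (by omega)
      have e1 : i1 (a + 2) = i1 a := by omega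
      have e2 : s1 (a + 2) = s1 a + 1 := by omega
      by_cases h3 : a + 2 + (e + 2) ≤ 2 * y
      · rw [if_pos ⟨by omega, h3⟩, e1, e2, ← Nat.sub_sub, e4]
      · rw [if_neg (by omega), ← e4]
        have e5 : y - i1 a - s1 a - 1 = 0 := by omega
        have e6 : s1 a + 1 = y - i1 a := by omega
        rw [e5, pow_zero, Matrix.one_mulVec, e6, V2 k2 (by
          have : a + 2 = 2 * y - i1 a := by omega
          rwa [← this]), sub_self]
    · have h2 := hqv hv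
      rw [if_neg h1] at h2
      rw [h2, Matrix.mulVec_zero]
      by_cases h3 : e + 2 ≤ a + 2 ∧ a + 2 + (e + 2) ≤ 2 * y
      · have := hq0 (i := a) (s := 1) (v := v) (by omega) (by omega) (by omega) hv
        rwa [pow_one] at this
      · rw [hqv hLv, if_neg h3]
  have hsq0 : q * (1 - q) = 0 := by rw [mul_sub, mul_one, hidem, sub_self]
  have hoff : ∀ {a v}, ¬ (e + 2 ≤ a ∧ a + (e + 2) ≤ 2 * y) → W.InH Y a v → q *ᵥ v = 0 :=
    fun h hv => by rw [hqv hv, if_neg h]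
  have h1qm : 1 - q ∈ W.cyc Y Y 0 := Submodule.sub_mem _ (W.one_mem Y) hqm
  refine ⟨q, hqm, hidem, hcomm, ?_, ?_⟩
  · intro b a hba
    by_contra hcon
    apply hba
    have h1 := hqv (inH_single W Y a)
    rw [if_neg (by omega), Matrix.mulVec_single_one] at h1
    exact congrFun h1 b
  · intro a ha
    rw [← hy] at ha ⊢
    suffices h : ∃ s ∈ W.cyc Y Y ((y : ℤ) - a), ∀ v, W.InH Y a v → q *ᵥ v = 0 →
        q *ᵥ (s *ᵥ v) = 0 ∧ (s *ᵥ v = 0 → v = 0) by
      obtain ⟨s, hs, h⟩ := h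
      refine ⟨(1 - q) * s, mul_mem0 W Y hs h1qm, ?_, ?_⟩
      · rw [← mul_assoc, hsq0, zero_mul]
      · intro v hv hv0 h0
        obtain ⟨g1, g2⟩ := h v hv hv0
        rw [← Matrix.mulVec_mulVec, Matrix.sub_mulVec, Matrix.one_mulVec, g1, sub_zero] at h0
        exact g2 h0
    by_cases h1 : a < e + 2
    · refine ⟨L ^ (y - a), ?_, ?_⟩
      · have := pow_mem W Y hLc (y - a)
        have e1 : ((y - a : ℕ) : ℤ) = (y : ℤ) - a := by omega
        rwa [e1] at this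
      · intro v hv hv0
        have hc : Commute q (L ^ (y - a)) := Commute.pow_right hcomm _
        refine ⟨?_, fun h0 => W.hard_inj Y L hL a (by omega) v hv (by rw [← hy]; exact h0)⟩
        rw [Matrix.mulVec_mulVec, hc.eq, ← Matrix.mulVec_mulVec, hv0, Matrix.mulVec_zero]
    by_cases h2 : a + (e + 2) ≤ 2 * y
    · obtain ⟨k1, k2, k3⟩ := his a (by omega)
      refine ⟨L ^ (y - i1 a - s1 a) * (θ (i1 a) * L ^ (y - i1 a - s1 a)), ?_, ?_⟩
      · have m := W.mul_mem Y Y Y _ _ _ (W.mul_mem Y Y Y _ _ _ (pow_mem W Y hLc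
          (y - i1 a - s1 a)) _ (hθ1 (i1 a) k2)) _ (pow_mem W Y hLc (y - i1 a - s1 a))
        have e1 : ((y - i1 a - s1 a : ℕ) : ℤ) + ((i1 a : ℤ) - y) + ((y - i1 a - s1 a : ℕ) : ℤ) =
            (y : ℤ) - a := by omega
        rwa [e1] at m
      · intro v hv hv0
        have h3 := hqv hv
        rw [if_pos ⟨by omega, h2⟩, hv0] at h3
        have h4 := (sub_eq_zero.1 h3.symm)
        have hw : W.InH Y (i1 a) (θ (i1 a) *ᵥ (L ^ (y - i1 a - s1 a) *ᵥ v)) :=
          hθH (j := 2 * y - i1 a) k2 (by omega) (hLp _ (by omega) hv)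
        rw [← Matrix.mulVec_mulVec, ← Matrix.mulVec_mulVec]
        refine ⟨hq0 k2 k3 (by omega) hw, fun h0 => ?_⟩
        have h5 := inj_pow Y hL (j := i1 a) (k := y - i1 a - s1 a) (by omega) hw h0
        rw [h4, h5, Matrix.mulVec_zero]
    · refine ⟨θ (2 * y - a), ?_, ?_⟩
      · have := hθ1 (2 * y - a) (by omega)
        have e1 : ((2 * y - a : ℕ) : ℤ) - y = (y : ℤ) - a := by omega
        rwa [e1] at this
      · intro v hv hv0
        refine ⟨hoff (a := 2 * y - a) (by omega) (hθH (j := a) (by omega) (by omega) hv),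
          fun h0 => ?_⟩
        have h3 := V2 (i := 2 * y - a) (by omega) (v := v) (by
          have : 2 * y - (2 * y - a) = a := by omega
          rwa [this])
        rw [h0, Matrix.mulVec_zero] at h3
        exact h3.symm

end Pool.Agent.H64.CC
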