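import Mathlib
import Pool.Agent.H64.CC.Comp
import Pool.Agent.H64.CC.Part
import Pool.Agent.H64.CC.Bridge

/-!
# Independence of the Weil cohomology
-/

set_option autoImplicit false

open Matrix

namespace Pool.Agent.H64.CC

/-- a matrix over a field of characteristic zero whose powers have trace zero is nilpotent -/
theorem nil_of_trace {K : Type} [Field K] [CharZero K] {m : ℕ} (z : Matrix (Fin m) (Fin m) K)
    (h : ∀ k : ℕ, (z ^ (k + 1)).trace = 0) : ∃ N : ℕ, z ^ N = 0 := by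
  obtain ⟨g, a, hg⟩ := tRAT K m z fun k => ⟨0, by rw [h k, Rat.cast_zero]⟩
  obtain ⟨w, hw⟩ : ∃ w, w = Polynomial.aeval z g := ⟨_, rfl⟩
  rw [← hw] at hg
  have hcomm : Commute z w := by
    have h1 : Polynomial.aeval z (Polynomial.X * g) = z * w := by
      rw [map_mul, Polynomial.aeval_X, hw]
    have h2 : Polynomial.aeval z (g * Polynomial.X) = w * z := by
      rw [map_mul, Polynomial.aeval_X, hw]
    show z * w = w * z
    rw [← h1, ← h2, mul_comm]
  have hz : z ^ a * (z * w) = z ^ a := by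
    rw [mul_sub, mul_one, sub_eq_zero] at hg
    exact hg.symm
  have hz2 : ∀ k, z ^ a * (z * w) ^ k = z ^ a := by
    intro k
    induction k with
    | zero => rw [pow_zero, mul_one]
    | succ k ih => rw [pow_succ, ← mul_assoc, ih, hz]
  obtain ⟨e, he⟩ : ∃ e, e = (z * w) ^ (a + 1) := ⟨_, rfl⟩
  have he2 : e = z ^ (a + 1) * w ^ (a + 1) := by rw [he, hcomm.mul_pow]
  have hez : ∀ k, e * (z * w) ^ k = e := by
    intro k
    have h1 : e = z * w ^ (a + 1) * z ^ a := by
      rw [he2, pow_succ' z, mul_assoc, mul_assoc, (hcomm.pow_pow a (a + 1)).eq]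
    rw [h1, mul_assoc, hz2]
  have hee : e * e = e := by
    nth_rewrite 2 [he]
    exact hez _
  have htr : ∀ P : Polynomial ℚ, (z * Polynomial.aeval z P).trace = 0 := by
    intro P
    rw [Polynomial.aeval_eq_sum_range, Finset.mul_sum, Matrix.trace_sum]
    refine Finset.sum_eq_zero fun k _ => ?_
    rw [Matrix.mul_smul, ← pow_succ', Matrix.trace_smul, h k, smul_zero]
  have het : e.trace = 0 := by
    have h1 : e = z * Polynomial.aeval z (Polynomial.X ^ a * g ^ (a + 1)) := by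
      rw [he2, map_mul, map_pow, map_pow, Polynomial.aeval_X, ← hw, ← mul_assoc, ← pow_succ']
    rw [h1, htr]
  have he0 : e = 0 := by
    by_contra h0
    exact trace_idem_ne e hee h0 het
  refine ⟨a, ?_⟩
  rw [← hz2 (a + 1), ← he, he0, mul_zero]

theorem str_eq {K : Type} [Field K] [CharZero K] (W : Theory K) {n : ℕ} (X : W.Var n) (i : ℕ)
    (x : Matrix (Fin (W.rk X)) (Fin (W.rk X)) K) (h : x * W.pj X i = x) :
    ∑ a, (-1 : K) ^ W.deg X a * x a a = (-1) ^ i * x.trace := by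
  rw [Matrix.trace, Finset.mul_sum]
  refine Finset.sum_congr rfl fun a _ => ?_
  rw [Matrix.diag_apply]
  by_cases ha : W.deg X a = i
  · rw [ha]
  · have : x a a = 0 := by
      rw [← h, mul_pj_apply, if_neg ha]
    rw [this, mul_zero, mul_zero]

/-- left inverses do not depend on the cohomology -/
theorem li_core {K K' : Type} [Field K] [CharZero K] [Field K'] [CharZero K'] (W : Theory K)
    (W' : Theory K') (V : W.Var 0) (V' : W'.Var 0) (L : Matrix (Fin (W.rk V)) (Fin (W.rk V)) K)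
    (L' : Matrix (Fin (W'.rk V')) (Fin (W'.rk V')) K')
    (Cyc : ℤ → Matrix (Fin (W.rk V)) (Fin (W.rk V)) K →
      Matrix (Fin (W'.rk V')) (Fin (W'.rk V')) K' → Prop)
    (hleft : ∀ r, ∀ f ∈ W.cyc V V r, ∃ f' ∈ W'.cyc V' V' r, Cyc r f f')
    (hsub : ∀ r f g f' g', Cyc r f f' → Cyc r g g' → Cyc r (f - g) (f' - g'))
    (hcomp : ∀ r s f g f' g', Cyc r f f' → Cyc s g g' → Cyc (r + s) (g * f) (g' * f'))
    (hid : Cyc 0 1 1)
    (htr : ∀ f f', Cyc 0 f f' → ∃ q : ℚ, ∑ a, (-1 : K) ^ W.deg V a * f a a = (q : K) ∧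
      ∑ a, (-1 : K') ^ W'.deg V' a * f' a a = (q : K'))
    (hL' : L' ∈ W'.cyc V' V' 1) (hLL : Cyc 1 L L') {r j : ℕ}
    (hk : Cyc 0 (W.pj V j) (W'.pj V' j)) (H : LI W V L r j) : LI W' V' L' r j := by
  obtain ⟨c, hc1, hc3⟩ := H
  obtain ⟨c', hc1', hcc⟩ := hleft _ c hc1
  have hpow : ∀ k : ℕ, Cyc k (L ^ k) (L' ^ k) := by
    intro k
    induction k with
    | zero => rw [pow_zero, pow_zero]; exact hid
    | succ k ih =>
      have h1 := hcomp _ _ _ _ _ _ hLL ih
      have e : (1 : ℤ) + (k : ℤ) = ((k + 1 : ℕ) : ℤ) := by push_cast; ring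
      rw [e, ← pow_succ, ← pow_succ] at h1
      exact h1
  have s1 : Cyc 0 (c * L ^ r * W.pj V j) (c' * L' ^ r * W'.pj V' j) := by
    have k2 := hcomp _ _ _ _ _ _ hk (hcomp _ _ _ _ _ _ (hpow r) hcc)
    have e : (0 : ℤ) + ((r : ℤ) + -(r : ℤ)) = 0 := by ring
    rw [e] at k2
    exact k2
  rw [hc3] at s1
  have s2 := hsub _ _ _ _ _ hk s1
  rw [sub_self] at s2
  obtain ⟨z, hz⟩ : ∃ z, z = W'.pj V' j - c' * L' ^ r * W'.pj V' j := ⟨_, rfl⟩
  rw [← hz] at s2
  have hpp : W'.pj V' j * W'.pj V' j = W'.pj V' j := pj_mul W' V' j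
  have hzp : z * W'.pj V' j = z := by rw [hz, sub_mul, hpp, mul_assoc, hpp]
  have hzpow : ∀ k : ℕ, Cyc 0 ((0 : Matrix (Fin (W.rk V)) (Fin (W.rk V)) K) ^ k) (z ^ k) := by
    intro k
    induction k with
    | zero => rw [pow_zero, pow_zero]; exact hid
    | succ k ih =>
      have h1 := hcomp _ _ _ _ _ _ s2 ih
      rw [add_zero, ← pow_succ, ← pow_succ] at h1
      exact h1
  obtain ⟨N, hN⟩ := nil_of_trace z fun k => by
    obtain ⟨q, hq1, hq2⟩ := htr _ _ (hzpow (k + 1))
    rw [zero_pow (Nat.succ_ne_zero k)] at hq1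
    have hq3 : (q : K) = 0 := by
      rw [← hq1]
      simp
    have hq4 : q = 0 := by exact_mod_cast hq3
    rw [hq4, Rat.cast_zero, str_eq W' V' j (z ^ (k + 1)) (by rw [pow_succ, mul_assoc, hzp])]
      at hq2
    rcases mul_eq_zero.1 hq2 with h3 | h3
    · exact absurd h3 (pow_ne_zero _ (by norm_num))
    · exact h3
  have hpm := W'.kunneth V' j
  obtain ⟨d, hd1, hd2, -⟩ := li_rel W' V' (p := W'.pj V' j) (i := j) hpm hpp hpp
    (s := -(r : ℤ)) (t := r) (by omega) (G := W'.pj V' j * c') (A := L' ^ r)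
    (mul_mem0 W' V' hc1' hpm) (pow_mem W' V' hL' r) (by rw [← mul_assoc, hpp]) (by
      intro v hv h0
      have hvH : W'.InH V' j v := by
        rw [← hv]
        exact pj_inH W' V' j v
      have hzv : z *ᵥ v = v := by
        have h5 : W'.InH V' j (c' *ᵥ (L' ^ r *ᵥ v)) :=
          inH_mulVec W' V' V' (W'.cyc_deg V' V' _ c' hc1') (i := j + 2 * r) (by push_cast; ring)
            (inH_mulVec W' V' V' (pow_deg V' hL' r) (by push_cast; ring) hvH)
        rw [← Matrix.mulVec_mulVec, pj_of W' V' h5] at h0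
        rw [hz, Matrix.sub_mulVec, ← Matrix.mulVec_mulVec, ← Matrix.mulVec_mulVec,
          pj_of W' V' hvH, h0, sub_zero]
      have hpw : ∀ k : ℕ, z ^ k *ᵥ v = v := by
        intro k
        induction k with
        | zero => rw [pow_zero, Matrix.one_mulVec]
        | succ k ih => rw [pow_succ, ← Matrix.mulVec_mulVec, hzv, ih]
      rw [← hpw N, hN, Matrix.zero_mulVec])
  exact ⟨d, hd1, hd2⟩

/-- `B` in terms of left inverses -/
theorem inv_iff_li {K : Type} [Field K] [CharZero K] (W : Theory K) (Z : W.Var 0) {i : ℕ}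
    (hi : i ≤ W.dim Z) (L : Matrix (Fin (W.rk Z)) (Fin (W.rk Z)) K) :
    Inv W Z i L ↔ LI W Z L (W.dim Z - i) i := by
  have e : -((W.dim Z - i : ℕ) : ℤ) = (i : ℤ) - W.dim Z := by omega
  unfold LI
  rw [e]
  exact Iff.rfl

section

variable {K K' : Type} [Field K] [CharZero K] [Field K'] [CharZero K'] {W : Weil K}
  {W' : Weil K'} (h : W.Theory) (h' : W'.Theory) (R : Comparison W W')

include R in
theorem li_iff {V : W.Var 0} {V' : W'.Var 0} (hV : R.Same V V') {L : W.Hom V V}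
    {L' : W'.Hom V' V'} (hL : L ∈ W.Lef V) (hL' : L' ∈ W'.Lef V') (hLL : R.Cyc V V' 1 L L')
    {r j : ℕ} : LI (toTheory W h) V L r j ↔ LI (toTheory W' h') V' L' r j := by
  constructor
  · exact li_core (toTheory W h) (toTheory W' h') V V' L L' (R.Cyc V V') (R.cyc_left hV)
      (fun r f g f' g' => R.sub hV) (fun r s f g f' g' => R.comp hV) (R.id hV)
      (fun f f' => R.trace hV f f') (h'.lefschetz.mem V' L' hL') hLL (R.kunneth hV j)
  · exact li_core (toTheory W' h') (toTheory W h) V' V L' L (fun r f' f => R.Cyc V V' r f f')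
      (fun r f' hf' => R.cyc_right hV r f' hf')
      (fun r f' g' f g => R.sub hV) (fun r s f' g' f g => R.comp hV) (R.id hV)
      (fun f' f hf => by
        obtain ⟨q, h1, h2⟩ := R.trace hV f f' hf
        exact ⟨q, h2, h1⟩) (h.lefschetz.mem V L hL) hLL (R.kunneth hV j)

include h h' in
/-- `B` does not depend on the cohomology, over `F 0` -/
theorem b_same {Z : W.Var 0} {Z' : W'.Var 0} (hZ : R.Same Z Z') : W.B Z ↔ W'.B Z' := by
  have hd := R.dim_eq hZ
  constructor
  · intro H i hi L' hL'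
    obtain ⟨L, hL, hLL⟩ := R.lef_right hZ L' hL'
    have h1 := (inv_iff_li (toTheory W h) Z (i := i) (by rw [← hd] at hi; exact hi) L).1
      (H i (by rw [hd]; exact hi) L hL)
    have h2 := (li_iff h h' R hZ hL hL' hLL).1 h1
    refine (inv_iff_li (toTheory W' h') Z' (i := i) hi L').2 ?_
    have e : (toTheory W' h').dim Z' = (toTheory W h).dim Z := hd.symm
    rw [e]
    exact h2
  · intro H i hi L hL
    obtain ⟨L', hL', hLL⟩ := R.lef_left hZ L hL
    have h1 := (inv_iff_li (toTheory W' h') Z' (i := i) (by rw [hd] at hi; exact hi) L').1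
      (H i (by rw [← hd]; exact hi) L' hL')
    have e : (toTheory W' h').dim Z' = (toTheory W h).dim Z := hd.symm
    rw [e] at h1
    exact (inv_iff_li (toTheory W h) Z (i := i) hi L).2 ((li_iff h h' R hZ hL hL' hLL).2 h1)

include h h' R in
/-- generic complete intersections -/
theorem gi_same {V : W.Var 0} {V' : W'.Var 0} (hV : R.Same V V') (t : W.Transposition V)
    (t' : W'.Transposition V') {L : W.Hom V V} {L' : W'.Hom V' V'} (hL : L ∈ W.Lef V)
    (hL' : L' ∈ W'.Lef V') (hLL : R.Cyc V V' 1 L L') {r : ℕ} (hr : 1 ≤ r) {m m' : ℕ}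
    {T : W.Var m} {T' : W'.Var m'} (S : W.GenericIntersection V L r T)
    (S' : W'.GenericIntersection V' L' r T') :
    (W.Cplus T ↔ W'.Cplus T') ∧ (W.C T ↔ W'.C T') := by
  have hd : W.dim T = W'.dim T' := by
    have h1 := S.dim_eq
    have h2 := S'.dim_eq
    have h3 := R.dim_eq hV
    omega
  have a1 := (cplus_tfae (dual W h t) hL hr (gs W h S)).out 0 2
  have a2 := (cplus_tfae (dual W' h' t') hL' hr (gs W' h' S')).out 0 2
  have b1 := (c_tfae (dual W h t) hL hr (gs W h S)).out 0 1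
  have b2 := (c_tfae (dual W' h' t') hL' hr (gs W' h' S')).out 0 1
  have e : (toTheory W' h').dim T' = (toTheory W h).dim T := hd.symm
  rw [e] at a2 b2
  constructor
  · refine a1.trans (Iff.trans ?_ a2.symm)
    exact forall_congr' fun j => forall_congr' fun _ => forall_congr' fun _ =>
      li_iff h h' R hV hL hL' hLL
  · refine b1.trans (Iff.trans ?_ b2.symm)
    exact forall_congr' fun j => forall_congr' fun _ => li_iff h h' R hV hL hL' hLL

/-- the bounded form, in terms of `B` over `F 0` -/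
theorem graded_b {K : Type} [Field K] [CharZero K] (W : Theory K) (hM : W.Models) : ∀ n d : ℕ,
    (∀ Z : W.Var 0, W.dim Z + 1 ≤ 2 ^ n * (d + 1) → W.B Z) →
    ∀ X : W.Var n, W.dim X = d → W.C X ∧ W.B X := by
  intro n
  induction n with
  | zero =>
    intro d h X hX
    exact ⟨fun i => W.kunneth X i, h X (by rw [hX]; omega)⟩
  | succ n ih =>
    intro d h X hX
    have hp : 2 ^ (n + 1) * (d + 1) = 2 ^ n * (2 * d + 1 + 1) := by ring
    refine tSTP K W hM n X fun V hV => ?_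
    rw [hX] at hV
    rcases hV with hV | hV
    · refine ih d (fun Z hZ => h Z (hZ.trans ?_)) V hV
      exact Nat.mul_le_mul_right _ (Nat.pow_le_pow_right (by norm_num) (by omega))
    · refine ih (2 * d + 1) (fun Z hZ => h Z ?_) V hV
      rw [hp]
      exact hZ

include h h' R in
theorem bdd_same (hS : W.Sections) (hM' : W'.Models) (n d : ℕ)
    (H : ∀ (m : ℕ) (T : W.Var m), Odd (W.dim T) → W.dim T + 3 ≤ 2 ^ (n + 1) * (d + 1) →
      W.Cplus T) (X : W'.Var n) (hX : W'.dim X = d) : W'.C X ∧ W'.B X := by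
  have key : ∀ Z : (toTheory W' h').Var 0, (toTheory W' h').dim Z + 1 ≤ 2 ^ n * (d + 1) →
      (toTheory W' h').B Z := by
    intro Z' hZ'
    obtain ⟨Z, hZ⟩ := R.total_right Z'
    refine (b_iff W' h' Z').2 ((b_same h h' R hZ).1 ?_)
    have hd : W.dim Z = (toTheory W' h').dim Z' := R.dim_eq hZ
    refine (b_iff W h Z).1 (b_of_bdeg (toTheory W h) Z fun i hi => ?_)
    have hi' : i < W.dim Z := hi
    refine bdeg_of_dim (toTheory W h) (sections_to W h hS) i (fun m T hT => ?_) Z hi.le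
    have hT' : W.dim T = 2 * i + 1 := hT
    refine H m T (by rw [hT']; exact ⟨i, rfl⟩) ?_
    have hp : 2 ^ (n + 1) * (d + 1) = 2 * (2 ^ n * (d + 1)) := by ring
    rw [hT', hp]
    omega
  have h0 := graded_b (toTheory W' h') (models_to W' h' hM') n d key X hX
  exact ⟨h0.1, (b_iff W' h' X).1 h0.2⟩

include h h' R in
theorem glob_same (hS : W.Sections) (hM : W.Models) (hS' : W'.Sections) (hM' : W'.Models) :
    List.TFAE [
      ∀ (n : ℕ) (X : W.Var n), W.Cplus X,
      ∀ (n : ℕ) (X : W'.Var n), W'.Cplus X,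
      ∀ (n : ℕ) (X : W.Var n), W.C X,
      ∀ (n : ℕ) (X : W'.Var n), W'.C X] := by
  have m1 := main' W h hS hM
  have m2 := main' W' h' hS' hM'
  have a1 : (∀ (n : ℕ) (X : W.Var n), W.Cplus X) ↔ ∀ Z : W.Var 0, W.B Z := m1.out 0 1
  have a2 : (∀ (n : ℕ) (X : W'.Var n), W'.Cplus X) ↔ ∀ Z : W'.Var 0, W'.B Z := m2.out 0 1
  have b1 : (∀ (n : ℕ) (X : W.Var n), W.Cplus X) ↔
    ∀ (n : ℕ) (X : W.Var n), W.C X ∧ W.B X := m1.out 0 2
  have b2 : (∀ (n : ℕ) (X : W'.Var n), W'.Cplus X) ↔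
    ∀ (n : ℕ) (X : W'.Var n), W'.C X ∧ W'.B X := m2.out 0 2
  tfae_have 1 → 3 := fun H n X => (b1.1 H n X).1
  tfae_have 3 → 1 := fun H n X => cplus_of_c (toTheory W h) X (H n X)
  tfae_have 2 → 4 := fun H n X => (b2.1 H n X).1
  tfae_have 4 → 2 := fun H n X => cplus_of_c (toTheory W' h') X (H n X)
  tfae_have 1 → 2 := by
    intro H
    refine a2.2 fun Z' => ?_
    obtain ⟨Z, hZ⟩ := R.total_right Z'
    exact (b_same h h' R hZ).1 (a1.1 H Z)
  tfae_have 2 → 1 := by
    intro H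
    refine a1.2 fun Z => ?_
    obtain ⟨Z', hZ⟩ := R.total_left Z
    exact (b_same h h' R hZ).2 (a2.1 H Z')
  tfae_finish

end

end Pool.Agent.H64.CC
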