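import Mathlib
import Pool.Agent.H64.CC.Part

/-!
# Products of varieties for which the Lefschetz conjecture holds up to one degree
-/

set_option autoImplicit false

open Matrix
open scoped Kronecker

namespace Pool.Agent.H64.CC

variable {K : Type} [Field K] [CharZero K]

namespace Part

variable {W : Theory K} {Y : W.Var 0} {L q : Matrix (Fin (W.rk Y)) (Fin (W.rk Y)) K} {e : ℕ}
  (P : Part W Y L q e)

include P

theorem comp_mem : 1 - q ∈ W.cyc Y Y 0 := Submodule.sub_mem _ (W.one_mem Y) P.mem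

theorem comp_idem : (1 - q) * (1 - q) = 1 - q := by
  rw [sub_mul, one_mul, mul_sub, mul_one, P.idem, sub_self, sub_zero]

theorem q_comp : q * (1 - q) = 0 := by rw [mul_sub, mul_one, P.idem, sub_self]

theorem comp_q : (1 - q) * q = 0 := by rw [sub_mul, one_mul, P.idem, sub_self]

theorem commute : Commute q L := P.comm

theorem commute' : Commute (1 - q) L := (Commute.one_left L).sub_left P.comm

theorem pj_comm' (b : ℕ) : q * W.pj Y b = W.pj Y b * q := pj_comm W Y P.mem (by simp)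

/-- the left inverses on the complement of `q` -/
theorem theta (hL : L ∈ W.Lef Y) (r : ℕ) (S : ℕ → Prop)
    (hS : ∀ b, S b → ∀ v, W.InH Y b v → L ^ r *ᵥ v = 0 → v = 0) :
    ∃ θ ∈ W.cyc Y Y (-(r : ℤ)), (1 - q) * θ = θ ∧
    ∀ b, S b → θ * L ^ r * ((1 - q) * W.pj Y b) = (1 - q) * W.pj Y b := by
  classical
  have hLc := W.Lef_mem Y L hL
  have hc : ∀ b, (1 - q) * W.pj Y b = W.pj Y b * (1 - q) := by
    intro b
    rw [sub_mul, mul_sub, one_mul, mul_one, P.pj_comm']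
  have key : ∀ b, S b → ∃ θ ∈ W.cyc Y Y (-(r : ℤ)), (1 - q) * θ = θ ∧
      θ * L ^ r * ((1 - q) * W.pj Y b) = (1 - q) * W.pj Y b := by
    intro b hb
    by_cases hbig : 2 * W.dim Y < b + 2 * r
    · refine ⟨0, Submodule.zero_mem _, mul_zero _, ?_⟩
      refine mat_ext W Y Y fun i v hv => ?_
      simp only [← Matrix.mulVec_mulVec, Matrix.zero_mulVec]
      have h1 : W.pj Y b *ᵥ v = 0 := by
        refine hS b hb _ (pj_inH W Y b v) ?_
        exact zero_mulVec W Y Y (pow_deg Y hLc r) (i := b) (Or.inr (by push_cast; omega))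
          (pj_inH W Y b v)
      rw [h1, Matrix.mulVec_zero]
    obtain ⟨p, hp⟩ : ∃ p, p = (1 - q) * W.pj Y b := ⟨_, rfl⟩
    have hpm : p ∈ W.cyc Y Y 0 := by
      rw [hp]
      exact mul_mem0' W Y P.comp_mem (W.kunneth Y b)
    have hpp : p * p = p := by
      rw [hp]
      calc (1 - q) * W.pj Y b * ((1 - q) * W.pj Y b)
          = (1 - q) * (W.pj Y b * (1 - q)) * W.pj Y b := by simp only [mul_assoc]
        _ = (1 - q) * (1 - q) * (W.pj Y b * W.pj Y b) := by rw [← hc]; simp only [mul_assoc]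
        _ = (1 - q) * W.pj Y b := by rw [P.comp_idem, pj_mul]
    have hpi : p * W.pj Y b = p := by rw [hp, mul_assoc, pj_mul]
    have hqp : (1 - q) * p = p := by rw [hp, ← mul_assoc, P.comp_idem]
    have hpv : ∀ v, W.InH Y b v → q *ᵥ v = 0 → p *ᵥ v = v := by
      intro v hv hqv
      rw [hp, ← Matrix.mulVec_mulVec, pj_of W Y hv, Matrix.sub_mulVec, Matrix.one_mulVec, hqv,
        sub_zero]
    suffices h : ∃ G ∈ W.cyc Y Y (-(r : ℤ)), ∀ v, W.InH Y b v → q *ᵥ v = 0 →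
        q *ᵥ (G *ᵥ (L ^ r *ᵥ v)) = 0 ∧ (G *ᵥ (L ^ r *ᵥ v) = 0 → v = 0) by
      obtain ⟨G, hGm, hG⟩ := h
      obtain ⟨θ, h1, h2, h3⟩ := li_rel W Y hpm hpp hpi (s := -(r : ℤ)) (t := r) (by omega)
        (mul_mem0 W Y hGm hpm) (pow_mem W Y hLc r) (by rw [← mul_assoc, hpp]) (by
          intro v hv h0
          have hvH : W.InH Y b v := by
            have h5 : v = W.pj Y b *ᵥ ((1 - q) *ᵥ v) := by
              rw [Matrix.mulVec_mulVec, ← hc, ← hp, hv]
            rw [h5]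
            exact pj_inH W Y b _
          have hqv : q *ᵥ v = 0 := by
            rw [← hv, hp, Matrix.mulVec_mulVec, ← mul_assoc, P.q_comp, zero_mul,
              Matrix.zero_mulVec]
          obtain ⟨g1, g2⟩ := hG v hvH hqv
          refine g2 ?_
          rw [← Matrix.mulVec_mulVec, hpv _ ?_ g1] at h0
          · exact h0
          · exact inH_mulVec W Y Y (W.cyc_deg Y Y _ _ hGm) (i := b + 2 * r) (by push_cast; ring)
              (inH_mulVec W Y Y (pow_deg Y hLc r) (by push_cast; ring) hvH))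
      refine ⟨θ, h1, ?_, ?_⟩
      · rw [← h3, ← mul_assoc, hqp]
      · rw [← hp]
        exact h2
    have hqL : ∀ (k : ℕ) (v), q *ᵥ v = 0 → q *ᵥ (L ^ k *ᵥ v) = 0 := by
      intro k v hv
      rw [Matrix.mulVec_mulVec, (P.commute.pow_right k).eq, ← Matrix.mulVec_mulVec, hv,
        Matrix.mulVec_zero]
    by_cases hbr : b + r ≤ W.dim Y
    · obtain ⟨s, hs1, hs2, hs3⟩ := P.inv (2 * W.dim Y - b) (by omega)
      refine ⟨s * L ^ (W.dim Y - b - r), ?_, ?_⟩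
      · have m1 := W.mul_mem Y Y Y _ _ _ (pow_mem W Y hLc (W.dim Y - b - r)) _ hs1
        have e : ((W.dim Y - b - r : ℕ) : ℤ) + ((W.dim Y : ℤ) - ((2 * W.dim Y - b : ℕ) : ℤ)) =
            -(r : ℤ) := by omega
        rwa [e] at m1
      · intro v hvH hqv
        rw [← Matrix.mulVec_mulVec, Matrix.mulVec_mulVec _ (L ^ (W.dim Y - b - r)) (L ^ r),
          ← pow_add]
        have e : W.dim Y - b - r + r = W.dim Y - b := by omega
        rw [e]
        have h6 : W.InH Y (2 * W.dim Y - b) (L ^ (W.dim Y - b) *ᵥ v) :=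
          inH_mulVec W Y Y (pow_deg Y hLc _) (by omega) hvH
        refine ⟨?_, fun h0 => W.hard_inj Y L hL b (by omega) v hvH (hs3 _ h6 (hqL _ _ hqv) h0)⟩
        rw [Matrix.mulVec_mulVec _ q s, hs2, Matrix.zero_mulVec]
    · obtain ⟨s, hs1, hs2, hs3⟩ := P.inv (b + 2 * r) (by omega)
      refine ⟨L ^ (b + r - W.dim Y) * s, ?_, ?_⟩
      · have m1 := W.mul_mem Y Y Y _ _ _ hs1 _ (pow_mem W Y hLc (b + r - W.dim Y))
        have e : ((W.dim Y : ℤ) - ((b + 2 * r : ℕ) : ℤ)) + ((b + r - W.dim Y : ℕ) : ℤ) =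
            -(r : ℤ) := by omega
        rwa [e] at m1
      · intro v hvH hqv
        rw [← Matrix.mulVec_mulVec]
        have h5 : W.InH Y (b + 2 * r) (L ^ r *ᵥ v) :=
          inH_mulVec W Y Y (pow_deg Y hLc _) (by push_cast; ring) hvH
        have h6 : W.InH Y (2 * W.dim Y - (b + 2 * r)) (s *ᵥ (L ^ r *ᵥ v)) :=
          inH_mulVec W Y Y (W.cyc_deg Y Y _ _ hs1) (by omega) h5
        have h7 : q *ᵥ (s *ᵥ (L ^ r *ᵥ v)) = 0 := by
          rw [Matrix.mulVec_mulVec _ q s, hs2, Matrix.zero_mulVec]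
        refine ⟨hqL _ _ h7, fun h0 => ?_⟩
        have h8 := inj_pow Y hL (j := 2 * W.dim Y - (b + 2 * r)) (k := b + r - W.dim Y)
          (by omega) h6 h0
        exact hS b hb v hvH (hs3 _ h5 (hqL _ _ hqv) h8)
  choose! θ hθ1 hθ2 hθ3 using key
  refine ⟨∑ b ∈ (Finset.range (2 * W.dim Y + 1)).filter S,
    θ b * W.pj Y (b + 2 * r), ?_, ?_, ?_⟩
  · refine Submodule.sum_mem _ fun b hb => ?_
    exact mul_mem0' W Y (hθ1 b (Finset.mem_filter.1 hb).2) (W.kunneth Y _)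
  · rw [Finset.mul_sum]
    refine Finset.sum_congr rfl fun b hb => ?_
    rw [← mul_assoc, hθ2 b (Finset.mem_filter.1 hb).2]
  · intro b hb
    by_cases hb2 : 2 * W.dim Y < b
    · rw [pj_big W Y hb2, mul_zero, mul_zero]
    rw [Finset.sum_mul, Finset.sum_mul, Finset.sum_eq_single b]
    · rw [mul_assoc (θ b), ← pj_comm W Y (pow_mem W Y hLc r) (a := b) (by push_cast; ring), hc,
        mul_assoc, mul_assoc, ← mul_assoc (W.pj Y b), pj_mul, ← hc, ← mul_assoc,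
        hθ3 b hb]
    · intro c hc2 hcb
      rw [mul_assoc (θ c), ← pj_comm W Y (pow_mem W Y hLc r) (a := c) (by push_cast; ring), hc,
        mul_assoc, mul_assoc, ← mul_assoc (W.pj Y c), pj_mul_ne W Y hcb, zero_mul, mul_zero,
        mul_zero]
    · intro hcon
      refine absurd ?_ hcon
      rw [Finset.mem_filter, Finset.mem_range]
      exact ⟨by omega, hb⟩

/-- the isomorphisms `Hᵃ → H^(2d - a)` on the complement of `q` -/
theorem sig : ∃ s : ℕ → Matrix (Fin (W.rk Y)) (Fin (W.rk Y)) K,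
    (∀ a, a ≤ 2 * W.dim Y → s a ∈ W.cyc Y Y ((W.dim Y : ℤ) - a)) ∧
    ∃ τ : Matrix (Fin (W.rk Y)) (Fin (W.rk Y)) K,
      q * (∑ a ∈ Finset.range (2 * W.dim Y + 1), s a * W.pj Y a) = 0 ∧
      τ * (∑ a ∈ Finset.range (2 * W.dim Y + 1), s a * W.pj Y a) = 1 - q := by
  have h := P.inv
  choose! s hs1 hs2 hs3 using h
  refine ⟨fun a => s a * (1 - q), fun a ha => mul_mem0' W Y (hs1 a ha) P.comp_mem, ?_⟩
  obtain ⟨σ, hσ⟩ : ∃ σ, σ = ∑ a ∈ Finset.range (2 * W.dim Y + 1), s a * (1 - q) * W.pj Y a :=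
    ⟨_, rfl⟩
  have hqσ : q * σ = 0 := by
    rw [hσ, Finset.mul_sum]
    refine Finset.sum_eq_zero fun a ha => ?_
    rw [← mul_assoc, ← mul_assoc, hs2 a (by have := Finset.mem_range.1 ha; omega), zero_mul,
      zero_mul]
  have hσq : σ * (1 - q) = σ := by
    rw [hσ, Finset.sum_mul]
    refine Finset.sum_congr rfl fun a ha => ?_
    have hc : W.pj Y a * (1 - q) = (1 - q) * W.pj Y a := by
      rw [sub_mul, mul_sub, one_mul, mul_one, P.pj_comm']
    rw [mul_assoc, hc, ← mul_assoc, mul_assoc (s a), P.comp_idem]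
  have hinj : ∀ w, (σ + q) *ᵥ w = 0 → w = 0 := by
    intro w hw
    have hqw : q *ᵥ w = 0 := by
      have h1 := congrArg (fun v => q *ᵥ v) hw
      beta_reduce at h1
      rwa [Matrix.mulVec_mulVec, mul_add, hqσ, zero_add, P.idem, Matrix.mulVec_zero] at h1
    rw [Matrix.add_mulVec, hqw, add_zero] at hw
    have h1 : ∀ a, a ≤ 2 * W.dim Y → W.pj Y a *ᵥ w = 0 := by
      intro a ha
      have hq2 : ∀ c, q *ᵥ (W.pj Y c *ᵥ w) = 0 := by
        intro c
        rw [Matrix.mulVec_mulVec, P.pj_comm', ← Matrix.mulVec_mulVec, hqw, Matrix.mulVec_zero]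
      have hsc : ∀ c, (s c * (1 - q) * W.pj Y c) *ᵥ w = s c *ᵥ (W.pj Y c *ᵥ w) := by
        intro c
        rw [← Matrix.mulVec_mulVec, ← Matrix.mulVec_mulVec, Matrix.sub_mulVec,
          Matrix.one_mulVec, hq2, sub_zero]
      have hsd : ∀ c, c ≤ 2 * W.dim Y → W.InH Y (2 * W.dim Y - c) (s c *ᵥ (W.pj Y c *ᵥ w)) :=
        fun c hc => inH_mulVec W Y Y (W.cyc_deg Y Y _ _ (hs1 c hc)) (by omega) (pj_inH W Y c w)
      have h2 := congrArg (fun v => W.pj Y (2 * W.dim Y - a) *ᵥ v) hw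
      beta_reduce at h2
      rw [hσ, Matrix.sum_mulVec, Matrix.mulVec_sum, Matrix.mulVec_zero] at h2
      have h3 : ∀ c ∈ Finset.range (2 * W.dim Y + 1),
          W.pj Y (2 * W.dim Y - a) *ᵥ ((s c * (1 - q) * W.pj Y c) *ᵥ w) =
            if c = a then s a *ᵥ (W.pj Y a *ᵥ w) else 0 := by
        intro c hc
        have hc' : c ≤ 2 * W.dim Y := by
          have := Finset.mem_range.1 hc
          omega
        rw [hsc]
        split_ifs with hca
        · rw [hca, pj_of W Y (hsd a ha)]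
        · exact pj_not W Y (by omega) (hsd c hc')
      rw [Finset.sum_congr rfl h3, Finset.sum_ite_eq', if_pos (Finset.mem_range.2 (by omega))]
        at h2
      exact hs3 a ha _ (pj_inH W Y a w) (hq2 a) h2
    funext b
    have h2 := congrFun (h1 (W.deg Y b) (W.deg_le Y b)) b
    rw [Theory.pj, Matrix.mulVec_diagonal, if_pos rfl, one_mul] at h2
    exact h2
  have hunit : IsUnit (σ + q) := by
    rw [← Matrix.mulVec_injective_iff_isUnit]
    intro w1 w2 h12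
    have h3 : (σ + q) *ᵥ (w1 - w2) = 0 := by
      rw [Matrix.mulVec_sub]
      exact sub_eq_zero.2 h12
    exact sub_eq_zero.1 (hinj _ h3)
  obtain ⟨u, hu⟩ := hunit
  refine ⟨↑u⁻¹, ?_, ?_⟩
  · rw [← hσ]
    exact hqσ
  · rw [← hσ]
    have h1 : (σ + q) * (1 - q) = σ := by rw [add_mul, hσq, P.q_comp, add_zero]
    rw [← h1, ← hu, ← mul_assoc, Units.inv_mul, one_mul]

end Part

/-- external products -/
noncomputable def kr (W : Theory K) (Y Z : W.Var 0) (f : Matrix (Fin (W.rk Y)) (Fin (W.rk Y)) K)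
    (g : Matrix (Fin (W.rk Z)) (Fin (W.rk Z)) K) :
    Matrix (Fin (W.rk (W.prod Y Z))) (Fin (W.rk (W.prod Y Z))) K :=
  (f ⊗ₖ g).submatrix (W.pr Y Z).symm (W.pr Y Z).symm

section kr

variable (W : Theory K) (Y Z : W.Var 0)

theorem kr_mul (f f' : Matrix (Fin (W.rk Y)) (Fin (W.rk Y)) K)
    (g g' : Matrix (Fin (W.rk Z)) (Fin (W.rk Z)) K) :
    kr W Y Z f g * kr W Y Z f' g' = kr W Y Z (f * f') (g * g') := by
  rw [kr, kr, kr, Matrix.submatrix_mul_equiv, Matrix.mul_kronecker_mul]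

theorem kr_one : kr W Y Z 1 1 = 1 := by
  rw [kr, Matrix.one_kronecker_one, Matrix.submatrix_one_equiv]

theorem kr_apply (f : Matrix (Fin (W.rk Y)) (Fin (W.rk Y)) K)
    (g : Matrix (Fin (W.rk Z)) (Fin (W.rk Z)) K) (a a' : Fin (W.rk Y)) (b b' : Fin (W.rk Z)) :
    kr W Y Z f g (W.pr Y Z (a, b)) (W.pr Y Z (a', b')) = f a a' * g b b' := by
  rw [kr, Matrix.submatrix_apply, Equiv.symm_apply_apply, Equiv.symm_apply_apply,
    Matrix.kronecker_apply]

theorem kr_ext {A B : Matrix (Fin (W.rk (W.prod Y Z))) (Fin (W.rk (W.prod Y Z))) K}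
    (h : ∀ a b a' b', A (W.pr Y Z (a, b)) (W.pr Y Z (a', b')) =
      B (W.pr Y Z (a, b)) (W.pr Y Z (a', b'))) : A = B := by
  ext c d
  obtain ⟨⟨a, b⟩, rfl⟩ := (W.pr Y Z).surjective c
  obtain ⟨⟨a', b'⟩, rfl⟩ := (W.pr Y Z).surjective d
  exact h a b a' b'

theorem kr_add_left (f f' : Matrix (Fin (W.rk Y)) (Fin (W.rk Y)) K)
    (g : Matrix (Fin (W.rk Z)) (Fin (W.rk Z)) K) :
    kr W Y Z (f + f') g = kr W Y Z f g + kr W Y Z f' g := by
  refine kr_ext W Y Z fun a b a' b' => ?_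
  rw [Matrix.add_apply, kr_apply, kr_apply, kr_apply, Matrix.add_apply, add_mul]

theorem kr_sub_left (f f' : Matrix (Fin (W.rk Y)) (Fin (W.rk Y)) K)
    (g : Matrix (Fin (W.rk Z)) (Fin (W.rk Z)) K) :
    kr W Y Z (f - f') g = kr W Y Z f g - kr W Y Z f' g := by
  refine kr_ext W Y Z fun a b a' b' => ?_
  rw [Matrix.sub_apply, kr_apply, kr_apply, kr_apply, Matrix.sub_apply, sub_mul]

theorem kr_sub_right (f : Matrix (Fin (W.rk Y)) (Fin (W.rk Y)) K)
    (g g' : Matrix (Fin (W.rk Z)) (Fin (W.rk Z)) K) :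
    kr W Y Z f (g - g') = kr W Y Z f g - kr W Y Z f g' := by
  refine kr_ext W Y Z fun a b a' b' => ?_
  rw [Matrix.sub_apply, kr_apply, kr_apply, kr_apply, Matrix.sub_apply, mul_sub]

theorem kr_zero_left (g : Matrix (Fin (W.rk Z)) (Fin (W.rk Z)) K) : kr W Y Z 0 g = 0 := by
  refine kr_ext W Y Z fun a b a' b' => ?_
  rw [kr_apply, Matrix.zero_apply, Matrix.zero_apply, zero_mul]

theorem kr_zero_right (f : Matrix (Fin (W.rk Y)) (Fin (W.rk Y)) K) : kr W Y Z f 0 = 0 := by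
  refine kr_ext W Y Z fun a b a' b' => ?_
  rw [kr_apply, Matrix.zero_apply, Matrix.zero_apply, mul_zero]

theorem kr_mem {r s : ℤ} {f : Matrix (Fin (W.rk Y)) (Fin (W.rk Y)) K}
    {g : Matrix (Fin (W.rk Z)) (Fin (W.rk Z)) K} (hf : f ∈ W.cyc Y Y r) (hg : g ∈ W.cyc Z Z s) :
    kr W Y Z f g ∈ W.cyc (W.prod Y Z) (W.prod Y Z) (r + s) :=
  W.kron_mem Y Y Z Z r s f hf g hg

theorem kr_pj_left (a : ℕ) (x : Fin (W.rk (W.prod Y Z)) → K) (u : Fin (W.rk Y))
    (v : Fin (W.rk Z)) : (kr W Y Z (W.pj Y a) 1 *ᵥ x) (W.pr Y Z (u, v)) =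
      if W.deg Y u = a then x (W.pr Y Z (u, v)) else 0 := by
  have h1 : kr W Y Z (W.pj Y a) 1 = Matrix.diagonal fun c =>
      if W.deg Y ((W.pr Y Z).symm c).1 = a then (1 : K) else 0 := by
    refine kr_ext W Y Z fun u v u' v' => ?_
    rw [kr_apply, pj_apply, Matrix.diagonal_apply, Matrix.one_apply]
    by_cases h : u = u' ∧ v = v'
    · obtain ⟨rfl, rfl⟩ := h
      simp
    · rw [if_neg (c := W.pr Y Z (u, v) = W.pr Y Z (u', v'))]
      · by_cases h2 : u = u'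
        · rw [if_neg (c := v = v') (fun h3 => h ⟨h2, h3⟩), mul_zero]
        · rw [if_neg (c := u = u' ∧ W.deg Y u = a) (fun h3 => h2 h3.1), zero_mul]
      · intro h3
        have := (W.pr Y Z).injective h3
        exact h ⟨(Prod.mk.inj this).1, (Prod.mk.inj this).2⟩
  rw [h1, Matrix.mulVec_diagonal, Equiv.symm_apply_apply]
  split_ifs <;> simp

theorem kr_pj_right (a : ℕ) (x : Fin (W.rk (W.prod Y Z)) → K) (u : Fin (W.rk Y))
    (v : Fin (W.rk Z)) : (kr W Y Z 1 (W.pj Z a) *ᵥ x) (W.pr Y Z (u, v)) =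
      if W.deg Z v = a then x (W.pr Y Z (u, v)) else 0 := by
  have h1 : kr W Y Z 1 (W.pj Z a) = Matrix.diagonal fun c =>
      if W.deg Z ((W.pr Y Z).symm c).2 = a then (1 : K) else 0 := by
    refine kr_ext W Y Z fun u v u' v' => ?_
    rw [kr_apply, pj_apply, Matrix.diagonal_apply, Matrix.one_apply]
    by_cases h : u = u' ∧ v = v'
    · obtain ⟨rfl, rfl⟩ := h
      simp
    · rw [if_neg (c := W.pr Y Z (u, v) = W.pr Y Z (u', v'))]
      · by_cases h2 : u = u'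
        · rw [if_neg (c := v = v' ∧ W.deg Z v = a) (fun h3 => h ⟨h2, h3.1⟩), mul_zero]
        · rw [if_neg (c := u = u') h2, zero_mul]
      · intro h3
        have := (W.pr Y Z).injective h3
        exact h ⟨(Prod.mk.inj this).1, (Prod.mk.inj this).2⟩
  rw [h1, Matrix.mulVec_diagonal, Equiv.symm_apply_apply]
  split_ifs <;> simp

theorem pj_mul_small {f : Matrix (Fin (W.rk Y)) (Fin (W.rk Y)) K} (hf : f ∈ W.cyc Y Y 1) {c : ℕ}
    (hc : c < 2) : W.pj Y c * f = 0 := by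
  ext u v
  rw [Theory.pj, Matrix.diagonal_mul, Matrix.zero_apply]
  by_cases h : f u v = 0
  · rw [h, mul_zero]
  · have h1 := W.cyc_deg Y Y 1 f hf u v h
    rw [if_neg (by omega), zero_mul]

/-- the part of the power of the ample class which preserves the degree of the first factor -/
theorem low_left {L : Matrix (Fin (W.rk Y)) (Fin (W.rk Y)) K} (hL : L ∈ W.cyc Y Y 1)
    (M : Matrix (Fin (W.rk Z)) (Fin (W.rk Z)) K) (a : ℕ) (x : Fin (W.rk (W.prod Y Z)) → K)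
    (hx : ∀ c < a, kr W Y Z (W.pj Y c) 1 *ᵥ x = 0) (r : ℕ) :
    (∀ c < a, kr W Y Z (W.pj Y c) 1 *ᵥ ((kr W Y Z L 1 + kr W Y Z 1 M) ^ r *ᵥ x) = 0) ∧
    kr W Y Z (W.pj Y a) 1 *ᵥ ((kr W Y Z L 1 + kr W Y Z 1 M) ^ r *ᵥ x) =
      kr W Y Z 1 (M ^ r) *ᵥ (kr W Y Z (W.pj Y a) 1 *ᵥ x) := by
  induction r with
  | zero =>
    rw [pow_zero, pow_zero, Matrix.one_mulVec, kr_one, Matrix.one_mulVec]
    exact ⟨hx, rfl⟩
  | succ r ih =>
    obtain ⟨ih1, ih2⟩ := ih
    obtain ⟨y, hy⟩ : ∃ y, y = (kr W Y Z L 1 + kr W Y Z 1 M) ^ r *ᵥ x := ⟨_, rfl⟩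
    have e : (kr W Y Z L 1 + kr W Y Z 1 M) ^ (r + 1) *ᵥ x =
        kr W Y Z L 1 *ᵥ y + kr W Y Z 1 M *ᵥ y := by
      rw [pow_succ', ← Matrix.mulVec_mulVec, ← hy, Matrix.add_mulVec]
    rw [← hy] at ih1 ih2
    have h1 : ∀ c ≤ a, kr W Y Z (W.pj Y c) 1 *ᵥ (kr W Y Z L 1 *ᵥ y) = 0 := by
      intro c hc
      rw [Matrix.mulVec_mulVec, kr_mul]
      by_cases h2 : c < 2
      · rw [pj_mul_small W Y hL h2, kr_zero_left, Matrix.zero_mulVec]
      · obtain ⟨c', rfl⟩ : ∃ c', c = c' + 2 := ⟨c - 2, by omega⟩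
        rw [← pj_comm W Y hL (a := c') (by push_cast; ring), ← kr_mul, ← Matrix.mulVec_mulVec,
          ih1 c' (by omega), Matrix.mulVec_zero]
    have h3 : ∀ c, kr W Y Z (W.pj Y c) 1 *ᵥ (kr W Y Z 1 M *ᵥ y) =
        kr W Y Z 1 M *ᵥ (kr W Y Z (W.pj Y c) 1 *ᵥ y) := by
      intro c
      rw [Matrix.mulVec_mulVec, Matrix.mulVec_mulVec, kr_mul, kr_mul, mul_one, mul_one, one_mul,
        one_mul]
    rw [e]
    refine ⟨fun c hc => ?_, ?_⟩
    · rw [Matrix.mulVec_add, h1 c hc.le, h3, ih1 c hc, Matrix.mulVec_zero, zero_add]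
    · rw [Matrix.mulVec_add, h1 a le_rfl, h3, ih2, zero_add, Matrix.mulVec_mulVec, kr_mul,
        one_mul, ← pow_succ']

/-- the part of the power of the ample class which preserves the degree of the second factor -/
theorem low_right {M : Matrix (Fin (W.rk Z)) (Fin (W.rk Z)) K} (hM : M ∈ W.cyc Z Z 1)
    (L : Matrix (Fin (W.rk Y)) (Fin (W.rk Y)) K) (a : ℕ) (x : Fin (W.rk (W.prod Y Z)) → K)
    (hx : ∀ c < a, kr W Y Z 1 (W.pj Z c) *ᵥ x = 0) (r : ℕ) :
    (∀ c < a, kr W Y Z 1 (W.pj Z c) *ᵥ ((kr W Y Z L 1 + kr W Y Z 1 M) ^ r *ᵥ x) = 0) ∧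
    kr W Y Z 1 (W.pj Z a) *ᵥ ((kr W Y Z L 1 + kr W Y Z 1 M) ^ r *ᵥ x) =
      kr W Y Z (L ^ r) 1 *ᵥ (kr W Y Z 1 (W.pj Z a) *ᵥ x) := by
  induction r with
  | zero =>
    rw [pow_zero, pow_zero, Matrix.one_mulVec, kr_one, Matrix.one_mulVec]
    exact ⟨hx, rfl⟩
  | succ r ih =>
    obtain ⟨ih1, ih2⟩ := ih
    obtain ⟨y, hy⟩ : ∃ y, y = (kr W Y Z L 1 + kr W Y Z 1 M) ^ r *ᵥ x := ⟨_, rfl⟩
    have e : (kr W Y Z L 1 + kr W Y Z 1 M) ^ (r + 1) *ᵥ x =
        kr W Y Z L 1 *ᵥ y + kr W Y Z 1 M *ᵥ y := by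
      rw [pow_succ', ← Matrix.mulVec_mulVec, ← hy, Matrix.add_mulVec]
    rw [← hy] at ih1 ih2
    have h1 : ∀ c ≤ a, kr W Y Z 1 (W.pj Z c) *ᵥ (kr W Y Z 1 M *ᵥ y) = 0 := by
      intro c hc
      rw [Matrix.mulVec_mulVec, kr_mul]
      by_cases h2 : c < 2
      · rw [pj_mul_small W Z hM h2, kr_zero_right, Matrix.zero_mulVec]
      · obtain ⟨c', rfl⟩ : ∃ c', c = c' + 2 := ⟨c - 2, by omega⟩
        rw [← pj_comm W Z hM (a := c') (by push_cast; ring), ← kr_mul, ← Matrix.mulVec_mulVec,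
          ih1 c' (by omega), Matrix.mulVec_zero]
    have h3 : ∀ c, kr W Y Z 1 (W.pj Z c) *ᵥ (kr W Y Z L 1 *ᵥ y) =
        kr W Y Z L 1 *ᵥ (kr W Y Z 1 (W.pj Z c) *ᵥ y) := by
      intro c
      rw [Matrix.mulVec_mulVec, Matrix.mulVec_mulVec, kr_mul, kr_mul, mul_one, mul_one, one_mul,
        one_mul]
    rw [e]
    refine ⟨fun c hc => ?_, ?_⟩
    · rw [Matrix.mulVec_add, h1 c hc.le, h3, ih1 c hc, Matrix.mulVec_zero, add_zero]
    · rw [Matrix.mulVec_add, h1 a le_rfl, h3, ih2, add_zero, Matrix.mulVec_mulVec, kr_mul,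
        one_mul, ← pow_succ']

end kr

end Pool.Agent.H64.CC
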