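import Mathlib
import Pool.Agent.H64.CC.PProd

/-!
# The ample classes on products
-/

set_option autoImplicit false

open Matrix
open scoped Kronecker

namespace Pool.Agent.H64.CC

variable {K : Type} [Field K] [CharZero K]

section

variable {W : Theory K} {Y Z : W.Var 0} {L q : Matrix (Fin (W.rk Y)) (Fin (W.rk Y)) K}
  {M q' : Matrix (Fin (W.rk Z)) (Fin (W.rk Z)) K} {e e' : ℕ} (P : Part W Y L q e)
  (P' : Part W Z M q' e')

theorem commute_box {f L : Matrix (Fin (W.rk Y)) (Fin (W.rk Y)) K}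
    {g M : Matrix (Fin (W.rk Z)) (Fin (W.rk Z)) K} (hf : Commute f L) (hg : Commute g M) :
    Commute (kr W Y Z f g) (kr W Y Z L 1 + kr W Y Z 1 M) := by
  refine Commute.add_right ?_ ?_
  · show _ * _ = _ * _
    rw [kr_mul, kr_mul, hf.eq, mul_one, one_mul]
  · show _ * _ = _ * _
    rw [kr_mul, kr_mul, hg.eq, mul_one, one_mul]

include P P' in
theorem left_part (hL : L ∈ W.Lef Y) (hM : M ∈ W.Lef Z) {r j : ℕ}
    (hS : ∀ b, b + e ≤ j → ∀ v, W.InH Z b v → M ^ r *ᵥ v = 0 → v = 0) :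
    ∃ G ∈ W.cyc (W.prod Y Z) (W.prod Y Z) (-(r : ℤ)),
      kr W Y Z q (1 - q') * G = G ∧ G * kr W Y Z q (1 - q') = G ∧
      ∀ v, W.InH (W.prod Y Z) j v →
        G *ᵥ ((kr W Y Z L 1 + kr W Y Z 1 M) ^ r *ᵥ v) = 0 → kr W Y Z q (1 - q') *ᵥ v = 0 := by
  obtain ⟨θ, hθ1, hθ2, hθ3⟩ := P'.theta hM r (fun b => b + e ≤ j) hS
  have hLc := W.Lef_mem Y L hL
  obtain ⟨N, hN⟩ : ∃ N, N = kr W Y Z L 1 + kr W Y Z 1 M := ⟨_, rfl⟩
  obtain ⟨E, hE⟩ : ∃ E, E = kr W Y Z q (1 - q') := ⟨_, rfl⟩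
  have hEE : E * E = E := by rw [hE, kr_mul, P.idem, P'.comp_idem]
  have hcE : Commute E N := by
    rw [hE, hN]
    exact commute_box P.commute P'.commute'
  have hI : kr W Y Z q (θ * M ^ r * (1 - q')) * W.pj (W.prod Y Z) j =
      kr W Y Z q (1 - q') * W.pj (W.prod Y Z) j := by
    refine kr_ext W Y Z fun a b a' b' => ?_
    rw [mul_pj_apply, mul_pj_apply, kr_apply, kr_apply, W.deg_prod]
    by_cases hd : W.deg Y a' + W.deg Z b' = j
    · rw [if_pos hd, if_pos hd]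
      by_cases hq : q a a' = 0
      · rw [hq, zero_mul, zero_mul]
      · have h1 := P.deg a a' hq
        have h2 := congrFun (congrFun (hθ3 (W.deg Z b') (by omega)) b) b'
        rw [← mul_assoc, mul_pj_apply, mul_pj_apply, if_pos rfl, if_pos rfl] at h2
        rw [h2]
    · rw [if_neg hd, if_neg hd]
  refine ⟨kr W Y Z 1 θ * E, ?_, ?_, ?_, ?_⟩
  · have m1 := kr_mem W Y Z (W.one_mem Y) hθ1
    rw [zero_add] at m1
    refine mul_mem0' W _ m1 ?_
    rw [hE]
    exact kr_mem W Y Z P.mem P'.comp_mem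
  · rw [hE, kr_mul, kr_mul, one_mul, P.idem, ← mul_assoc, hθ2]
  · rw [← hE, mul_assoc, hEE]
  · intro v hv h0
    rw [← hN] at h0
    rw [← hE]
    rw [← Matrix.mulVec_mulVec, Matrix.mulVec_mulVec _ E (N ^ r), (hcE.pow_right r).eq,
      ← Matrix.mulVec_mulVec] at h0
    obtain ⟨x, hx⟩ : ∃ x, x = E *ᵥ v := ⟨_, rfl⟩
    rw [← hx] at h0 ⊢
    have hx2 : kr W Y Z 1 (θ * M ^ r) *ᵥ x = x := by
      have h1 := congrArg (fun A => A *ᵥ v) hI
      beta_reduce at h1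
      rw [← Matrix.mulVec_mulVec, ← Matrix.mulVec_mulVec, pj_of W _ hv, ← hE, ← hx] at h1
      rw [hx, hE, Matrix.mulVec_mulVec, kr_mul, one_mul, h1, hx, hE]
    have key : ∀ a, kr W Y Z (W.pj Y a) 1 *ᵥ x = 0 := by
      intro a
      induction a using Nat.strong_induction_on with
      | _ a ih =>
        obtain ⟨-, h1⟩ := low_left W Y Z hLc M a x ih r
        rw [← hN] at h1
        have h2 := congrArg (fun w => kr W Y Z (W.pj Y a) 1 *ᵥ w) h0
        beta_reduce at h2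
        have e1 : kr W Y Z (W.pj Y a) 1 * kr W Y Z 1 θ =
            kr W Y Z 1 θ * kr W Y Z (W.pj Y a) 1 := by
          rw [kr_mul, kr_mul, mul_one, mul_one, one_mul, one_mul]
        have e2 : kr W Y Z 1 (θ * M ^ r) * kr W Y Z (W.pj Y a) 1 =
            kr W Y Z (W.pj Y a) 1 * kr W Y Z 1 (θ * M ^ r) := by
          rw [kr_mul, kr_mul, mul_one, mul_one, one_mul, one_mul]
        rw [Matrix.mulVec_zero, Matrix.mulVec_mulVec, e1, ← Matrix.mulVec_mulVec, h1,
          Matrix.mulVec_mulVec, kr_mul, one_mul, Matrix.mulVec_mulVec, e2,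
          ← Matrix.mulVec_mulVec, hx2] at h2
        exact h2
    funext c
    obtain ⟨⟨u, w⟩, rfl⟩ := (W.pr Y Z).surjective c
    have h3 := congrFun (key (W.deg Y u)) (W.pr Y Z (u, w))
    rw [kr_pj_left, if_pos rfl] at h3
    exact h3

include P P' in
theorem right_part (hL : L ∈ W.Lef Y) (hM : M ∈ W.Lef Z) {r j : ℕ}
    (hS : ∀ b, b + e' ≤ j → ∀ v, W.InH Y b v → L ^ r *ᵥ v = 0 → v = 0) :
    ∃ G ∈ W.cyc (W.prod Y Z) (W.prod Y Z) (-(r : ℤ)),
      kr W Y Z (1 - q) q' * G = G ∧ G * kr W Y Z (1 - q) q' = G ∧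
      ∀ v, W.InH (W.prod Y Z) j v →
        G *ᵥ ((kr W Y Z L 1 + kr W Y Z 1 M) ^ r *ᵥ v) = 0 → kr W Y Z (1 - q) q' *ᵥ v = 0 := by
  obtain ⟨θ, hθ1, hθ2, hθ3⟩ := P.theta hL r (fun b => b + e' ≤ j) hS
  have hMc := W.Lef_mem Z M hM
  obtain ⟨N, hN⟩ : ∃ N, N = kr W Y Z L 1 + kr W Y Z 1 M := ⟨_, rfl⟩
  obtain ⟨E, hE⟩ : ∃ E, E = kr W Y Z (1 - q) q' := ⟨_, rfl⟩
  have hEE : E * E = E := by rw [hE, kr_mul, P'.idem, P.comp_idem]
  have hcE : Commute E N := by
    rw [hE, hN]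
    exact commute_box P.commute' P'.commute
  have hI : kr W Y Z (θ * L ^ r * (1 - q)) q' * W.pj (W.prod Y Z) j =
      kr W Y Z (1 - q) q' * W.pj (W.prod Y Z) j := by
    refine kr_ext W Y Z fun a b a' b' => ?_
    rw [mul_pj_apply, mul_pj_apply, kr_apply, kr_apply, W.deg_prod]
    by_cases hd : W.deg Y a' + W.deg Z b' = j
    · rw [if_pos hd, if_pos hd]
      by_cases hq : q' b b' = 0
      · rw [hq, mul_zero, mul_zero]
      · have h1 := P'.deg b b' hq
        have h2 := congrFun (congrFun (hθ3 (W.deg Y a') (by omega)) a) a'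
        rw [← mul_assoc, mul_pj_apply, mul_pj_apply, if_pos rfl, if_pos rfl] at h2
        rw [h2]
    · rw [if_neg hd, if_neg hd]
  refine ⟨kr W Y Z θ 1 * E, ?_, ?_, ?_, ?_⟩
  · have m1 := kr_mem W Y Z hθ1 (W.one_mem Z)
    rw [add_zero] at m1
    refine mul_mem0' W _ m1 ?_
    rw [hE]
    exact kr_mem W Y Z P.comp_mem P'.mem
  · rw [hE, kr_mul, kr_mul, one_mul, P'.idem, ← mul_assoc, hθ2]
  · rw [← hE, mul_assoc, hEE]
  · intro v hv h0
    rw [← hN] at h0
    rw [← hE]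
    rw [← Matrix.mulVec_mulVec, Matrix.mulVec_mulVec _ E (N ^ r), (hcE.pow_right r).eq,
      ← Matrix.mulVec_mulVec] at h0
    obtain ⟨x, hx⟩ : ∃ x, x = E *ᵥ v := ⟨_, rfl⟩
    rw [← hx] at h0 ⊢
    have hx2 : kr W Y Z (θ * L ^ r) 1 *ᵥ x = x := by
      have h1 := congrArg (fun A => A *ᵥ v) hI
      beta_reduce at h1
      rw [← Matrix.mulVec_mulVec, ← Matrix.mulVec_mulVec, pj_of W _ hv, ← hE, ← hx] at h1
      rw [hx, hE, Matrix.mulVec_mulVec, kr_mul, one_mul, h1, hx, hE]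
    have key : ∀ a, kr W Y Z 1 (W.pj Z a) *ᵥ x = 0 := by
      intro a
      induction a using Nat.strong_induction_on with
      | _ a ih =>
        obtain ⟨-, h1⟩ := low_right W Y Z hMc L a x ih r
        rw [← hN] at h1
        have h2 := congrArg (fun w => kr W Y Z 1 (W.pj Z a) *ᵥ w) h0
        beta_reduce at h2
        have e1 : kr W Y Z 1 (W.pj Z a) * kr W Y Z θ 1 =
            kr W Y Z θ 1 * kr W Y Z 1 (W.pj Z a) := by
          rw [kr_mul, kr_mul, mul_one, mul_one, one_mul, one_mul]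
        have e2 : kr W Y Z (θ * L ^ r) 1 * kr W Y Z 1 (W.pj Z a) =
            kr W Y Z 1 (W.pj Z a) * kr W Y Z (θ * L ^ r) 1 := by
          rw [kr_mul, kr_mul, mul_one, mul_one, one_mul, one_mul]
        rw [Matrix.mulVec_zero, Matrix.mulVec_mulVec, e1, ← Matrix.mulVec_mulVec, h1,
          Matrix.mulVec_mulVec, kr_mul, one_mul, Matrix.mulVec_mulVec, e2,
          ← Matrix.mulVec_mulVec, hx2] at h2
        exact h2
    funext c
    obtain ⟨⟨u, w⟩, rfl⟩ := (W.pr Y Z).surjective c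
    have h3 := congrFun (key (W.deg Z w)) (W.pr Y Z (u, w))
    rw [kr_pj_right, if_pos rfl] at h3
    exact h3

include P P' in
theorem mid_part (hN : kr W Y Z L 1 + kr W Y Z 1 M ∈ W.Lef (W.prod Y Z)) {r j : ℕ}
    (hj : j + r + 1 ≤ W.dim Y + W.dim Z) :
    ∃ G ∈ W.cyc (W.prod Y Z) (W.prod Y Z) (-(r : ℤ)),
      kr W Y Z (1 - q) (1 - q') * G = G ∧
      ∀ v, W.InH (W.prod Y Z) j v →
        G *ᵥ ((kr W Y Z L 1 + kr W Y Z 1 M) ^ r *ᵥ v) = 0 →
        kr W Y Z (1 - q) (1 - q') *ᵥ v = 0 := by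
  obtain ⟨s, hs, τ, hσ1, hσ2⟩ := P.sig
  obtain ⟨s', hs', τ', hσ1', hσ2'⟩ := P'.sig
  obtain ⟨σ, hσ⟩ : ∃ σ, σ = ∑ a ∈ Finset.range (2 * W.dim Y + 1), s a * W.pj Y a := ⟨_, rfl⟩
  obtain ⟨σ', hσ'⟩ : ∃ σ', σ' = ∑ a ∈ Finset.range (2 * W.dim Z + 1), s' a * W.pj Z a := ⟨_, rfl⟩
  rw [← hσ] at hσ1 hσ2
  rw [← hσ'] at hσ1' hσ2'
  obtain ⟨N, hNe⟩ : ∃ N, N = kr W Y Z L 1 + kr W Y Z 1 M := ⟨_, rfl⟩
  rw [← hNe] at hN ⊢
  have hNc := W.Lef_mem _ N hN
  have hdV := W.dim_prod Y Z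
  obtain ⟨n0, hn0⟩ : ∃ n0, n0 = 2 * W.dim (W.prod Y Z) - j := ⟨_, rfl⟩
  have hentry : ∀ x' x, σ x' x = s (W.deg Y x) x' x := by
    intro x' x
    rw [hσ, Matrix.sum_apply]
    have h1 : ∀ a, (s a * W.pj Y a) x' x = if a = W.deg Y x then s (W.deg Y x) x' x else 0 := by
      intro a
      rw [mul_pj_apply]
      by_cases h : W.deg Y x = a
      · rw [if_pos h, if_pos h.symm, h]
      · rw [if_neg h, if_neg (Ne.symm h)]
    simp only [h1]
    rw [Finset.sum_ite_eq', if_pos]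
    exact Finset.mem_range.2 (Nat.lt_succ_of_le (W.deg_le Y x))
  have hentry' : ∀ x' x, σ' x' x = s' (W.deg Z x) x' x := by
    intro x' x
    rw [hσ', Matrix.sum_apply]
    have h1 : ∀ a, (s' a * W.pj Z a) x' x = if a = W.deg Z x then s' (W.deg Z x) x' x else 0 := by
      intro a
      rw [mul_pj_apply]
      by_cases h : W.deg Z x = a
      · rw [if_pos h, if_pos h.symm, h]
      · rw [if_neg h, if_neg (Ne.symm h)]
    simp only [h1]
    rw [Finset.sum_ite_eq', if_pos]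
    exact Finset.mem_range.2 (Nat.lt_succ_of_le (W.deg_le Z x))
  have hρm : kr W Y Z σ σ' * W.pj (W.prod Y Z) n0 ∈
      W.cyc (W.prod Y Z) (W.prod Y Z) ((j : ℤ) - W.dim (W.prod Y Z)) := by
    have h1 : kr W Y Z σ σ' * W.pj (W.prod Y Z) n0 = ∑ a ∈ Finset.range (n0 + 1),
        kr W Y Z (s a * W.pj Y a) (s' (n0 - a) * W.pj Z (n0 - a)) := by
      refine kr_ext W Y Z fun x' y' x y => ?_
      rw [mul_pj_apply, Matrix.sum_apply, W.deg_prod, kr_apply]
      simp only [kr_apply, mul_pj_apply]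
      have h2 : ∀ a, ((if W.deg Y x = a then s a x' x else 0) *
          if W.deg Z y = n0 - a then s' (n0 - a) y' y else 0) =
          if a = W.deg Y x then (if W.deg Z y = n0 - W.deg Y x then
            s (W.deg Y x) x' x * s' (W.deg Z y) y' y else 0) else 0 := by
        intro a
        by_cases h : W.deg Y x = a
        · subst h
          rw [if_pos rfl, if_pos rfl]
          split_ifs with h3
          · rw [h3]
          · rw [mul_zero]
        · rw [if_neg h, if_neg (Ne.symm h), zero_mul]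
      simp only [h2]
      rw [Finset.sum_ite_eq', hentry, hentry']
      by_cases h3 : W.deg Y x + W.deg Z y = n0
      · rw [if_pos h3, if_pos (Finset.mem_range.2 (by omega)), if_pos (by omega)]
      · rw [if_neg h3]
        split_ifs with h4 h5
        · exact absurd (by have := Finset.mem_range.1 h4; omega) h3
        · rfl
        · rfl
    rw [h1]
    refine Submodule.sum_mem _ fun a ha => ?_
    by_cases hbig : 2 * W.dim Y < a ∨ 2 * W.dim Z < n0 - a
    · have h3 : kr W Y Z (s a * W.pj Y a) (s' (n0 - a) * W.pj Z (n0 - a)) = 0 := by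
        rcases hbig with h4 | h4
        · rw [pj_big W Y h4, mul_zero, kr_zero_left]
        · rw [pj_big W Z h4, mul_zero, kr_zero_right]
      rw [h3]
      exact Submodule.zero_mem _
    · push Not at hbig
      have ha' := Finset.mem_range.1 ha
      have k1 := mul_mem0' W Y (hs a hbig.1) (W.kunneth Y a)
      have k2 := mul_mem0' W Z (hs' (n0 - a) hbig.2) (W.kunneth Z (n0 - a))
      have k3 := kr_mem W Y Z k1 k2
      have e : (W.dim Y : ℤ) - a + ((W.dim Z : ℤ) - ((n0 - a : ℕ) : ℤ)) =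
          (j : ℤ) - W.dim (W.prod Y Z) := by
        rw [hdV] at hn0 ⊢
        push_cast
        omega
      rw [e] at k3
      exact k3
  have hcE : Commute (kr W Y Z (1 - q) (1 - q')) N := by
    rw [hNe]
    exact commute_box P.commute' P'.commute'
  refine ⟨kr W Y Z σ σ' * W.pj (W.prod Y Z) n0 * N ^ (W.dim (W.prod Y Z) - j - r), ?_, ?_, ?_⟩
  · have m1 := W.mul_mem _ _ _ _ _ _ (pow_mem W _ hNc (W.dim (W.prod Y Z) - j - r)) _ hρm
    have e : ((W.dim (W.prod Y Z) - j - r : ℕ) : ℤ) + ((j : ℤ) - W.dim (W.prod Y Z)) =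
        -(r : ℤ) := by omega
    rwa [e] at m1
  · have e1 : (1 - q) * σ = σ := by rw [sub_mul, one_mul, hσ1, sub_zero]
    have e2 : (1 - q') * σ' = σ' := by rw [sub_mul, one_mul, hσ1', sub_zero]
    rw [← mul_assoc, ← mul_assoc, kr_mul, e1, e2]
  · intro v hv h0
    obtain ⟨E, hE⟩ : ∃ E, E = kr W Y Z (1 - q) (1 - q') := ⟨_, rfl⟩
    have hEm : E ∈ W.cyc (W.prod Y Z) (W.prod Y Z) 0 := by
      rw [hE]
      exact kr_mem W Y Z P.comp_mem P'.comp_mem
    rw [← hE] at hcE ⊢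
    simp only [← Matrix.mulVec_mulVec] at h0
    rw [Matrix.mulVec_mulVec _ (N ^ (W.dim (W.prod Y Z) - j - r)) (N ^ r), ← pow_add] at h0
    have e : W.dim (W.prod Y Z) - j - r + r = W.dim (W.prod Y Z) - j := by omega
    rw [e] at h0
    have h1 : W.InH (W.prod Y Z) n0 (N ^ (W.dim (W.prod Y Z) - j) *ᵥ v) :=
      inH_mulVec W _ _ (pow_deg _ hNc _) (by omega) hv
    rw [pj_of W _ h1] at h0
    have h2 := congrArg (fun w => kr W Y Z τ τ' *ᵥ w) h0
    beta_reduce at h2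
    rw [Matrix.mulVec_mulVec, kr_mul, hσ2, hσ2', ← hE, Matrix.mulVec_zero, Matrix.mulVec_mulVec,
      (hcE.pow_right _).eq, ← Matrix.mulVec_mulVec] at h2
    exact W.hard_inj _ N hN j (by omega) (E *ᵥ v)
      (inH_mulVec W _ _ (W.cyc_deg _ _ _ _ hEm) (by simp) hv) h2

include P P' in
/-- the left inverses on the product -/
theorem li_prod (hL : L ∈ W.Lef Y) (hM : M ∈ W.Lef Z)
    (hN : kr W Y Z L 1 + kr W Y Z 1 M ∈ W.Lef (W.prod Y Z)) {r j : ℕ}
    (hj : j + r + 1 ≤ W.dim Y + W.dim Z)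
    (hS : ∀ b, b + e ≤ j → ∀ v, W.InH Z b v → M ^ r *ᵥ v = 0 → v = 0)
    (hc : q' = 0 ∨ (j < e + e' ∧
      ∀ b, b + e' ≤ j → ∀ v, W.InH Y b v → L ^ r *ᵥ v = 0 → v = 0)) :
    LI W (W.prod Y Z) (kr W Y Z L 1 + kr W Y Z 1 M) r j := by
  obtain ⟨G2, a1, a2, a4, a3⟩ := left_part P P' hL hM (r := r) (j := j) hS
  obtain ⟨G3, b1, b2, b4, b3⟩ : ∃ G ∈ W.cyc (W.prod Y Z) (W.prod Y Z) (-(r : ℤ)),
      kr W Y Z (1 - q) q' * G = G ∧ G * kr W Y Z (1 - q) q' = G ∧
      ∀ v, W.InH (W.prod Y Z) j v →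
        G *ᵥ ((kr W Y Z L 1 + kr W Y Z 1 M) ^ r *ᵥ v) = 0 → kr W Y Z (1 - q) q' *ᵥ v = 0 := by
    rcases hc with h0 | ⟨-, h0⟩
    · refine ⟨0, Submodule.zero_mem _, mul_zero _, zero_mul _, fun v _ _ => ?_⟩
      rw [h0, kr_zero_right, Matrix.zero_mulVec]
    · exact right_part P P' hL hM h0
  obtain ⟨G1, c1, c2, c3⟩ := mid_part P P' hN hj
  obtain ⟨N, hNe⟩ : ∃ N, N = kr W Y Z L 1 + kr W Y Z 1 M := ⟨_, rfl⟩
  rw [← hNe] at hN a3 b3 c3 ⊢
  have hNc := W.Lef_mem _ N hN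
  obtain ⟨p, hp⟩ : ∃ p, p = W.pj (W.prod Y Z) j := ⟨_, rfl⟩
  have hGm : G1 + G2 + G3 ∈ W.cyc (W.prod Y Z) (W.prod Y Z) (-(r : ℤ)) :=
    Submodule.add_mem _ (Submodule.add_mem _ c1 a1) b1
  have e12 : kr W Y Z q (1 - q') * kr W Y Z (1 - q) (1 - q') = 0 := by
    rw [kr_mul, P.q_comp, kr_zero_left]
  have e13 : kr W Y Z (1 - q) q' * kr W Y Z (1 - q) (1 - q') = 0 := by
    rw [kr_mul, P'.q_comp, kr_zero_right]
  have e23 : kr W Y Z q (1 - q') * kr W Y Z (1 - q) q' = 0 := by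
    rw [kr_mul, P.q_comp, kr_zero_left]
  have e32 : kr W Y Z (1 - q) q' * kr W Y Z q (1 - q') = 0 := by
    rw [kr_mul, P.comp_q, kr_zero_left]
  have h4 : ∀ v, W.InH (W.prod Y Z) j v → kr W Y Z q q' *ᵥ v = 0 := by
    intro v hv
    rcases hc with h0 | ⟨h2, -⟩
    · rw [h0, kr_zero_right, Matrix.zero_mulVec]
    · have h5 : kr W Y Z q q' * W.pj (W.prod Y Z) j = 0 := by
        refine kr_ext W Y Z fun a b a' b' => ?_
        rw [mul_pj_apply, kr_apply, W.deg_prod, Matrix.zero_apply]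
        split_ifs with h6
        · by_cases hq : q a a' = 0
          · rw [hq, zero_mul]
          · by_cases hq' : q' b b' = 0
            · rw [hq', mul_zero]
            · have k1 := P.deg a a' hq
              have k2 := P'.deg b b' hq'
              omega
        · rfl
      rw [← pj_of W _ hv, Matrix.mulVec_mulVec, h5, Matrix.zero_mulVec]
  obtain ⟨c, hc1, hc2, -⟩ := li_rel W (W.prod Y Z) (p := p) (i := j)
    (by rw [hp]; exact W.kunneth _ j) (by rw [hp, pj_mul]) (by rw [hp, pj_mul])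
    (s := -(r : ℤ)) (t := r) (by omega) (G := p * (G1 + G2 + G3)) (A := N ^ r)
    (mul_mem0 W _ hGm (by rw [hp]; exact W.kunneth _ j)) (pow_mem W _ hNc r)
    (by rw [← mul_assoc, hp, pj_mul]) (by
      intro v hv h0
      have hvH : W.InH (W.prod Y Z) j v := by
        rw [← hv, hp]
        exact pj_inH W _ j v
      rw [← Matrix.mulVec_mulVec] at h0
      have h5 : W.InH (W.prod Y Z) j ((G1 + G2 + G3) *ᵥ (N ^ r *ᵥ v)) :=
        inH_mulVec W _ _ (W.cyc_deg _ _ _ _ hGm) (i := j + 2 * r) (by push_cast; ring)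
          (inH_mulVec W _ _ (pow_deg _ hNc r) (by push_cast; ring) hvH)
      rw [hp, pj_of W _ h5] at h0
      have g2 : G2 *ᵥ (N ^ r *ᵥ v) = 0 := by
        have h6 := congrArg (fun w => kr W Y Z q (1 - q') *ᵥ w) h0
        beta_reduce at h6
        rw [Matrix.mulVec_zero, Matrix.mulVec_mulVec, mul_add, mul_add, a2, ← c2, ← b2,
          ← mul_assoc, ← mul_assoc, e12, e23, zero_mul, zero_mul, zero_add, add_zero] at h6
        exact h6
      have g3 : G3 *ᵥ (N ^ r *ᵥ v) = 0 := by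
        have h6 := congrArg (fun w => kr W Y Z (1 - q) q' *ᵥ w) h0
        beta_reduce at h6
        rw [Matrix.mulVec_zero, Matrix.mulVec_mulVec, mul_add, mul_add, b2, ← c2, ← a2,
          ← mul_assoc, ← mul_assoc, e13, e32, zero_mul, zero_mul, zero_add, zero_add] at h6
        exact h6
      have k1 : kr W Y Z (1 - q) (1 - q') *ᵥ v = 0 := by
        refine c3 v hvH ?_
        rw [Matrix.add_mulVec, Matrix.add_mulVec, g2, g3, add_zero, add_zero] at h0
        exact h0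
      have k2 := a3 v hvH g2
      have k3 := b3 v hvH g3
      have k4 := h4 v hvH
      have hsum : kr W Y Z (1 - q) (1 - q') + kr W Y Z q (1 - q') + (kr W Y Z (1 - q) q' +
          kr W Y Z q q') = 1 := by
        rw [← kr_add_left, ← kr_add_left, sub_add_cancel, kr_sub_right, sub_add_cancel, kr_one]
      have h9 := congrArg (fun A => A *ᵥ v) hsum
      beta_reduce at h9
      rw [Matrix.add_mulVec, Matrix.add_mulVec, Matrix.add_mulVec, k1, k2, k3, k4, add_zero,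
        add_zero, Matrix.one_mulVec] at h9
      exact h9.symm)
  refine ⟨c, hc1, ?_⟩
  rw [← hp]
  exact hc2

end

end Pool.Agent.H64.CC
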