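import Mathlib
import Pool.Agent.H64.CC.PMain
import Pool.Agent.H64.CC.Bridge

/-!
# Complete intersections in products
-/

set_option autoImplicit false

open Matrix

namespace Pool.Agent.H64.CC

variable {K : Type} [Field K] [CharZero K]

theorem part_exists (W : Theory K) (Y : W.Var 0) {L : Matrix (Fin (W.rk Y)) (Fin (W.rk Y)) K}
    (hL : L ∈ W.Lef Y) {e : ℕ} (he : 2 ≤ e) (hI : ∀ i, i < e → BDeg W Y i) :
    ∃ q, Part W Y L q e := by
  by_cases h : e ≤ W.dim Y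
  · obtain ⟨e0, rfl⟩ : ∃ e0, e = e0 + 2 := ⟨e - 2, by omega⟩
    exact part_of_inv W Y hL e0 h fun i hi => hI i hi L hL
  · exact ⟨0, part_of_b W Y (b_of_bdeg W Y fun i hi => hI i (by omega)) L e⟩

/-- the Künneth conjecture for complete intersections in products -/
theorem c_prod (W : Theory K) {Y Z : W.Var 0} (D : Dual W (W.prod Y Z))
    {L : Matrix (Fin (W.rk Y)) (Fin (W.rk Y)) K} (hL : L ∈ W.Lef Y)
    {M : Matrix (Fin (W.rk Z)) (Fin (W.rk Z)) K} (hM : M ∈ W.Lef Z) {r m : ℕ} {T : W.Var m}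
    (hr : 1 ≤ r) (S : W.Inter (W.prod Y Z) (kr W Y Z L 1 + kr W Y Z 1 M) r T) {e e' : ℕ}
    (he : 2 ≤ e) (hY : ∀ i, i < e → BDeg W Y i)
    (hS : ∀ b, b + e < W.dim T → ∀ v, W.InH Z b v → M ^ r *ᵥ v = 0 → v = 0)
    (hc : W.B Z ∨ (2 ≤ e' ∧ (∀ i, i < e' → BDeg W Z i) ∧ W.dim T ≤ e + e' ∧
      ∀ b, b + e' < W.dim T → ∀ v, W.InH Y b v → L ^ r *ᵥ v = 0 → v = 0)) : W.C T := by
  have hdim := S.dim_eq
  have hdp := W.dim_prod Y Z
  have hN : kr W Y Z L 1 + kr W Y Z 1 M ∈ W.Lef (W.prod Y Z) := W.Lef_prod Y Z L hL M hM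
  obtain ⟨q, P⟩ := part_exists W Y hL he hY
  refine c_of_li D hN hr S fun j hj => ?_
  rcases hc with hB | ⟨h1, h2, h3, h4⟩
  · exact li_prod P (part_of_b W Z hB M 0) hL hM hN (by omega)
      (fun b hb => hS b (by omega)) (Or.inl rfl)
  · obtain ⟨q', P'⟩ := part_exists W Z hM h1 h2
    exact li_prod P P' hL hM hN (by omega) (fun b hb => hS b (by omega))
      (Or.inr ⟨by omega, fun b hb => h4 b (by omega)⟩)

section

variable (W : Weil K) (h : W.Theory) {Y Z : W.Var 0} (t : W.Transposition (W.prod Y Z))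
  {L : W.Hom Y Y} (hL : L ∈ W.Lef Y) {M : W.Hom Z Z} (hM : M ∈ W.Lef Z) {r m : ℕ}
  {T : W.Var m} (hr : 1 ≤ r)
  (S : Nonempty (W.Intersection (W.prod Y Z) (W.box L M) r T))

theorem box_eq (W : Weil K) (h : W.Theory) {Y Z : W.Var 0} (L : W.Hom Y Y) (M : W.Hom Z Z) :
    W.box L M = kr (toTheory W h) Y Z L 1 + kr (toTheory W h) Y Z 1 M := rfl

include h t hL hM hr S in
theorem fam_general {e : ℕ} (he : 2 ≤ e) (hY : ∀ i < e, W.BDeg Y i) (hZ : W.B Z)
    (hS : ∀ b, b + e < W.dim T → ∀ v, W.InH Z b v → W.ap (W.pw M r) v = 0 → v = 0) : W.C T := by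
  obtain ⟨S⟩ := S
  exact c_prod (toTheory W h) (dual W h t) hL hM hr (int W h S) (e' := 0) he hY hS
    (Or.inl ((b_iff W h Z).2 hZ))

include h t hL hM hr S in
theorem fam_three (hLow : ∀ X : W.Var 0, W.BDeg X 0 ∧ W.BDeg X 1) (hY : W.dim Y ≤ 3)
    (hZ : W.B Z) : W.C T := by
  refine fam_general W h t hL hM hr S (e := 2) le_rfl ?_ hZ ?_
  · intro i hi
    interval_cases i
    · exact (hLow Y).1
    · exact (hLow Y).2
  · intro b hb v hv h0
    obtain ⟨S⟩ := S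
    have hdim := S.dim_eq
    have hdp := h.products.dim_prod Y Z
    exact inj_pow (W := toTheory W h) Z hM (j := b) (k := r) (by
      change b + r ≤ W.dim Z
      omega) hv h0

theorem b_of_low (hLow : ∀ X : W.Var 0, W.BDeg X 0 ∧ W.BDeg X 1) {X : W.Var 0}
    (hX : W.dim X ≤ 2) (h : W.Theory) : W.B X :=
  (b_iff W h X).1 (b_of_bdeg (toTheory W h) X fun i hi => by
    have hi' : i < 2 := lt_of_lt_of_le hi hX
    interval_cases i
    · exact (hLow X).1
    · exact (hLow X).2)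

include h t hL hM hr S in
theorem fam_two (hLow : ∀ X : W.Var 0, W.BDeg X 0 ∧ W.BDeg X 1) (hY : W.dim Y ≤ 3)
    (hZ : W.dim Z ≤ 3) (hr2 : 2 ≤ r) : W.C T := by
  by_cases hZ2 : W.dim Z ≤ 2
  · exact fam_three W h t hL hM hr S hLow hY (b_of_low W hLow hZ2 h)
  obtain ⟨S⟩ := S
  have hdim := S.dim_eq
  have hdp := h.products.dim_prod Y Z
  have low2 : ∀ X : W.Var 0, ∀ i, i < 2 → W.BDeg X i := by
    intro X i hi
    interval_cases i
    · exact (hLow X).1
    · exact (hLow X).2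
  refine c_prod (toTheory W h) (dual W h t) hL hM hr (int W h S) (e := 2) (e' := 2) le_rfl
    (low2 Y) ?_ (Or.inr ⟨le_rfl, low2 Z, ?_, ?_⟩)
  · intro b hb v hv h0
    exact inj_pow (W := toTheory W h) Z hM (j := b) (k := r) (by
      change b + 2 < W.dim T at hb
      change b + r ≤ W.dim Z
      omega) hv h0
  · change W.dim T ≤ 4
    omega
  · intro b hb v hv h0
    exact inj_pow (W := toTheory W h) Y hL (j := b) (k := r) (by
      change b + 2 < W.dim T at hb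
      change b + r ≤ W.dim Y
      omega) hv h0

end

end Pool.Agent.H64.CC
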